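import Mathlib

/-!
# Normalised direct product difference sets as functions

A direct product difference set in `A × B` (`|A| = n`, `|B| = n - 1`), suitably translated, is
`{(f b, b) : b ∈ B}` for a function `f : B → A` as in `DPD`.
-/

set_option autoImplicit false

namespace Pool.Agent.Lib.Helper3.TypeF

/-- `f : B → A` describes a normalised direct product difference set. -/
structure DPD {A B : Type*} [AddCommGroup A] [CommGroup B] (f : B → A) : Prop where
  ne_zero : ∀ b, f b ≠ 0
  inj : Function.Injective f
  diff : ∀ b, b ≠ 1 → Function.Injective (fun x => f (b * x) - f x)

end Pool.Agent.Lib.Helper3.TypeF
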