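import Mathlib
import Pool.Agent.Lib.Helper3.TypeF.Defs

/-! # Basic counting lemmas for direct product difference sets -/

set_option autoImplicit false

namespace Pool.Agent.Lib.Helper3.TypeF

open Finset

section
variable {A B : Type*} [AddCommGroup A] [CommGroup B] [Fintype A] [Fintype B]
  {f : B → A}

/-- An injective map `B → A` avoiding `0` has image `A ∖ {0}`; sum version. -/
theorem sum_of_inj {M : Type*} [AddCommGroup M] (hcard : Fintype.card A = Fintype.card B + 1)
    (e : B → A) (he : Function.Injective e) (h0 : ∀ b, e b ≠ 0) (g : A → M) :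
    ∑ b, g (e b) = ∑ a, g a - g 0 := by
  classical
  have h1 : (univ.image e) = univ.erase (0 : A) := by
    apply Finset.eq_of_subset_of_card_le
    · intro a ha
      obtain ⟨b, _, rfl⟩ := mem_image.1 ha
      exact mem_erase.2 ⟨h0 b, mem_univ _⟩
    · rw [card_image_of_injective _ he, card_erase_of_mem (mem_univ _), card_univ, card_univ, hcard]
      simp
  have h2 : ∑ b, g (e b) = ∑ a ∈ univ.image e, g a := by
    rw [sum_image (fun x _ y _ h => he h)]
  rw [h2, h1, ← sum_erase_add _ _ (mem_univ (0 : A))]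
  abel

theorem surj_of_inj (hcard : Fintype.card A = Fintype.card B + 1)
    (e : B → A) (he : Function.Injective e) (h0 : ∀ b, e b ≠ 0) (a : A) (ha : a ≠ 0) :
    ∃ b, e b = a := by
  classical
  have h1 : (univ.image e) = univ.erase (0 : A) := by
    apply Finset.eq_of_subset_of_card_le
    · intro a ha
      obtain ⟨b, _, rfl⟩ := mem_image.1 ha
      exact mem_erase.2 ⟨h0 b, mem_univ _⟩
    · rw [card_image_of_injective _ he, card_erase_of_mem (mem_univ _), card_univ, card_univ, hcard]
      simp
  have h2 : a ∈ univ.image e := by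
    rw [h1]; exact mem_erase.2 ⟨ha, mem_univ _⟩
  obtain ⟨b, _, hb⟩ := mem_image.1 h2
  exact ⟨b, hb⟩

namespace DPD

variable (hf : DPD f)
include hf

theorem diff_inj {x x' : B} (h : x ≠ x') : Function.Injective (fun b => f (b * x) - f (b * x')) := by
  intro b b' hb
  have h1 : x * x'⁻¹ ≠ 1 := by
    intro h2; exact h (mul_inv_eq_one.1 h2)
  have h3 := @hf.diff (x * x'⁻¹) h1 (b * x') (b' * x')
  have h4 : ∀ c : B, x * x'⁻¹ * (c * x') = c * x := by
    intro c
    rw [mul_comm c x', ← mul_assoc, inv_mul_cancel_right, mul_comm]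
  simp only [h4] at h3
  exact mul_right_cancel (h3 hb)

theorem diff_ne_zero {x x' : B} (h : x ≠ x') (b : B) : f (b * x) - f (b * x') ≠ 0 := by
  intro h1
  exact h (mul_left_cancel (hf.inj (sub_eq_zero.1 h1)))

theorem sum_diff {M : Type*} [AddCommGroup M] (hcard : Fintype.card A = Fintype.card B + 1)
    {x x' : B} (h : x ≠ x') (g : A → M) :
    ∑ b, g (f (b * x) - f (b * x')) = ∑ a, g a - g 0 :=
  sum_of_inj hcard _ (hf.diff_inj h) (hf.diff_ne_zero h) g

theorem sum_f {M : Type*} [AddCommGroup M] (hcard : Fintype.card A = Fintype.card B + 1)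
    (g : A → M) : ∑ b, g (f b) = ∑ a, g a - g 0 :=
  sum_of_inj hcard _ hf.inj hf.ne_zero g

theorem surj (hcard : Fintype.card A = Fintype.card B + 1) {a : A} (ha : a ≠ 0) : ∃ b, f b = a :=
  surj_of_inj hcard _ hf.inj hf.ne_zero a ha

end DPD

end

end Pool.Agent.Lib.Helper3.TypeF
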