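import Mathlib

/-! # Automorphisms of cyclotomic integers fixing all primes above `p` -/

set_option autoImplicit false

namespace Pool.Agent.Lib.Helper3.TypeF

open Finset

section Ideals
variable {R : Type*} [CommRing R] [IsDedekindDomain R]

theorem map_ideal_eq (τ : R ≃+* R) (q : R)
    (hτ : ∀ P : Ideal R, P.IsPrime → q ∈ P → P.map (τ : R →+* R) = P) (k : ℕ)
    (I : Ideal R) (hI : I ∣ Ideal.span {q ^ k}) : I.map (τ : R →+* R) = I := by
  induction I using UniqueFactorizationMonoid.induction_on_prime with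
  | h₁ => exact Ideal.map_bot
  | h₂ I hI1 =>
    rw [Ideal.isUnit_iff] at hI1
    rw [hI1, Ideal.map_top]
  | h₃ J P hJ hP ih =>
    rw [Ideal.map_mul, ih (dvd_trans (Dvd.intro_left P rfl) hI)]
    have hPp : P.IsPrime := Ideal.isPrime_of_prime hP
    have h1 : P ∣ Ideal.span {q ^ k} := dvd_trans (Dvd.intro J rfl) hI
    have h2 : q ^ k ∈ P := by
      rw [Ideal.dvd_span_singleton] at h1
      exact h1
    rw [hτ P hPp (hPp.mem_of_pow_mem k h2)]

/-- If `x y = q ^ k` and `τ` fixes all primes containing `q`, then `q ^ k ∣ x τ(y)`. -/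
theorem dvd_mul_map (τ : R ≃+* R) (q : R)
    (hτ : ∀ P : Ideal R, P.IsPrime → q ∈ P → P.map (τ : R →+* R) = P) (k : ℕ)
    (x y : R) (hxy : x * y = q ^ k) : q ^ k ∣ x * τ y := by
  have h1 : (Ideal.span {y}).map (τ : R →+* R) = Ideal.span {y} := by
    apply map_ideal_eq τ q hτ k
    rw [Ideal.dvd_span_singleton, Ideal.mem_span_singleton, ← hxy]
    exact Dvd.intro_left x rfl
  rw [Ideal.map_span, Set.image_singleton] at h1
  have h2 : y ∣ τ y := by
    rw [← Ideal.mem_span_singleton, ← h1]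
    exact Ideal.subset_span rfl
  obtain ⟨c, hc⟩ := h2
  rw [hc, ← mul_assoc, hxy]
  exact Dvd.intro c rfl

end Ideals

section Stab
variable {R : Type*} [CommRing R] [IsDedekindDomain R]

/-- If `R = ℤ[ζ]`, `ζ ^ (p N) = 1` and `τ ζ = ζ ^ s` with `s ≡ p ^ e (mod N)` then `τ` fixes all
primes above `p`. -/
theorem stab (p N s e : ℕ) [hp : Fact p.Prime] (τ : R ≃+* R) (ζ : R)
    (hadj : Algebra.adjoin ℤ {ζ} = ⊤) (hζ : ζ ^ (p * N) = 1) (hs : s ≡ p ^ e [MOD N])
    (hτ : τ ζ = ζ ^ s) (hp0 : (p : R) ≠ 0) (P : Ideal R) (hP : P.IsPrime) (hpP : (p : R) ∈ P) :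
    P.map (τ : R →+* R) = P := by
  have hchar : CharP (R ⧸ P) p := by
    have h0 : (p : R ⧸ P) = 0 := by
      have := Ideal.Quotient.eq_zero_iff_mem.2 hpP
      simpa using this
    exact (CharP.charP_iff_prime_eq_zero hp.out).2 h0
  have hdom : IsDomain (R ⧸ P) := Ideal.Quotient.isDomain P
  let φ₁ : R →ₐ[ℤ] (R ⧸ P) := ((Ideal.Quotient.mk P).comp (τ : R →+* R)).toIntAlgHom
  let φ₂ : R →ₐ[ℤ] (R ⧸ P) := ((iterateFrobenius (R ⧸ P) p e).comp (Ideal.Quotient.mk P)).toIntAlgHom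
  have h1 : Ideal.Quotient.mk P (ζ ^ N) = 1 := by
    have h2 : (Ideal.Quotient.mk P (ζ ^ N) - 1) ^ p = 0 := by
      rw [sub_pow_char, ← map_pow, ← pow_mul, mul_comm N p, hζ]
      simp
    exact sub_eq_zero.1 (pow_eq_zero_iff (hp.out.ne_zero) |>.1 h2)
  have h3 : φ₁ = φ₂ := by
    apply AlgHom.ext_of_adjoin_eq_top hadj
    intro x hx
    rw [Set.mem_singleton_iff] at hx
    subst hx
    change Ideal.Quotient.mk P (τ x) = iterateFrobenius (R ⧸ P) p e (Ideal.Quotient.mk P x)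
    rw [hτ, iterateFrobenius_def, map_pow]
    apply pow_eq_pow_of_modEq hs
    rw [← map_pow, h1]
  have h4 : ∀ x ∈ P, τ x ∈ P := by
    intro x hx
    have h5 : φ₁ x = φ₂ x := by rw [h3]
    change Ideal.Quotient.mk P (τ x) = iterateFrobenius (R ⧸ P) p e (Ideal.Quotient.mk P x) at h5
    rw [Ideal.Quotient.eq_zero_iff_mem.2 hx, map_zero] at h5
    exact Ideal.Quotient.eq_zero_iff_mem.1 h5
  have h6 : P.map (τ : R →+* R) ≤ P := by
    rw [Ideal.map_le_iff_le_comap]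
    intro x hx
    exact h4 x hx
  have h7 : (P.map (τ : R →+* R)).IsPrime := Ideal.map_isPrime_of_equiv τ
  have h8 : P.map (τ : R →+* R) ≠ ⊥ := by
    intro h9
    have h10 : τ (p : R) ∈ P.map (τ : R →+* R) := Ideal.mem_map_of_mem _ hpP
    rw [h9, Ideal.mem_bot, map_natCast] at h10
    exact hp0 h10
  have h11 : (P.map (τ : R →+* R)).IsMaximal := h7.isMaximal h8
  exact h11.eq_of_le hP.ne_top h6

end Stab

section Aut
open NumberField IsCyclotomicExtension

theorem exists_aut (m : ℕ) [NeZero m] (K : Type*) [Field K] [NumberField K]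
    [hK : IsCyclotomicExtension {m} ℚ K] (s : ℕ) (hs : s.Coprime m) :
    ∃ τ : 𝓞 K ≃+* 𝓞 K, ∀ x : 𝓞 K, x ^ m = 1 → τ x = x ^ s := by
  let σ : Gal(K/ℚ) := (Rat.galEquivZMod m K).symm (ZMod.unitOfCoprime s hs)
  refine ⟨MulSemiringAction.toRingEquiv _ _ σ, fun x hx => ?_⟩
  have h1 := Rat.galEquivZMod_smul_of_pow_eq m K σ hx
  change σ • x = x ^ s
  rw [h1]
  have h2 : (Rat.galEquivZMod m K) σ = ZMod.unitOfCoprime s hs := by
    exact MulEquiv.apply_symm_apply _ _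
  rw [h2]
  have h3 : ((ZMod.unitOfCoprime s hs : (ZMod m)ˣ) : ZMod m).val ≡ s [MOD m] := by
    rw [ZMod.coe_unitOfCoprime, ZMod.val_natCast]
    exact Nat.mod_modEq s m
  exact pow_eq_pow_of_modEq h3 hx

end Aut

end Pool.Agent.Lib.Helper3.TypeF
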