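import Mathlib

/-! # Fourier inversion on a finite abelian group with values in a domain -/

set_option autoImplicit false

namespace Pool.Agent.Lib.Helper3.TypeF

open Finset

section
variable {G R : Type*} [CommGroup G] [Fintype G] [CommRing R] [IsDomain R]
  [HasEnoughRootsOfUnity R (Monoid.exponent G)] [Fintype (G →* Rˣ)]

theorem sum_char_apply [DecidableEq G] (d : G) :
    ∑ γ : G →* Rˣ, (γ d : R) = if d = 1 then (Fintype.card G : R) else 0 := by
  split_ifs with h
  · subst h
    simp only [map_one, Units.val_one, sum_const, card_univ, nsmul_eq_mul, mul_one]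
    have h1 := CommGroup.card_monoidHom_of_hasEnoughRootsOfUnity G R
    rw [Nat.card_eq_fintype_card, Nat.card_eq_fintype_card] at h1
    rw [h1]
  · obtain ⟨γ₀, hγ₀⟩ := CommGroup.exists_apply_ne_one_of_hasEnoughRootsOfUnity G R h
    have h1 : ∑ γ : G →* Rˣ, (γ d : R) = (γ₀ d : R) * ∑ γ : G →* Rˣ, (γ d : R) := by
      rw [mul_sum]
      rw [← Equiv.sum_comp (Equiv.mulLeft γ₀)]
      refine sum_congr rfl fun γ _ => ?_
      simp
    have h2 : ((γ₀ d : R) - 1) * ∑ γ : G →* Rˣ, (γ d : R) = 0 := by
      rw [sub_mul, ← h1]; ring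
    rcases mul_eq_zero.1 h2 with h3 | h3
    · exfalso
      apply hγ₀
      ext
      simpa [sub_eq_zero] using h3
    · exact h3

theorem fourier_inversion (F : G → R) (b : G) :
    ∑ γ : G →* Rˣ, (γ b : R) * ∑ c, (γ c⁻¹ : R) * F c = (Fintype.card G : R) * F b := by
  classical
  have h : ∀ γ : G →* Rˣ, (γ b : R) * ∑ c, (γ c⁻¹ : R) * F c = ∑ c, (γ (b * c⁻¹) : R) * F c := by
    intro γ
    rw [mul_sum]
    refine sum_congr rfl fun c _ => ?_
    rw [map_mul, Units.val_mul, mul_assoc]
  simp_rw [h]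
  rw [sum_comm]
  simp_rw [← sum_mul, sum_char_apply]
  have h2 : ∀ c, (if b * c⁻¹ = 1 then (Fintype.card G : R) else 0) * F c =
      if c = b then (Fintype.card G : R) * F c else 0 := by
    intro c
    by_cases hc : c = b
    · subst hc; simp
    · rw [if_neg hc, if_neg, zero_mul]
      intro h3
      exact hc (mul_inv_eq_one.1 h3).symm
  simp_rw [h2]
  simp

end

end Pool.Agent.Lib.Helper3.TypeF
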