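import Mathlib
import Pool.Agent.Lib.Helper3.TypeF.Basic
import Pool.Agent.Lib.Helper3.TypeF.Fourier
import Pool.Agent.Lib.Helper3.TypeF.Cyclo

/-! # The multiplier theorem for a single hyperplane -/

set_option autoImplicit false

namespace Pool.Agent.Lib.Helper3.TypeF

open Finset

section Sums
variable {A B : Type*} [AddCommGroup A] [CommGroup B] [Fintype A] [Fintype B]
  {f : B → A} {p : ℕ} [hp : Fact p.Prime] {R : Type*} [CommRing R] [IsDomain R]

theorem exists_apply_eq {α : A →+ ZMod p} (hα : α ≠ 0) (r : ZMod p) : ∃ a, α a = r := by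
  obtain ⟨a, ha⟩ : ∃ a, α a ≠ 0 := by
    by_contra h
    push Not at h
    exact hα (AddMonoidHom.ext h)
  refine ⟨(r * (α a)⁻¹).val • a, ?_⟩
  rw [map_nsmul, nsmul_eq_mul, ZMod.natCast_zmod_val, inv_mul_cancel_right₀ ha]

theorem sum_addChar_zero {α : A →+ ZMod p} (hα : α ≠ 0) (ψ : AddChar (ZMod p) R)
    (hψ : ∀ x, ψ x = 1 → x = 0) : ∑ a, ψ (α a) = 0 := by
  have h1 : ψ.compAddMonoidHom α ≠ 1 := by
    intro h
    obtain ⟨a, ha⟩ := exists_apply_eq hα 1
    have h2 : ψ.compAddMonoidHom α a = 1 := by rw [h]; rfl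
    rw [AddChar.compAddMonoidHom_apply, ha] at h2
    exact one_ne_zero (hψ _ h2)
  exact AddChar.sum_eq_zero_of_ne_one h1

variable (hf : DPD f) (hcard : Fintype.card A = Fintype.card B + 1)
include hf hcard

theorem sum_psi_f {α : A →+ ZMod p} (hα : α ≠ 0) (ψ : AddChar (ZMod p) R)
    (hψ : ∀ x, ψ x = 1 → x = 0) : ∑ b, ψ (α (f b)) = -1 := by
  rw [hf.sum_f hcard (fun a => ψ (α a)), sum_addChar_zero hα ψ hψ]
  simp

theorem sum_psi_diff {α : A →+ ZMod p} (hα : α ≠ 0) (ψ : AddChar (ZMod p) R)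
    (hψ : ∀ x, ψ x = 1 → x = 0) {x x' : B} (h : x ≠ x') :
    ∑ b, ψ (α (f (b * x) - f (b * x'))) = -1 := by
  rw [hf.sum_diff hcard h (fun a => ψ (α a)), sum_addChar_zero hα ψ hψ]
  simp

/-- Gauss sum relation. -/
theorem gauss_mul {α : A →+ ZMod p} (hα : α ≠ 0) (ψ : AddChar (ZMod p) R)
    (hψ : ∀ x, ψ x = 1 → x = 0) (β : B →* Rˣ) (hβ : β ≠ 1) :
    (∑ b, (β b⁻¹ : R) * ψ (α (f b))) * (∑ y, (β y : R) * ψ (-α (f y))) = (Fintype.card A : R) := by
  classical
  have h1 : (∑ b, (β b⁻¹ : R) * ψ (α (f b))) * (∑ y, (β y : R) * ψ (-α (f y))) =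
      ∑ y, ∑ b, (β b⁻¹ : R) * ψ (α (f (b * y) - f y)) := by
    rw [sum_mul_sum, sum_comm]
    refine sum_congr rfl fun y _ => ?_
    rw [← Equiv.sum_comp (Equiv.mulRight y)]
    refine sum_congr rfl fun b _ => ?_
    simp only [Equiv.coe_mulRight]
    have h2 : ((β (b * y)⁻¹ : Rˣ) : R) * (β y : R) = (β b⁻¹ : R) := by
      rw [← Units.val_mul, ← map_mul]
      congr 2
      rw [mul_inv, inv_mul_cancel_right]
    have h3 : ψ (α (f (b * y))) * ψ (-α (f y)) = ψ (α (f (b * y) - f y)) := by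
      rw [← AddChar.map_add_eq_mul, map_sub, sub_eq_add_neg]
    rw [← h2, ← h3]; ring
  have h4 : ∀ b : B, b ≠ 1 → ∑ y, ψ (α (f (b * y) - f y)) = -1 := by
    intro b hb
    have h5 := sum_psi_diff hf hcard hα ψ hψ hb
    rw [← h5]
    refine sum_congr rfl fun y _ => ?_
    rw [mul_comm b y, mul_one]
  have h5 : ∑ b, (β b⁻¹ : R) = 0 := by
    have h6 : ((Units.coeHom R).comp β) ≠ 1 := by
      intro h
      apply hβ
      ext b
      have := DFunLike.congr_fun h b
      simpa using this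
    have h7 := sum_hom_units_eq_zero ((Units.coeHom R).comp β) h6
    rw [← Equiv.sum_comp (Equiv.inv B)] at h7
    simpa using h7
  rw [h1, sum_comm]
  have h6 : ∀ b : B, ∑ y, (β b⁻¹ : R) * ψ (α (f (b * y) - f y)) =
      -(β b⁻¹ : R) + if b = 1 then (Fintype.card B : R) + 1 else 0 := by
    intro b
    rw [← mul_sum]
    split_ifs with hb
    · subst hb
      simp
    · rw [h4 b hb]; ring
  simp_rw [h6]
  rw [sum_add_distrib, sum_neg_distrib, h5, hcard]
  simp

theorem sum_psi_f_mul {α : A →+ ZMod p} (hα : α ≠ 0) (ψ : AddChar (ZMod p) R)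
    (hψ : ∀ x, ψ x = 1 → x = 0) {r : ZMod p} (hr : r ≠ 0) : ∑ b, ψ (r * α (f b)) = -1 := by
  have h := sum_psi_f hf hcard hα (ψ.mulShift r) (fun x hx => by
    rw [AddChar.mulShift_apply] at hx
    exact (mul_eq_zero.1 (hψ _ hx)).resolve_left hr)
  simpa only [AddChar.mulShift_apply] using h

end Sums

section Fs
variable {A B : Type*} [AddCommGroup A] [CommGroup B] [Fintype A] [Fintype B]
  {f : B → A} {p : ℕ} [hp : Fact p.Prime] {R : Type*} [CommRing R] [IsDomain R]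

/-- The exponential sums attached to the multiplier `(t, u)`. -/
def Fs (f : B → A) (ψ : AddChar (ZMod p) R) (α : A →+ ZMod p) (t : ZMod p) (u : ℕ) (b : B) : R :=
  1 + ∑ y, ψ (α (f (b * y ^ u)) - t * α (f y))

variable (hf : DPD f) (hcard : Fintype.card A = Fintype.card B + 1)
  {α : A →+ ZMod p} (hα : α ≠ 0) (ψ : AddChar (ZMod p) R)
  (hψ : ∀ x, ψ x = 1 → x = 0) {t : ZMod p} (ht : t ≠ 0) {u : ℕ}
include hf hcard hα hψ ht

theorem sum_sum_psi :
    ∑ b, ∑ y, ψ (α (f (b * y ^ u)) - t * α (f y)) = 1 := by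
  rw [sum_comm]
  have h1 : ∀ y, ∑ b, ψ (α (f (b * y ^ u)) - t * α (f y)) = - ψ ((-t) * α (f y)) := by
    intro y
    have h2 : ∀ b, ψ (α (f (b * y ^ u)) - t * α (f y)) =
        ψ (α (f (b * y ^ u))) * ψ ((-t) * α (f y)) := by
      intro b
      rw [← AddChar.map_add_eq_mul]; congr 1; ring
    simp_rw [h2]
    rw [← sum_mul]
    have h3 : ∑ b, ψ (α (f (b * y ^ u))) = -1 := by
      rw [← sum_psi_f hf hcard hα ψ hψ]
      exact Equiv.sum_comp (Equiv.mulRight (y ^ u)) (fun b => ψ (α (f b)))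
    rw [h3]; ring
  simp_rw [h1]
  rw [sum_neg_distrib, sum_psi_f_mul hf hcard hα ψ hψ (neg_ne_zero.2 ht)]
  ring

theorem sum_Fs : ∑ b, Fs f ψ α t u b = (Fintype.card A : R) := by
  unfold Fs
  rw [sum_add_distrib, sum_sum_psi hf hcard hα ψ hψ ht, hcard]
  simp

theorem char_sum_Fs (τ : R ≃+* R) (hτψ : ∀ x, τ (ψ x) = ψ (t * x)) (β : B →* Rˣ)
    (hτβ : ∀ b, τ (β b : R) = (β b : R) ^ u)
    (hdvd : ∀ x y : R, x * y = (Fintype.card A : R) → (Fintype.card A : R) ∣ x * τ y) :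
    (Fintype.card A : R) ∣ ∑ b, (β b⁻¹ : R) * Fs f ψ α t u b := by
  by_cases hβ : β = 1
  · subst hβ
    have h1 := sum_Fs hf hcard hα ψ hψ ht (u := u)
    simp only [MonoidHom.one_apply, Units.val_one, one_mul, h1]
    exact dvd_refl _
  · have h5 : ∑ b, (β b⁻¹ : R) = 0 := by
      have h6 : ((Units.coeHom R).comp β) ≠ 1 := by
        intro h
        apply hβ
        ext b
        have := DFunLike.congr_fun h b
        simpa using this
      have h7 := sum_hom_units_eq_zero ((Units.coeHom R).comp β) h6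
      rw [← Equiv.sum_comp (Equiv.inv B)] at h7
      simpa using h7
    have h1 := hdvd _ _ (gauss_mul hf hcard hα ψ hψ β hβ)
    have h2 : τ (∑ y, (β y : R) * ψ (-α (f y))) = ∑ y, (β (y ^ u) : R) * ψ (-(t * α (f y))) := by
      rw [map_sum]
      refine sum_congr rfl fun y _ => ?_
      rw [map_mul, hτβ, hτψ, map_pow, Units.val_pow_eq_pow_val, mul_neg]
    rw [h2] at h1
    have h3 : ∑ b, (β b⁻¹ : R) * Fs f ψ α t u b =
        (∑ b, (β b⁻¹ : R) * ψ (α (f b))) * ∑ y, (β (y ^ u) : R) * ψ (-(t * α (f y))) := by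
      have h4 : ∀ b, (β b⁻¹ : R) * Fs f ψ α t u b = (β b⁻¹ : R) +
          ∑ y, (β b⁻¹ : R) * ψ (α (f (b * y ^ u)) - t * α (f y)) := by
        intro b
        unfold Fs
        rw [mul_add, mul_one, mul_sum]
      simp_rw [h4]
      rw [sum_add_distrib, h5, zero_add, sum_mul_sum, sum_comm, sum_comm (s := univ) (t := univ)
        (f := fun i j => (β i⁻¹ : R) * ψ (α (f i)) * ((β (j ^ u) : R) * ψ (-(t * α (f j)))))]
      refine sum_congr rfl fun y _ => ?_
      rw [← Equiv.sum_comp (Equiv.mulRight (y ^ u)) (fun i => (β i⁻¹ : R) * ψ (α (f i)) *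
        ((β (y ^ u) : R) * ψ (-(t * α (f y)))))]
      refine sum_congr rfl fun b _ => ?_
      simp only [Equiv.coe_mulRight]
      have h6 : ((β (b * y ^ u)⁻¹ : Rˣ) : R) * (β (y ^ u) : R) = (β b⁻¹ : R) := by
        rw [← Units.val_mul, ← map_mul]
        congr 2
        rw [mul_inv, inv_mul_cancel_right]
      have h7 : ψ (α (f (b * y ^ u)) - t * α (f y)) =
          ψ (α (f (b * y ^ u))) * ψ (-(t * α (f y))) := by
        rw [← AddChar.map_add_eq_mul, sub_eq_add_neg]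
      rw [h7, ← h6]; ring
    rw [h3]
    exact h1

theorem parseval_Fs (hu : Function.Injective (fun y : B => y ^ u)) :
    ∑ b, Fs f ψ α t u b * (1 + ∑ y, ψ (-(α (f (b * y ^ u)) - t * α (f y)))) =
      (Fintype.card A : R) ^ 2 := by
  classical
  have ht' : (-t) ≠ 0 := neg_ne_zero.2 ht
  have hψ' : ∀ x, ψ.mulShift (-1) x = 1 → x = 0 := by
    intro x hx
    rw [AddChar.mulShift_apply] at hx
    have := hψ _ hx
    simpa using this
  have h1 : ∀ b, Fs f ψ α t u b * (1 + ∑ y, ψ (-(α (f (b * y ^ u)) - t * α (f y)))) =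
      1 + ∑ y, ψ (α (f (b * y ^ u)) - t * α (f y)) +
      ∑ y, ψ.mulShift (-1) (α (f (b * y ^ u)) - t * α (f y)) +
      ∑ y, ∑ z, ψ (α (f (b * y ^ u) - f (b * z ^ u))) * ψ (-t * α (f y) ) * ψ (t * α (f z)) := by
    intro b
    unfold Fs
    have h2 : ∑ y, ∑ z, ψ (α (f (b * y ^ u) - f (b * z ^ u))) * ψ (-t * α (f y)) * ψ (t * α (f z)) =
        (∑ y, ψ (α (f (b * y ^ u)) - t * α (f y))) *
        (∑ y, ψ (-(α (f (b * y ^ u)) - t * α (f y)))) := by
      rw [sum_mul_sum]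
      refine sum_congr rfl fun y _ => sum_congr rfl fun z _ => ?_
      rw [← AddChar.map_add_eq_mul, ← AddChar.map_add_eq_mul, ← AddChar.map_add_eq_mul, map_sub]
      congr 1; ring
    rw [h2]
    have h3 : ∀ y, ψ.mulShift (-1) (α (f (b * y ^ u)) - t * α (f y)) =
        ψ (-(α (f (b * y ^ u)) - t * α (f y))) := by
      intro y; rw [AddChar.mulShift_apply, neg_one_mul]
    simp_rw [h3]
    ring
  simp_rw [h1]
  rw [sum_add_distrib, sum_add_distrib, sum_add_distrib, sum_sum_psi hf hcard hα ψ hψ ht,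
    sum_sum_psi hf hcard hα (ψ.mulShift (-1)) hψ' ht]
  have h4 : ∑ b, ∑ y, ∑ z, ψ (α (f (b * y ^ u) - f (b * z ^ u))) * ψ (-t * α (f y)) *
      ψ (t * α (f z)) = (Fintype.card B : R) ^ 2 + (Fintype.card B : R) - 1 := by
    rw [sum_comm]
    have h5 : ∀ y z, ∑ b, ψ (α (f (b * y ^ u) - f (b * z ^ u))) * ψ (-t * α (f y)) *
        ψ (t * α (f z)) = - (ψ (-t * α (f y)) * ψ (t * α (f z))) +
          if y = z then (Fintype.card B : R) + 1 else 0 := by
      intro y z
      rw [← sum_mul, ← sum_mul]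
      split_ifs with hyz
      · subst hyz
        have h6 : ψ (-t * α (f y)) * ψ (t * α (f y)) = 1 := by
          rw [← AddChar.map_add_eq_mul]; simp
        rw [mul_assoc, h6]
        simp
      · rw [sum_psi_diff hf hcard hα ψ hψ (fun h => hyz (hu h))]
        ring
    have h6 : ∑ y, ∑ b, ∑ z, ψ (α (f (b * y ^ u) - f (b * z ^ u))) * ψ (-t * α (f y)) *
        ψ (t * α (f z)) = ∑ y, ∑ z, (- (ψ (-t * α (f y)) * ψ (t * α (f z))) +
          if y = z then (Fintype.card B : R) + 1 else 0) := by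
      refine sum_congr rfl fun y _ => ?_
      rw [sum_comm]
      exact sum_congr rfl fun z _ => h5 y z
    rw [h6]
    simp_rw [sum_add_distrib, sum_neg_distrib]
    rw [← sum_mul_sum, sum_psi_f_mul hf hcard hα ψ hψ ht', sum_psi_f_mul hf hcard hα ψ hψ ht]
    simp only [sum_ite_eq, mem_univ, if_true, sum_const, card_univ, nsmul_eq_mul]
    ring
  rw [h4, hcard]
  simp only [sum_const, card_univ, nsmul_eq_mul]
  push_cast
  ring

end Fs

end Pool.Agent.Lib.Helper3.TypeF
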