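import Mathlib
import Pool.Agent.Lib.Helper3.TypeF.Mult

/-! # The multiplier theorem for a single hyperplane, conclusion -/

set_option autoImplicit false

namespace Pool.Agent.Lib.Helper3.TypeF

open Finset NumberField

/-- If complex numbers of absolute value one sum to their number, all are one. -/
theorem all_one_of_sum {ι : Type*} [Fintype ι] (z : ι → ℂ) (hz : ∀ i, ‖z i‖ = 1)
    (hs : ∑ i, z i = (Fintype.card ι : ℂ)) (i : ι) : z i = 1 := by
  have h1 : ∀ i, (z i).re ≤ 1 := fun i => (Complex.re_le_norm _).trans (hz i).le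
  have h2 : ∑ i, (1 - (z i).re) = 0 := by
    rw [sum_sub_distrib, ← Complex.re_sum, hs]
    simp
  have h3 : ∀ i ∈ univ, 1 - (z i).re = 0 := by
    apply (sum_eq_zero_iff_of_nonneg _).1 h2
    intro i _
    linarith [h1 i]
  have h4 : (z i).re = 1 := by linarith [h3 i (mem_univ i)]
  have h5 : (z i).re ^ 2 + (z i).im ^ 2 = 1 := by
    have := Complex.sq_norm (z i)
    rw [hz, Complex.normSq_apply] at this
    nlinarith
  have h6 : (z i).im = 0 := by
    rw [h4] at h5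
    nlinarith
  apply Complex.ext
  · simpa using h4
  · simpa using h6

variable {A B : Type*} [AddCommGroup A] [CommGroup B] [Fintype A] [Fintype B]
  {f : B → A} {p : ℕ} [hp : Fact p.Prime]

omit [AddCommGroup A] in
theorem card_pow_facts (hcard : Fintype.card A = Fintype.card B + 1) {k : ℕ}
    (hk : Fintype.card A = p ^ k) : k ≠ 0 ∧ p.Coprime (Fintype.card B) := by
  have hB : 0 < Fintype.card B := Fintype.card_pos
  have h0 : k ≠ 0 := by
    rintro rfl
    rw [pow_zero] at hk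
    omega
  refine ⟨h0, ?_⟩
  rw [Nat.Prime.coprime_iff_not_dvd hp.out]
  intro h
  have h1 : p ∣ Fintype.card B + 1 := by
    rw [← hcard, hk]
    exact dvd_pow_self p h0
  have h2 : p ∣ 1 := (Nat.dvd_add_right h).1 h1
  exact hp.out.one_lt.ne' (Nat.dvd_one.1 h2)

theorem pow_injective_of_coprime {u : ℕ} (hu : u.Coprime (Fintype.card B)) :
    Function.Injective (fun y : B => y ^ u) := by
  have h : (Nat.card B).Coprime u := by
    rw [Nat.card_eq_fintype_card]; exact hu.symm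
  exact (powCoprime h).injective

theorem multiplier_aux (hf : DPD f) (hcard : Fintype.card A = Fintype.card B + 1) {k : ℕ}
    (hk : Fintype.card A = p ^ k) {α : A →+ ZMod p} (hα : α ≠ 0) {t : ZMod p} (ht : t ≠ 0)
    (e : ℕ) (N : ℕ) (hN : N = Fintype.card B) [NeZero (p * N)] [NeZero N]
    (K : Type) [Field K] [NumberField K] [IsCyclotomicExtension {p * N} ℚ K] :
    ∃ c : B, ∀ y : B, α (f (c * y ^ (p ^ e))) = t * α (f y) := by
  classical
  obtain ⟨hk0, hcop⟩ := card_pow_facts hcard hk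
  rw [← hN] at hcop
  have hζ0 := IsCyclotomicExtension.zeta_spec (p * N) ℚ K
  let ζ : 𝓞 K := hζ0.toInteger
  have hζ : IsPrimitiveRoot ζ (p * N) := hζ0.toInteger_isPrimitiveRoot
  have hadj : Algebra.adjoin ℤ {ζ} = ⊤ := IsCyclotomicExtension.Rat.adjoin_singleton_eq_top hζ0
  -- the exponent `s`
  obtain ⟨s, hs1, hs2⟩ := Nat.chineseRemainder hcop t.val (p ^ e)
  have hscop : s.Coprime (p * N) := by
    rw [Nat.coprime_mul_iff_right]
    constructor
    · rw [Nat.coprime_comm, Nat.Prime.coprime_iff_not_dvd hp.out]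
      intro h
      have h1 : (s : ZMod p) = 0 := (ZMod.natCast_eq_zero_iff s p).2 h
      have h2 : (s : ZMod p) = t := by
        rw [(ZMod.natCast_eq_natCast_iff _ _ _).2 hs1, ZMod.natCast_zmod_val]
      exact ht (h2 ▸ h1)
    · have h1 : Nat.gcd s N = Nat.gcd (p ^ e) N := Nat.ModEq.gcd_eq hs2
      rw [Nat.Coprime, h1]
      exact Nat.Coprime.pow_left e hcop
  obtain ⟨τ, hτ⟩ := exists_aut (p * N) K s hscop
  -- the additive character
  have hζp : IsPrimitiveRoot (ζ ^ N) p := hζ.pow (NeZero.pos _) (mul_comm _ _)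
  let ψ : AddChar (ZMod p) (𝓞 K) := AddChar.zmodChar p hζp.pow_eq_one
  have hψ : ∀ x, ψ x = 1 → x = 0 := by
    intro x hx
    rw [AddChar.zmodChar_apply] at hx
    have h1 := (hζp.pow_eq_one_iff_dvd _).1 hx
    have h2 := Nat.eq_zero_of_dvd_of_lt h1 (ZMod.val_lt x)
    exact (ZMod.val_eq_zero x).1 h2
  have hψp : ∀ x, ψ x ^ (p * N) = 1 := by
    intro x
    rw [← AddChar.map_nsmul_eq_pow]
    have : (p * N) • x = 0 := by
      rw [nsmul_eq_mul]; simp
    rw [this, AddChar.map_zero_eq_one]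
  have hτψ : ∀ x, τ (ψ x) = ψ (t * x) := by
    intro x
    rw [hτ _ (hψp x), ← AddChar.map_nsmul_eq_pow, nsmul_eq_mul]
    congr 2
    rw [(ZMod.natCast_eq_natCast_iff _ _ _).2 hs1, ZMod.natCast_zmod_val]
  have hβN : ∀ (β : B →* (𝓞 K)ˣ) (b : B), (β b : 𝓞 K) ^ N = 1 := by
    intro β b
    rw [← Units.val_pow_eq_pow_val, ← map_pow, hN, pow_card_eq_one]
    simp
  have hτβ : ∀ (β : B →* (𝓞 K)ˣ) (b : B), τ (β b : 𝓞 K) = (β b : 𝓞 K) ^ (p ^ e) := by
    intro β b
    rw [hτ]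
    · exact pow_eq_pow_of_modEq hs2 (hβN β b)
    · rw [mul_comm, pow_mul, hβN, one_pow]
  -- divisibility
  have hcardR : (Fintype.card A : 𝓞 K) = (p : 𝓞 K) ^ k := by rw [hk]; push_cast; rfl
  have hp0 : (p : 𝓞 K) ≠ 0 := by
    exact_mod_cast hp.out.ne_zero
  have hn0 : (Fintype.card A : 𝓞 K) ≠ 0 := by
    rw [hcardR]; exact pow_ne_zero _ hp0
  have hdvd : ∀ x y : 𝓞 K, x * y = (Fintype.card A : 𝓞 K) → (Fintype.card A : 𝓞 K) ∣ x * τ y := by
    intro x y hxy
    rw [hcardR] at hxy ⊢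
    apply dvd_mul_map τ (p : 𝓞 K) _ k x y hxy
    intro P hP hpP
    exact stab p N s e τ ζ hadj hζ.pow_eq_one hs2 (hτ ζ hζ.pow_eq_one) hp0 P hP hpP
  have h1 : HasEnoughRootsOfUnity (𝓞 K) (p * N) := ⟨⟨ζ, hζ⟩, rootsOfUnity.isCyclic _ _⟩
  have : HasEnoughRootsOfUnity (𝓞 K) (Monoid.exponent B) := by
    apply HasEnoughRootsOfUnity.of_dvd (𝓞 K) (n := p * N)
    have h2 : Monoid.exponent B ∣ Fintype.card B := Group.exponent_dvd_card
    exact dvd_trans (hN ▸ h2) (Dvd.intro_left p rfl)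
  have : Fintype (B →* (𝓞 K)ˣ) := Fintype.ofFinite _
  have hFdvd : ∀ b, (Fintype.card A : 𝓞 K) ∣ Fs f ψ α t (p ^ e) b := by
    intro b
    have h2 := fourier_inversion (R := 𝓞 K) (Fs f ψ α t (p ^ e)) b
    have h3 : (Fintype.card A : 𝓞 K) ∣ (Fintype.card B : 𝓞 K) * Fs f ψ α t (p ^ e) b := by
      rw [← h2]
      apply dvd_sum
      intro γ _
      exact Dvd.dvd.mul_left (char_sum_Fs hf hcard hα ψ hψ ht τ hτψ γ (hτβ γ) hdvd) _
    have h4 : Fs f ψ α t (p ^ e) b = (Fintype.card A : 𝓞 K) * Fs f ψ α t (p ^ e) b -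
        (Fintype.card B : 𝓞 K) * Fs f ψ α t (p ^ e) b := by
      rw [hcard]; push_cast; ring
    rw [h4]
    exact dvd_sub (Dvd.intro _ rfl) h3
  choose G hG using hFdvd
  have hsumG : ∑ b, G b = 1 := by
    have h2 := sum_Fs hf hcard hα ψ hψ ht (u := p ^ e)
    simp_rw [hG] at h2
    rw [← mul_sum] at h2
    exact mul_left_cancel₀ hn0 (by rw [h2, mul_one])
  -- norms
  have hnormψ : ∀ (ρ : 𝓞 K →+* ℂ) (x : ZMod p), ‖ρ (ψ x)‖ = 1 := by
    intro ρ x
    apply Complex.norm_eq_one_of_pow_eq_one (n := p * N) _ (NeZero.ne _)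
    rw [← map_pow, hψp x, map_one]
  have hconj : ∀ (ρ : 𝓞 K →+* ℂ) (x : ZMod p),
      (starRingEnd ℂ) (ρ (ψ x)) = ρ (ψ (-x)) := by
    intro ρ x
    have h2 : ρ (ψ x) * ρ (ψ (-x)) = 1 := by
      rw [← map_mul, ← AddChar.map_add_eq_mul, add_neg_cancel, AddChar.map_zero_eq_one, map_one]
    have h3 : ρ (ψ x) * (starRingEnd ℂ) (ρ (ψ x)) = 1 := by
      rw [Complex.mul_conj, Complex.normSq_eq_norm_sq, hnormψ]
      simp
    have h4 : ρ (ψ x) ≠ 0 := by
      intro h5; rw [h5, zero_mul] at h2; exact zero_ne_one h2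
    exact mul_left_cancel₀ h4 (h3.trans h2.symm)
  have hinj : Function.Injective (fun y : B => y ^ (p ^ e)) := by
    apply pow_injective_of_coprime
    rw [← hN]
    exact Nat.Coprime.pow_left e hcop
  have hpars : ∀ ρ : 𝓞 K →+* ℂ, ∑ b, ‖ρ (G b)‖ ^ 2 = 1 := by
    intro ρ
    have h2 := congrArg ρ (parseval_Fs hf hcard hα ψ hψ ht hinj)
    rw [map_sum] at h2
    have h3 : ∀ b, ρ (Fs f ψ α t (p ^ e) b *
        (1 + ∑ y, ψ (-(α (f (b * y ^ (p ^ e))) - t * α (f y))))) =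
        (((Fintype.card A : ℝ) ^ 2 * ‖ρ (G b)‖ ^ 2 : ℝ) : ℂ) := by
      intro b
      have h4 : ρ (1 + ∑ y, ψ (-(α (f (b * y ^ (p ^ e))) - t * α (f y)))) =
          (starRingEnd ℂ) (ρ (Fs f ψ α t (p ^ e) b)) := by
        unfold Fs
        rw [map_add, map_add, map_add, map_one, map_one, map_sum, map_sum, map_sum]
        congr 1
        exact sum_congr rfl fun y _ => (hconj ρ _).symm
      rw [map_mul, h4, Complex.mul_conj, Complex.normSq_eq_norm_sq, hG b, map_mul, norm_mul,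
        map_natCast, Complex.norm_natCast, mul_pow]
    simp_rw [h3] at h2
    rw [← Complex.ofReal_sum, ← mul_sum, map_pow, map_natCast] at h2
    have h5 : (Fintype.card A : ℝ) ^ 2 * ∑ b, ‖ρ (G b)‖ ^ 2 = (Fintype.card A : ℝ) ^ 2 := by
      exact_mod_cast h2
    have h6 : (Fintype.card A : ℝ) ^ 2 ≠ 0 := by
      have : (Fintype.card A : ℝ) ≠ 0 := by
        rw [hcard]; positivity
      exact pow_ne_zero _ this
    exact mul_left_cancel₀ h6 (by rw [h5, mul_one])
  have hprod : ∀ b c, b ≠ c → G b * G c = 0 := by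
    intro b c hbc
    by_contra hne
    obtain ⟨σ, hσ⟩ := exists_conjugate_one_le_norm hne
    let ρ : 𝓞 K →+* ℂ := σ.comp (algebraMap (𝓞 K) K)
    have h2 : 1 ≤ ‖ρ (G b * G c)‖ := hσ
    rw [map_mul, norm_mul] at h2
    have h3 := hpars ρ
    have h4 : ‖ρ (G b)‖ ^ 2 + ‖ρ (G c)‖ ^ 2 ≤ 1 := by
      rw [← h3, ← sum_pair (f := fun i => ‖ρ (G i)‖ ^ 2) hbc]
      apply sum_le_sum_of_subset_of_nonneg (subset_univ _)
      intro i _ _
      positivity
    nlinarith [sq_nonneg (‖ρ (G b)‖ - ‖ρ (G c)‖), norm_nonneg (ρ (G b)), norm_nonneg (ρ (G c))]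
  obtain ⟨c, hc⟩ : ∃ c, G c ≠ 0 := by
    by_contra h2
    push Not at h2
    rw [sum_eq_zero (fun b _ => h2 b)] at hsumG
    exact zero_ne_one hsumG
  have hGc : G c = 1 := by
    rw [← hsumG]
    symm
    apply sum_eq_single_of_mem c (mem_univ _)
    intro b _ hb
    exact (mul_eq_zero.1 (hprod b c hb)).resolve_right hc
  have hFc : Fs f ψ α t (p ^ e) c = (Fintype.card A : 𝓞 K) := by
    rw [hG, hGc, mul_one]
  refine ⟨c, fun y => ?_⟩
  obtain ⟨σ, -⟩ := exists_conjugate_one_le_norm hc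
  let ρ : 𝓞 K →+* ℂ := σ.comp (algebraMap (𝓞 K) K)
  have hρ : Function.Injective ρ :=
    σ.injective.comp (FaithfulSMul.algebraMap_injective (𝓞 K) K)
  let z : Option B → ℂ := fun o => o.elim 1
    (fun y => ρ (ψ (α (f (c * y ^ (p ^ e))) - t * α (f y))))
  have hz : ∀ o, ‖z o‖ = 1 := by
    intro o
    cases o with
    | none => simp [z]
    | some y => exact hnormψ ρ _
  have hzs : ∑ o, z o = (Fintype.card (Option B) : ℂ) := by
    rw [Fintype.sum_option, Fintype.card_option]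
    have h2 := congrArg ρ hFc
    unfold Fs at h2
    rw [map_add, map_one, map_sum, map_natCast, hcard] at h2
    exact h2
  have h2 : ρ (ψ (α (f (c * y ^ (p ^ e))) - t * α (f y))) = 1 := all_one_of_sum z hz hzs (some y)
  have h3 : ψ (α (f (c * y ^ (p ^ e))) - t * α (f y)) = 1 := by
    apply hρ
    rw [h2, map_one]
  exact sub_eq_zero.1 (hψ _ h3)

/-- **Multiplier theorem for a hyperplane.** -/
theorem multiplier (hf : DPD f) (hcard : Fintype.card A = Fintype.card B + 1) {k : ℕ}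
    (hk : Fintype.card A = p ^ k) {α : A →+ ZMod p} (hα : α ≠ 0) {t : ZMod p} (ht : t ≠ 0)
    (e : ℕ) : ∃ c : B, ∀ y : B, α (f (c * y ^ (p ^ e))) = t * α (f y) := by
  have hNpos : 0 < Fintype.card B := Fintype.card_pos
  have hppos : 0 < p := hp.out.pos
  have : NeZero (p * Fintype.card B) := ⟨(Nat.mul_pos hppos hNpos).ne'⟩
  have : NeZero (Fintype.card B) := ⟨hNpos.ne'⟩
  have : NeZero ((p * Fintype.card B : ℕ) : ℚ) := NeZero.charZero
  have : IsCyclotomicExtension {p * Fintype.card B} ℚ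
      (CyclotomicField (p * Fintype.card B) ℚ) :=
    CyclotomicField.isCyclotomicExtension _ _
  exact multiplier_aux hf hcard hk hα ht e (Fintype.card B) rfl
    (CyclotomicField (p * Fintype.card B) ℚ)

end Pool.Agent.Lib.Helper3.TypeF
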