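import Mathlib
import Pool.Agent.Lib.Helper3.TypeF.Mult2

/-! # Counting functionals with a given multiplier -/

set_option autoImplicit false

namespace Pool.Agent.Lib.Helper3.TypeF

open Finset

/-- Size of the kernel of a nonzero homomorphism to `ZMod p`. -/
theorem card_fibre {G : Type*} [AddCommGroup G] [Fintype G] {p : ℕ} [hp : Fact p.Prime]
    (E : G →+ ZMod p) (hE : E ≠ 0) (r : ZMod p) :
    p * (univ.filter (fun g => E g = r)).card = Fintype.card G := by
  classical
  have h1 : ∀ s : ZMod p, (univ.filter (fun g => E g = s)).card =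
      (univ.filter (fun g => E g = r)).card := by
    intro s
    obtain ⟨g₀, hg₀⟩ := exists_apply_eq hE (s - r)
    symm
    apply card_bij (fun g _ => g + g₀)
    · intro g hg
      rw [mem_filter] at hg ⊢
      refine ⟨mem_univ _, ?_⟩
      rw [map_add, hg.2, hg₀]; ring
    · intro g _ g' _ h
      exact add_right_cancel h
    · intro g hg
      rw [mem_filter] at hg
      refine ⟨g - g₀, ?_, by abel⟩
      rw [mem_filter]
      refine ⟨mem_univ _, ?_⟩
      rw [map_sub, hg.2, hg₀]; ring
  have h2 : Fintype.card G = ∑ s : ZMod p, (univ.filter (fun g => E g = s)).card := by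
    rw [← card_univ]
    exact card_eq_sum_card_fiberwise (fun x _ => mem_coe.2 (mem_univ (E x)))
  rw [h2]
  simp_rw [h1]
  rw [sum_const, card_univ, ZMod.card, smul_eq_mul]

section
variable {A B : Type*} [AddCommGroup A] [CommGroup B] [Fintype A] [Fintype B]
  {f : B → A} {p : ℕ} [hp : Fact p.Prime] [Module (ZMod p) A]

/-- Functionals on `A`. -/
abbrev V (p : ℕ) (A : Type*) [AddCommGroup A] [Module (ZMod p) A] : Type _ :=
  Module.Dual (ZMod p) A

omit [Fintype A] in
theorem ne_zero_hom {α : V p A} (h : α ≠ 0) : α.toAddMonoidHom ≠ 0 := by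
  intro h1
  apply h
  ext a
  exact DFunLike.congr_fun h1 a

theorem mult_unique (hf : DPD f) (hcard : Fintype.card A = Fintype.card B + 1) {α : V p A}
    (hα : α ≠ 0) {c c' : B} (h : ∀ y, α (f (c * y)) = α (f (c' * y))) : c = c' := by
  by_contra hne
  obtain ⟨a, ha⟩ := exists_apply_eq (ne_zero_hom hα) 1
  have ha' : α a = 1 := ha
  have ha0 : a ≠ 0 := by
    rintro rfl
    rw [map_zero] at ha'
    exact zero_ne_one ha'
  obtain ⟨y, hy⟩ := surj_of_inj hcard _ (hf.diff_inj hne) (hf.diff_ne_zero hne) a ha0
  have h1 := h y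
  rw [mul_comm c y, mul_comm c' y] at h1
  rw [← hy, map_sub, h1, sub_self] at ha'
  exact zero_ne_one ha'

/-- Multiplier theorem for functionals. -/
theorem mult (hf : DPD f) (hcard : Fintype.card A = Fintype.card B + 1) {k : ℕ}
    (hk : Fintype.card A = p ^ k) (α : V p A) {t : ZMod p} (ht : t ≠ 0)
    (e : ℕ) : ∃ c : B, ∀ y : B, α (f (c * y ^ (p ^ e))) = t * α (f y) := by
  by_cases hα : α = 0
  · subst hα
    exact ⟨1, fun y => by simp⟩
  · exact multiplier hf hcard hk (ne_zero_hom hα) ht e

/-- Functionals with multiplier `b` with respect to the `p ^ e`-power map. -/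
def Hs (p : ℕ) {A B : Type*} [AddCommGroup A] [CommGroup B] [Module (ZMod p) A] (f : B → A)
    (b : B) (e : ℕ) : AddSubgroup (V p A) where
  carrier := {α | ∀ y, α (f (b * y ^ (p ^ e))) = α (f y)}
  add_mem' := by
    intro x y hx hy z
    rw [LinearMap.add_apply, LinearMap.add_apply, hx, hy]
  zero_mem' := by intro z; simp
  neg_mem' := by
    intro x hx z
    rw [LinearMap.neg_apply, LinearMap.neg_apply, hx]

omit [Fintype A] [Fintype B] in
theorem mem_Hs {b : B} {e : ℕ} {α : V p A} :
    α ∈ Hs p f b e ↔ ∀ y, α (f (b * y ^ (p ^ e))) = α (f y) := Iff.rfl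

theorem card_V [Fintype (V p A)] : Fintype.card (V p A) = Fintype.card A := by
  have h1 := Module.card_eq_pow_finrank (K := ZMod p) (V := A)
  have h2 := Module.card_eq_pow_finrank (K := ZMod p) (V := V p A)
  rw [h1, h2, Subspace.dual_finrank_eq]

/-- Main count. -/
theorem card_Hs [Fintype (V p A)] [DecidableEq A] [DecidableEq B] (hf : DPD f)
    (hcard : Fintype.card A = Fintype.card B + 1) {k : ℕ} (hk : Fintype.card A = p ^ k)
    (b : B) (e : ℕ) :
    Nat.card (Hs p f b e) = (univ.filter (fun y : B => b * y ^ (p ^ e) = y)).card + 1 := by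
  classical
  obtain ⟨hk0, hcop⟩ := card_pow_facts hcard hk
  obtain ⟨k', rfl⟩ : ∃ k', k = k' + 1 := ⟨k - 1, by omega⟩
  set m := p ^ k' with hm
  have hqm : Fintype.card A = p * m := by rw [hk, pow_succ, mul_comm]
  have hmpos : 0 < m := pow_pos hp.out.pos _
  have hp2 := hp.out.two_le
  set u := p ^ e with hu
  have hinj : Function.Injective (fun y : B => y ^ u) :=
    pow_injective_of_coprime (Nat.Coprime.pow_left e hcop)
  have hbij : Function.Bijective (fun y : B => y ^ u) :=
    Finite.injective_iff_bijective.1 hinj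
  -- count over functionals
  have hc1 : ∀ α : V p A, (univ.filter (fun y : B => α (f (b * y ^ u)) = α (f y))).card =
      if α ∈ Hs p f b e then p * m - 1 else m - 1 := by
    intro α
    split_ifs with hα
    · rw [filter_true_of_mem (fun y _ => hα y), card_univ]
      omega
    · have hα0 : α ≠ 0 := by
        rintro rfl
        exact hα (zero_mem _)
      obtain ⟨c, hc⟩ := mult hf hcard hk α (one_ne_zero) e
      have hbc : b ≠ c := by
        rintro rfl
        apply hα
        intro y
        rw [hc, one_mul]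
      have h1 : (univ.filter (fun y : B => α (f (b * y ^ u)) = α (f y))).card =
          ∑ y : B, (if α (f (y * b) - f (y * c)) = 0 then 1 else 0) := by
        rw [card_filter, ← hbij.sum_comp
          (fun y : B => if α (f (y * b) - f (y * c)) = 0 then 1 else 0)]
        refine sum_congr rfl fun y _ => if_congr ?_ rfl rfl
        have h2 := hc y
        rw [one_mul] at h2
        rw [map_sub, sub_eq_zero, mul_comm _ b, mul_comm _ c, h2]
      rw [h1]
      have h3 : ∑ y : B, ((if α (f (y * b) - f (y * c)) = 0 then 1 else 0 : ℕ) : ℤ) =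
          (m : ℤ) - 1 := by
        rw [hf.sum_diff hcard hbc (fun a => ((if α a = 0 then 1 else 0 : ℕ) : ℤ)), map_zero,
          if_pos rfl, ← Nat.cast_sum, ← card_filter]
        have h4 := card_fibre α.toAddMonoidHom (ne_zero_hom hα0) 0
        rw [hqm] at h4
        have h5 : (univ.filter (fun a => α a = 0)).card = m :=
          Nat.eq_of_mul_eq_mul_left hp.out.pos h4
        rw [h5]; simp
      rw [← Nat.cast_sum] at h3
      omega
  -- count over elements
  have hc2 : ∀ y : B, (univ.filter (fun α : V p A => α (f (b * y ^ u)) = α (f y))).card =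
      if b * y ^ u = y then p * m else m := by
    intro y
    split_ifs with hy
    · rw [hy, filter_true_of_mem (fun _ _ => rfl), card_univ, card_V, hqm]
    · have hne : f (b * y ^ u) - f y ≠ 0 := by
        intro h
        exact hy (hf.inj (sub_eq_zero.1 h))
      let E : V p A →+ ZMod p :=
        { toFun := fun α => α (f (b * y ^ u) - f y)
          map_zero' := by simp
          map_add' := by intro x y; simp }
      have hE : E ≠ 0 := by
        intro h
        apply hne
        rw [← Module.forall_dual_apply_eq_zero_iff (ZMod p)]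
        intro φ
        exact DFunLike.congr_fun h φ
      have h4 := card_fibre E hE 0
      rw [card_V, hqm] at h4
      have h5 : (univ.filter (fun α : V p A => E α = 0)).card = m :=
        Nat.eq_of_mul_eq_mul_left hp.out.pos h4
      rw [← h5]
      congr 1
      ext α
      simp only [mem_filter, mem_univ, true_and]
      change _ ↔ α (f (b * y ^ u) - f y) = 0
      rw [map_sub, sub_eq_zero]
  -- double count
  have hdc : ∑ α : V p A, (univ.filter (fun y : B => α (f (b * y ^ u)) = α (f y))).card =
      ∑ y : B, (univ.filter (fun α : V p A => α (f (b * y ^ u)) = α (f y))).card := by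
    simp_rw [card_filter]
    exact sum_comm
  simp_rw [hc1, hc2] at hdc
  rw [sum_ite, sum_ite, sum_const, sum_const, sum_const, sum_const, smul_eq_mul, smul_eq_mul,
    smul_eq_mul, smul_eq_mul] at hdc
  have hH : (univ.filter (fun α => α ∈ Hs p f b e)).card = Nat.card (Hs p f b e) := by
    rw [Nat.card_eq_fintype_card, Fintype.card_subtype]
  have hH2 : (univ.filter (fun α => α ∈ Hs p f b e)).card +
      (univ.filter (fun α => ¬ α ∈ Hs p f b e)).card = p * m := by
    rw [card_filter_add_card_filter_not, card_univ, card_V, hqm]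
  have hY2 : (univ.filter (fun y : B => b * y ^ u = y)).card +
      (univ.filter (fun y : B => ¬ b * y ^ u = y)).card = p * m - 1 := by
    rw [card_filter_add_card_filter_not, card_univ]
    omega
  rw [hH] at hdc hH2
  obtain ⟨H, hHd⟩ : ∃ H, Nat.card (Hs p f b e) = H := ⟨_, rfl⟩
  obtain ⟨H', hHd'⟩ : ∃ H', (univ.filter (fun α => ¬ α ∈ Hs p f b e)).card = H' := ⟨_, rfl⟩
  obtain ⟨Y, hYd⟩ : ∃ Y, (univ.filter (fun y : B => b * y ^ u = y)).card = Y := ⟨_, rfl⟩
  obtain ⟨Y', hYd'⟩ : ∃ Y', (univ.filter (fun y : B => ¬ b * y ^ u = y)).card = Y' := ⟨_, rfl⟩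
  rw [hHd, hHd'] at hH2
  rw [hYd, hYd'] at hY2
  rw [hHd, hHd', hYd, hYd'] at hdc
  rw [hHd, hYd]
  have h1pm : 1 ≤ p * m := Nat.mul_pos hp.out.pos hmpos
  zify [h1pm, hmpos] at hdc hH2 hY2 ⊢
  have hH3 : (H' : ℤ) = p * m - H := by linarith
  have hY3 : (Y' : ℤ) = p * m - 1 - Y := by linarith
  rw [hH3, hY3] at hdc
  have h5 : ((H : ℤ) - (Y + 1)) * ((p - 1) * m) = 0 := by linear_combination hdc
  have h6 : ((p : ℤ) - 1) * m ≠ 0 := by
    apply mul_ne_zero
    · have : (2 : ℤ) ≤ p := by exact_mod_cast hp2
      omega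
    · exact_mod_cast hmpos.ne'
  rcases mul_eq_zero.1 h5 with h7 | h7
  · linarith
  · exact absurd h7 h6

/-- The number of fixed points of `y ↦ y ^ (p ^ e)` plus one is a power of `p`. -/
theorem card_fix [DecidableEq B] (hf : DPD f)
    (hcard : Fintype.card A = Fintype.card B + 1) {k : ℕ} (hk : Fintype.card A = p ^ k)
    (e : ℕ) : ∃ i, (univ.filter (fun y : B => y ^ (p ^ e) = y)).card + 1 = p ^ i := by
  classical
  have : Finite (V p A) := Module.finite_of_finite (ZMod p)
  have : Fintype (V p A) := Fintype.ofFinite _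
  have h1 := card_Hs (p := p) hf hcard hk 1 e
  have h2 : Nat.card (Hs p f 1 e) ∣ p ^ k := by
    rw [← hk, ← card_V (p := p), ← Nat.card_eq_fintype_card]
    exact AddSubgroup.card_addSubgroup_dvd_card _
  obtain ⟨i, _, hi⟩ := (Nat.dvd_prime_pow hp.out).1 h2
  refine ⟨i, ?_⟩
  rw [← hi, h1]
  congr 3
  ext y
  simp

/-- Every involution acts as `-1`. -/
theorem involution [DecidableEq B] (hf : DPD f)
    (hcard : Fintype.card A = Fintype.card B + 1) {k : ℕ} (hk : Fintype.card A = p ^ k)
    (hp2 : p ≠ 2) {d : B} (hd : d ^ 2 = 1) (hd1 : d ≠ 1) (y : B) : f (d * y) = - f y := by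
  classical
  obtain ⟨hk0, hcop⟩ := card_pow_facts hcard hk
  obtain ⟨k', rfl⟩ : ∃ k', k = k' + 1 := ⟨k - 1, by omega⟩
  have hdd : d * d = 1 := by rw [← pow_two]; exact hd
  have key : ∀ α : V p A, α (f (d * y)) = - α (f y) := by
    intro α
    by_cases hα : α = 0
    · subst hα; simp
    obtain ⟨h, hh⟩ := mult hf hcard hk α (neg_ne_zero.2 one_ne_zero) 0
    simp only [pow_zero, pow_one, neg_mul, one_mul] at hh
    by_cases hdh : d = h
    · rw [hdh, hh]
    exfalso
    -- the set `α (f (d y)) + α (f y) = 1`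
    have h1 : (univ.filter (fun y : B => α (f (d * y)) + α (f y) = 1)).card = p ^ k' := by
      have h2 : (univ.filter (fun y : B => α (f (d * y)) + α (f y) = 1)).card =
          ∑ y : B, (if α (f (y * d) - f (y * h)) = 1 then 1 else 0) := by
        rw [card_filter]
        refine sum_congr rfl fun y _ => if_congr ?_ rfl rfl
        rw [map_sub, mul_comm y d, mul_comm y h, hh, sub_neg_eq_add]
      rw [h2]
      have h3 : ∑ y : B, ((if α (f (y * d) - f (y * h)) = 1 then 1 else 0 : ℕ) : ℤ) =
          (p ^ k' : ℕ) := by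
        rw [hf.sum_diff hcard hdh (fun a => ((if α a = 1 then 1 else 0 : ℕ) : ℤ)), map_zero,
          if_neg zero_ne_one, ← Nat.cast_sum, ← card_filter]
        have h4 := card_fibre α.toAddMonoidHom (ne_zero_hom hα) 1
        rw [hk, pow_succ, mul_comm (p ^ k') p] at h4
        have h5 : (univ.filter (fun a => α a = 1)).card = p ^ k' :=
          Nat.eq_of_mul_eq_mul_left hp.out.pos h4
        rw [h5]; simp
      rw [← Nat.cast_sum] at h3
      exact_mod_cast h3
    have h2 : ((univ.filter (fun y : B => α (f (d * y)) + α (f y) = 1)).card : ZMod 2) = 0 := by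
      rw [card_eq_sum_ones, Nat.cast_sum]
      apply sum_involution (fun y _ => d * y)
      · intro y _
        have : (((1 : ℕ) : ZMod 2) + ((1 : ℕ) : ZMod 2)) = 0 := by decide
        exact this
      · intro y _ _ h3
        exact hd1 (mul_eq_right.1 h3)
      · intro y hy
        rw [mem_filter] at hy ⊢
        refine ⟨mem_univ _, ?_⟩
        rw [← mul_assoc, hdd, one_mul, add_comm]
        exact hy.2
      · intro y _
        rw [← mul_assoc, hdd, one_mul]
    rw [h1, ZMod.natCast_eq_zero_iff] at h2
    have h3 := Nat.Prime.dvd_of_dvd_pow Nat.prime_two h2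
    exact hp2 ((Nat.prime_dvd_prime_iff_eq Nat.prime_two hp.out).1 h3).symm
  have h1 : f (d * y) + f y = 0 := by
    rw [← Module.forall_dual_apply_eq_zero_iff (ZMod p)]
    intro α
    rw [map_add, key α, neg_add_cancel]
  exact eq_neg_of_add_eq_zero_left h1

theorem involution_unique [DecidableEq B] (hf : DPD f)
    (hcard : Fintype.card A = Fintype.card B + 1) {k : ℕ} (hk : Fintype.card A = p ^ k)
    (hp2 : p ≠ 2) {d d' : B} (hd : d ^ 2 = 1) (hd1 : d ≠ 1) (hd' : d' ^ 2 = 1) (hd1' : d' ≠ 1) :
    d = d' := by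
  have h1 := involution (p := p) hf hcard hk hp2 hd hd1 1
  have h2 := involution (p := p) hf hcard hk hp2 hd' hd1' 1
  rw [← h2] at h1
  exact mul_right_cancel (hf.inj h1)

end

end Pool.Agent.Lib.Helper3.TypeF
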