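import Mathlib
import Pool.Agent.Lib.Helper3.TypeF.Dual

/-! # Fourier coefficients with values in a finite field -/

set_option autoImplicit false

namespace Pool.Agent.Lib.Helper3.TypeF

open Finset

section
variable {A B : Type*} [AddCommGroup A] [CommGroup B] [Fintype A] [Fintype B]
  {f : B → A} {p : ℕ} [hp : Fact p.Prime] [Module (ZMod p) A]
  {F : Type*} [Field F] [Fintype F] [Algebra (ZMod p) F]

/-- The Fourier coefficient at `γ`. -/
noncomputable def w (f : B → A) (γ : B →* Fˣ) : V p A →ₗ[ZMod p] F where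
  toFun α := -∑ b, algebraMap (ZMod p) F (α (f b)) * ((γ b⁻¹ : Fˣ) : F)
  map_add' := by
    intro x y
    rw [← neg_add, ← sum_add_distrib]
    congr 1
    refine sum_congr rfl fun b _ => ?_
    rw [LinearMap.add_apply, map_add]; ring
  map_smul' := by
    intro c x
    rw [RingHom.id_apply, smul_neg, smul_sum]
    congr 1
    refine sum_congr rfl fun b _ => ?_
    rw [LinearMap.smul_apply, smul_eq_mul, map_mul, Algebra.smul_def]; ring

omit [Fintype A] [Fintype F] in
theorem w_apply (γ : B →* Fˣ) (α : V p A) :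
    w f γ α = -∑ b, algebraMap (ZMod p) F (α (f b)) * ((γ b⁻¹ : Fˣ) : F) := rfl

omit [Fintype A] [Fintype F] in
theorem w_pow [CharP F p] (γ : B →* Fˣ) {α : V p A} {c : B}
    (hc : ∀ y, α (f (c * y ^ p)) = α (f y)) (hbij : Function.Bijective (fun y : B => y ^ p)) :
    w f γ α ^ p = (γ c : F) * w f γ α := by
  have h1 : Function.Bijective (fun y : B => c * y ^ p) :=
    (Group.mulLeft_bijective c).comp hbij
  rw [w_apply]
  have hneg : (-∑ b, algebraMap (ZMod p) F (α (f b)) * ((γ b⁻¹ : Fˣ) : F)) ^ p =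
      -(∑ b, algebraMap (ZMod p) F (α (f b)) * ((γ b⁻¹ : Fˣ) : F)) ^ p := by
    rw [neg_pow, neg_one_pow_char F p, neg_one_mul]
  rw [hneg, sum_pow_char, mul_neg]
  congr 1
  rw [← h1.sum_comp (fun b => algebraMap (ZMod p) F (α (f b)) * ((γ b⁻¹ : Fˣ) : F)), mul_sum]
  refine sum_congr rfl fun b _ => ?_
  rw [hc, mul_pow, ← map_pow, ZMod.pow_card, mul_inv, map_mul, Units.val_mul]
  have h2 : (γ c : F) * ((γ c⁻¹ : Fˣ) : F) = 1 := by
    rw [← Units.val_mul, ← map_mul, mul_inv_cancel, map_one, Units.val_one]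
  have h3 : ((γ b⁻¹ : Fˣ) : F) ^ p = ((γ (b ^ p)⁻¹ : Fˣ) : F) := by
    rw [← Units.val_pow_eq_pow_val, ← map_pow, inv_pow]
  rw [h3]
  linear_combination (-(algebraMap (ZMod p) F (α (f b)) * ((γ (b ^ p)⁻¹ : Fˣ) : F))) * h2

omit [Fintype A] [Fintype F] in
theorem w_mul (γ : B →* Fˣ) {α : V p A} {h : B} {t : ZMod p}
    (hh : ∀ y, α (f (h * y)) = t * α (f y)) :
    (γ h : F) * w f γ α = algebraMap (ZMod p) F t * w f γ α := by
  rw [w_apply, mul_neg, mul_neg]
  congr 1
  conv_lhs => rw [← Equiv.sum_comp (Equiv.mulLeft h)]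
  rw [mul_sum, mul_sum]
  refine sum_congr rfl fun b _ => ?_
  simp only [Equiv.coe_mulLeft]
  rw [hh, map_mul, mul_inv, map_mul, Units.val_mul]
  have h2 : (γ h : F) * ((γ h⁻¹ : Fˣ) : F) = 1 := by
    rw [← Units.val_mul, ← map_mul, mul_inv_cancel, map_one, Units.val_one]
  linear_combination (algebraMap (ZMod p) F t * algebraMap (ZMod p) F (α (f b)) *
    ((γ b⁻¹ : Fˣ) : F)) * h2

theorem enough_roots (hF : Fintype.card F = Fintype.card B + 1) :
    HasEnoughRootsOfUnity F (Monoid.exponent B) := by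
  classical
  have h0 : Fintype.card Fˣ = Fintype.card B := by
    rw [Fintype.card_units, hF, Nat.add_sub_cancel]
  have : NeZero (Fintype.card Fˣ) := ⟨Fintype.card_ne_zero⟩
  obtain ⟨x₀, hx₀⟩ := IsCyclic.exists_ofOrder_eq_natCard (α := Fˣ)
  rw [Nat.card_eq_fintype_card] at hx₀
  have h1 : HasEnoughRootsOfUnity F (Fintype.card Fˣ) := by
    refine ⟨⟨(x₀ : F), ?_⟩, rootsOfUnity.isCyclic _ _⟩
    rw [IsPrimitiveRoot.coe_units_iff, ← hx₀]
    exact IsPrimitiveRoot.orderOf x₀
  apply HasEnoughRootsOfUnity.of_dvd F (n := Fintype.card Fˣ)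
  rw [h0]
  exact Group.exponent_dvd_card

theorem exists_char (hf : DPD f) (hcard : Fintype.card A = Fintype.card B + 1)
    (hF : Fintype.card F = Fintype.card B + 1)
    {α : V p A} (hα : α ≠ 0) {d : B} (hd : d ≠ 1) :
    ∃ γ : B →* Fˣ, w f γ α ≠ 0 ∧ γ d ≠ 1 := by
  classical
  have := enough_roots (B := B) (F := F) hF
  have : Fintype (B →* Fˣ) := Fintype.ofFinite _
  by_contra hcon
  push Not at hcon
  apply hd
  apply mult_unique hf hcard hα
  intro y
  have hneg : ((Fintype.card B : ℕ) : F) = -1 := by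
    have h5 : ((Fintype.card F : ℕ) : F) = 0 := Nat.cast_card_eq_zero F
    rw [hF] at h5
    push_cast at h5
    exact eq_neg_of_add_eq_zero_left h5
  have h1 : ∀ b, algebraMap (ZMod p) F (α (f b)) = ∑ γ : B →* Fˣ, (γ b : F) * w f γ α := by
    intro b
    have h2 := fourier_inversion (R := F) (fun b => algebraMap (ZMod p) F (α (f b))) b
    rw [hneg] at h2
    have h3 : ∑ γ : B →* Fˣ, (γ b : F) * w f γ α = -∑ γ : B →* Fˣ, (γ b : F) *
        ∑ c, ((γ c⁻¹ : Fˣ) : F) * algebraMap (ZMod p) F (α (f c)) := by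
      rw [← sum_neg_distrib]
      refine sum_congr rfl fun γ _ => ?_
      rw [w_apply, mul_neg]
      congr 2
      refine sum_congr rfl fun c _ => ?_
      ring
    rw [h3, h2]; ring
  have h2 : algebraMap (ZMod p) F (α (f (d * y))) = algebraMap (ZMod p) F (α (f (1 * y))) := by
    rw [h1, h1]
    refine sum_congr rfl fun γ _ => ?_
    by_cases hw : w f γ α = 0
    · rw [hw, mul_zero, mul_zero]
    · rw [map_mul, hcon γ hw, one_mul, one_mul]
  exact (algebraMap (ZMod p) F).injective h2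

end

end Pool.Agent.Lib.Helper3.TypeF
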