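import Mathlib

/-! # A Hua type functional equation on finite fields -/

set_option autoImplicit false

namespace Pool.Agent.Lib.Helper3.TypeF

open Finset

section Hua
variable {F : Type*} [Field F] [Finite F] {p : ℕ} [hp : Fact p.Prime] [CharP F p]

include hp in
omit [Finite F] in
/-- Additive functions `σ, κ` with `κ c = c ^ (p+1) σ (1/c)`. -/
theorem hua_core (σ : F →+ F) (κ : F →+ F) (h : ∀ c, c ≠ 0 → κ c = c ^ (p + 1) * σ c⁻¹)
    (z₀ : F) (hz₀ : z₀ ^ p ≠ z₀) : ∃ A C : F, ∀ z, σ z = A * z ^ p + C * z := by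
  -- the Hua identity
  have hneg : (-1 : F) ^ (p + 1) = 1 := by
    have h1 : (-1 : F) ^ p = -1 := neg_one_pow_char F p
    rw [pow_succ, h1]; ring
  have h1 : ∀ z : F, σ (z ^ 2) = (z ^ p + z) * σ z - z ^ (p + 1) * σ 1 := by
    intro z
    by_cases hz0 : z = 0
    · subst hz0
      simp [hp.out.ne_zero]
    by_cases hz1 : z + 1 = 0
    · have hz : z = -1 := eq_neg_of_add_eq_zero_left hz1
      subst hz
      have h2 : (-1 : F) ^ p = -1 := by
        have := hneg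
        rw [pow_succ] at this
        linear_combination -this
      rw [hneg, h2, map_neg]
      simp only [even_two, Even.neg_pow, one_pow]
      ring
    have h2 := h z⁻¹ (inv_ne_zero hz0)
    have h3 := h (z + 1)⁻¹ (inv_ne_zero hz1)
    have h4 := h (z * (z + 1))⁻¹ (inv_ne_zero (mul_ne_zero hz0 hz1))
    have h5 : z⁻¹ - (z + 1)⁻¹ = (z * (z + 1))⁻¹ := by
      field_simp
      ring
    rw [← h5, map_sub, h2, h3, h5] at h4
    simp only [inv_inv, inv_pow] at h4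
    have h6 : (z + 1) ^ (p + 1) * σ z - z ^ (p + 1) * σ (z + 1) = σ (z * (z + 1)) := by
      have h7 : z ^ (p + 1) ≠ 0 := pow_ne_zero _ hz0
      have h8 : (z + 1) ^ (p + 1) ≠ 0 := pow_ne_zero _ hz1
      rw [mul_pow] at h4
      field_simp at h4
      linear_combination h4
    have h7 : (z + 1) ^ (p + 1) = z ^ (p + 1) + z ^ p + z + 1 := by
      rw [pow_succ, add_pow_char]
      ring
    have h8 : z * (z + 1) = z ^ 2 + z := by ring
    rw [h7, h8, map_add, map_add] at h6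
    linear_combination -h6
  -- subtract the linear part
  have h2 : ∀ z : F, σ (z ^ 2) - σ 1 * z ^ 2 = (z ^ p + z) * (σ z - σ 1 * z) := by
    intro z
    rw [h1 z]; ring
  obtain ⟨s, hs⟩ : ∃ s : F → F, ∀ z, s z = σ z - σ 1 * z := ⟨_, fun _ => rfl⟩
  have hsadd : ∀ x y, s (x + y) = s x + s y := by
    intro x y
    rw [hs, hs, hs, map_add]; ring
  have h3 : ∀ z y : F, 2 * s (z * y) = (z ^ p + z) * s y + (y ^ p + y) * s z := by
    intro z y
    have h4 := h2 (z + y)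
    have h45 : (z + y) ^ p = z ^ p + y ^ p := add_pow_char z y p
    rw [← hs, ← hs, h45] at h4
    have h5 : (z + y) ^ 2 = z ^ 2 + y ^ 2 + z * y + z * y := by ring
    rw [h5, hsadd, hsadd, hsadd, hsadd] at h4
    have h6 := h2 z
    have h7 := h2 y
    rw [← hs, ← hs] at h6 h7
    linear_combination h4 - h6 - h7
  have h4 : ∀ x y z : F, s x * (z ^ p - z) * (y ^ p - y) = s z * (x ^ p - x) * (y ^ p - y) := by
    intro x y z
    have h5 := h3 (z * y) x
    have h6 := h3 z (y * x)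
    have h7 := h3 z y
    have h8 := h3 y x
    rw [mul_pow] at h5 h6
    have h9 : z * (y * x) = z * y * x := by ring
    rw [h9] at h6
    linear_combination (-2) * h5 + 2 * h6 + (x ^ p + x) * h7 * (-1) + (z ^ p + z) * h8
  refine ⟨s z₀ / (z₀ ^ p - z₀), σ 1 - s z₀ / (z₀ ^ p - z₀), fun z => ?_⟩
  have h5 := h4 z z₀ z₀
  have h6 : z₀ ^ p - z₀ ≠ 0 := sub_ne_zero.2 hz₀
  have h7 : s z * (z₀ ^ p - z₀) = s z₀ * (z ^ p - z) := mul_right_cancel₀ h6 h5
  have h8 : s z = s z₀ / (z₀ ^ p - z₀) * (z ^ p - z) := by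
    field_simp
    linear_combination h7
  rw [hs] at h8
  linear_combination h8

/-- The functional equation `T(x^p ρ(x^(p-1) b)) = T(x ρ(b))`. -/
theorem func_eq {Z : Type*} [AddCommGroup Z] (T : F →+ Z)
    (hT : ∀ d, (∀ c, T (c * d) = 0) → d = 0) (hTp : ∀ x, T (x ^ p) = T x)
    (ρ : F → F) (hρ : ∀ x b, x ≠ 0 → b ≠ 0 → T (x ^ p * ρ (x ^ (p - 1) * b)) = T (x * ρ b))
    (z₀ : F) (hz₀ : z₀ ^ p ≠ z₀) (b₀ : F) (hb₀ : b₀ ≠ 0) :
    ∃ A C : F, A ^ p = A ∧ ∀ z, z ≠ 0 → z ^ p * ρ (z ^ (p - 1) * b₀) = A * z ^ p + C * z := by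
  have hp0 : p ≠ 0 := hp.out.ne_zero
  have hsurj : ∀ c : F, ∃ d : F, d ^ p = c := by
    intro c
    obtain ⟨d, hd⟩ := surjective_frobenius F p c
    exact ⟨d, hd⟩
  obtain ⟨σ, hσ⟩ : ∃ σ : F → F, ∀ z, σ z = z ^ p * ρ (z ^ (p - 1) * b₀) := ⟨_, fun _ => rfl⟩
  obtain ⟨κ, hκ⟩ : ∃ κ : F → F, ∀ c, κ c = c ^ (p + 1) * σ c⁻¹ := ⟨_, fun _ => rfl⟩
  have hσ0 : σ 0 = 0 := by rw [hσ, zero_pow hp0, zero_mul]
  have hκ0 : κ 0 = 0 := by rw [hκ, zero_pow (Nat.succ_ne_zero p), zero_mul]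
  have star : ∀ y c, T (c ^ p * σ y) = T (y * κ c) := by
    intro y c
    by_cases hc : c = 0
    · rw [hc, hκ0, zero_pow hp0, zero_mul, mul_zero]
    by_cases hy : y = 0
    · rw [hy, hσ0, mul_zero, zero_mul]
    have hci : c⁻¹ ≠ 0 := inv_ne_zero hc
    have h1 := hρ (y * c) (c⁻¹ ^ (p - 1) * b₀) (mul_ne_zero hy hc)
      (mul_ne_zero (pow_ne_zero _ hci) hb₀)
    have h2 : (y * c) ^ (p - 1) * (c⁻¹ ^ (p - 1) * b₀) = y ^ (p - 1) * b₀ := by
      rw [← mul_assoc, ← mul_pow, mul_assoc y c, mul_inv_cancel₀ hc, mul_one]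
    rw [h2] at h1
    have h3 : (y * c) ^ p * ρ (y ^ (p - 1) * b₀) = c ^ p * σ y := by
      rw [hσ, mul_pow]; ring
    have h4 : y * c * ρ (c⁻¹ ^ (p - 1) * b₀) = y * κ c := by
      rw [hκ, hσ, pow_succ]
      have h5 : c ^ p * c⁻¹ ^ p = 1 := by
        rw [← mul_pow, mul_inv_cancel₀ hc, one_pow]
      linear_combination (-(y * c * ρ (c⁻¹ ^ (p - 1) * b₀))) * h5
    rw [h3, h4] at h1
    exact h1
  have hσadd : ∀ x y, σ (x + y) = σ x + σ y := by
    intro x y
    have h1 : σ (x + y) - σ x - σ y = 0 := by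
      apply hT
      intro c
      obtain ⟨d, rfl⟩ := hsurj c
      rw [mul_sub, mul_sub, map_sub, map_sub, star, star, star, add_mul, map_add]
      abel
    linear_combination h1
  have hκadd : ∀ x y, κ (x + y) = κ x + κ y := by
    intro x y
    have h1 : κ (x + y) - κ x - κ y = 0 := by
      apply hT
      intro c
      rw [mul_sub, mul_sub, map_sub, map_sub, ← star, ← star, ← star, add_pow_char x y p, add_mul,
        map_add]
      abel
    linear_combination h1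
  obtain ⟨A, C, hAC⟩ := hua_core (p := p) (⟨⟨σ, hσ0⟩, hσadd⟩ : F →+ F) (⟨⟨κ, hκ0⟩, hκadd⟩ : F →+ F)
    (fun c _ => hκ c) z₀ hz₀
  have hAC' : ∀ z, σ z = A * z ^ p + C * z := hAC
  refine ⟨A, C, ?_, fun z _ => ?_⟩
  · have h1 : A - A ^ p = 0 := by
      apply hT
      intro c
      obtain ⟨y, rfl⟩ := hsurj c
      have h2 := star y 1
      rw [hκ, inv_one, hAC', hAC'] at h2
      have h3 : (1 : F) ^ p * (A * y ^ p + C * y) = y ^ p * A + y * C := by
        rw [one_pow]; ring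
      have h4 : y * ((1 : F) ^ (p + 1) * (A * 1 ^ p + C * 1)) = y * A + y * C := by
        rw [one_pow, one_pow]; ring
      rw [h3, h4, map_add, map_add] at h2
      have h5 : T (y ^ p * A) = T (y * A) := add_right_cancel h2
      rw [mul_sub, map_sub, h5, ← mul_pow, hTp, sub_self]
    exact (sub_eq_zero.1 h1).symm
  · rw [← hσ, hAC']

end Hua

end Pool.Agent.Lib.Helper3.TypeF
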