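import Mathlib
import Pool.Agent.Lib.Helper3.TypeF.Basic
import Pool.Agent.Lib.Helper3.TypeF.Hua

/-! # Solution of the functional equation over a finite field -/

set_option autoImplicit false

namespace Pool.Agent.Lib.Helper3.TypeF

open Finset

section
variable {F : Type*} [Field F] [Fintype F] [DecidableEq F] {p k : ℕ} [hp : Fact p.Prime]

theorem card_units_facts (hk : 2 ≤ k) (hq : Fintype.card F = p ^ k) :
    (p - 1) * (p + 1) ≤ Fintype.card Fˣ ∧ p - 1 < Fintype.card Fˣ ∧ 1 ≤ p - 1 := by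
  classical
  have h2 := hp.out.two_le
  have h1 : Fintype.card Fˣ = p ^ k - 1 := by rw [Fintype.card_units, hq]
  have h3 : p ^ 2 ≤ p ^ k := Nat.pow_le_pow_right (by omega) hk
  have h4 : (p - 1) * (p + 1) = p ^ 2 - 1 := by
    obtain ⟨m, rfl⟩ : ∃ m, p = m + 1 := ⟨p - 1, by omega⟩
    simp only [Nat.add_sub_cancel]
    have : (m + 1) ^ 2 = m * (m + 1 + 1) + 1 := by ring
    rw [this, Nat.add_sub_cancel]
  have h5 : p - 1 < (p - 1) * (p + 1) := by
    have : 1 ≤ p - 1 := by omega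
    nlinarith
  omega

theorem exists_unit_pow_ne (hk : 2 ≤ k) (hq : Fintype.card F = p ^ k) :
    ∃ z : Fˣ, z ^ (p - 1) ≠ 1 := by
  obtain ⟨_, h1, h2⟩ := card_units_facts (F := F) hk hq
  apply exists_pow_ne_one_of_isCyclic (by omega)
  rw [Nat.card_eq_fintype_card]
  exact h1

variable [CharP F p]

theorem exists_form (hk : 2 ≤ k) (hq : Fintype.card F = p ^ k) (φ : Fˣ → F)
    {Z : Type*} [AddCommGroup Z] (T : F →+ Z)
    (hT : ∀ d, (∀ c, T (c * d) = 0) → d = 0) (hTp : ∀ x, T (x ^ p) = T x)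
    (h2 : ∀ w b : Fˣ, T (w * φ (w ^ (p - 1) * b ^ p)) = T (w * φ b)) :
    ∃ a r : Fˣ → F, (∀ b, a b ^ p = a b) ∧
      ∀ b z : Fˣ, φ (z ^ (p - 1) * b) = a b * ((z ^ (p - 1) * b : Fˣ) : F) + r b := by
  classical
  obtain ⟨z₀, hz₀⟩ := exists_unit_pow_ne hk hq
  have hp1 : 1 ≤ p := hp.out.one_le
  have hpp : p - 1 + 1 = p := Nat.sub_add_cancel hp1
  have hz₀' : (z₀ : F) ^ p ≠ z₀ := by
    intro h
    apply hz₀
    have h3 : z₀ ^ p = z₀ := Units.ext (by rw [Units.val_pow_eq_pow_val]; exact h)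
    rw [← hpp, pow_succ] at h3
    exact mul_eq_right.1 h3
  obtain ⟨ρ, hρ⟩ : ∃ ρ : F → F, ∀ x : Fˣ, ρ x = φ x * (x⁻¹ : Fˣ) := by
    refine ⟨fun x => if h : x = 0 then 0 else φ (Units.mk0 x h) * ((Units.mk0 x h)⁻¹ : Fˣ), ?_⟩
    intro x
    simp
  have hfe : ∀ x b : F, x ≠ 0 → b ≠ 0 → T (x ^ p * ρ (x ^ (p - 1) * b)) = T (x * ρ b) := by
    intro x b hx hb
    lift x to Fˣ using IsUnit.mk0 x hx
    lift b to Fˣ using IsUnit.mk0 b hb
    have h3 := h2 (x * b⁻¹) b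
    have h4 : (x * b⁻¹) ^ (p - 1) * b ^ p = x ^ (p - 1) * b := by
      rw [mul_pow, inv_pow]
      nth_rewrite 3 [← hpp]
      rw [pow_succ]
      rw [mul_assoc, inv_mul_cancel_left]
    rw [h4] at h3
    have h5 : ((x : F) ^ p * ρ ((x : F) ^ (p - 1) * b)) =
        ((x * b⁻¹ : Fˣ) : F) * φ (x ^ (p - 1) * b) := by
      have h6 : ((x : F) ^ (p - 1) * b) = ((x ^ (p - 1) * b : Fˣ) : F) := by push_cast; rfl
      rw [h6, hρ]
      have h7 : (x : F) ^ p * (((x ^ (p - 1) * b)⁻¹ : Fˣ) : F) = ((x * b⁻¹ : Fˣ) : F) := by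
        rw [← Units.val_pow_eq_pow_val, ← Units.val_mul]
        congr 1
        nth_rewrite 1 [← hpp]
        rw [pow_succ, mul_inv]
        rw [mul_comm (x ^ (p - 1)) x, mul_assoc, mul_inv_cancel_left]
      rw [← h7]; ring
    have h6 : (x : F) * ρ b = ((x * b⁻¹ : Fˣ) : F) * φ b := by
      rw [hρ, Units.val_mul]; ring
    rw [h5, h6]
    exact h3
  have key : ∀ b : Fˣ, ∃ A R : F, A ^ p = A ∧
      ∀ z : Fˣ, φ (z ^ (p - 1) * b) = A * ((z ^ (p - 1) * b : Fˣ) : F) + R := by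
    intro b
    obtain ⟨A, C, hA, hAC⟩ := func_eq T hT hTp ρ hfe z₀ hz₀' b b.ne_zero
    refine ⟨A, C * b, hA, fun z => ?_⟩
    have h3 := hAC z z.ne_zero
    have h6 : ((z : F) ^ (p - 1) * b) = ((z ^ (p - 1) * b : Fˣ) : F) := by push_cast; rfl
    rw [h6, hρ] at h3
    have hzp : (z : F) ^ p = z ^ (p - 1) * z := by
      rw [← pow_succ, hpp]
    have h7 : (((z ^ (p - 1) * b)⁻¹ : Fˣ) : F) = ((z : F) ^ (p - 1) * b)⁻¹ := by push_cast; rfl
    rw [h7, hzp] at h3
    have hz : (z : F) ≠ 0 := z.ne_zero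
    have hb : (b : F) ≠ 0 := b.ne_zero
    have hzz : (z : F) ^ (p - 1) ≠ 0 := pow_ne_zero _ hz
    rw [← h6]
    field_simp at h3
    linear_combination h3
  choose a r ha hr using key
  exact ⟨a, r, ha, fun b z => hr b z⟩

omit [CharP F p] in
theorem form_unique (hk : 2 ≤ k) (hq : Fintype.card F = p ^ k) (b : Fˣ) {A R A' R' : F}
    (h : ∀ z : Fˣ, A * ((z ^ (p - 1) * b : Fˣ) : F) + R = A' * ((z ^ (p - 1) * b : Fˣ) : F) + R') :
    A = A' ∧ R = R' := by
  obtain ⟨z₁, hz₁⟩ := exists_unit_pow_ne (F := F) hk hq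
  have h1 := h 1
  have h2 := h z₁
  rw [one_pow, one_mul] at h1
  rw [Units.val_mul] at h2
  have h3 : (A - A') * ((((z₁ ^ (p - 1) : Fˣ) : F) - 1) * b) = 0 := by
    linear_combination h2 - h1
  have h4 : ((z₁ ^ (p - 1) : Fˣ) : F) - 1 ≠ 0 := by
    intro h5
    apply hz₁
    exact Units.ext (by rw [Units.val_one]; exact sub_eq_zero.1 h5)
  have h5 : A = A' := by
    rcases mul_eq_zero.1 h3 with h6 | h6
    · exact sub_eq_zero.1 h6
    · exact absurd h6 (mul_ne_zero h4 b.ne_zero)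
  subst h5
  exact ⟨rfl, add_left_cancel h1⟩

omit [CharP F p] in
theorem form_inv (hk : 2 ≤ k) (hq : Fintype.card F = p ^ k) (φ : Fˣ → F)
    (h1 : ∀ t b : Fˣ, t ^ (p - 1) = 1 → φ (t * b) = t * φ b) (a r : Fˣ → F)
    (har : ∀ b z : Fˣ, φ (z ^ (p - 1) * b) = a b * ((z ^ (p - 1) * b : Fˣ) : F) + r b) :
    (∀ b z : Fˣ, a (z ^ (p - 1) * b) = a b) ∧ (∀ b z : Fˣ, r (z ^ (p - 1) * b) = r b) ∧
    (∀ t b : Fˣ, t ^ (p - 1) = 1 → a (t * b) = a b) ∧
    (∀ t b : Fˣ, t ^ (p - 1) = 1 → r (t * b) = t * r b) := by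
  have hA : ∀ b z : Fˣ, a (z ^ (p - 1) * b) = a b ∧ r (z ^ (p - 1) * b) = r b := by
    intro b y
    apply form_unique hk hq (y ^ (p - 1) * b)
    intro z
    rw [← har]
    have h3 : z ^ (p - 1) * (y ^ (p - 1) * b) = (z * y) ^ (p - 1) * b := by
      rw [mul_pow, mul_assoc]
    rw [h3, har]
  have hB : ∀ t b : Fˣ, t ^ (p - 1) = 1 → a (t * b) = a b ∧ r (t * b) = t * r b := by
    intro t b ht
    apply form_unique hk hq (t * b)
    intro z
    rw [← har]
    have h3 : z ^ (p - 1) * (t * b) = t * (z ^ (p - 1) * b) := by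
      rw [← mul_assoc, mul_comm (z ^ (p - 1)) t, mul_assoc]
    rw [h3, h1 t _ ht, har, Units.val_mul t]
    ring
  exact ⟨fun b z => (hA b z).1, fun b z => (hA b z).2, fun t b ht => (hB t b ht).1,
    fun t b ht => (hB t b ht).2⟩

omit [CharP F p] in
theorem r_zero (hk : 2 ≤ k) (hq : Fintype.card F = p ^ k) (φ : Fˣ → F) (hφ : DPD φ)
    (h1 : ∀ t b : Fˣ, t ^ (p - 1) = 1 → φ (t * b) = t * φ b) (a r : Fˣ → F)
    (har : ∀ b z : Fˣ, φ (z ^ (p - 1) * b) = a b * ((z ^ (p - 1) * b : Fˣ) : F) + r b) :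
    ∀ b, r b = 0 := by
  obtain ⟨hq1, hq2, hp1⟩ := card_units_facts (F := F) hk hq
  obtain ⟨_, hrU, _, hrt⟩ := form_inv hk hq φ h1 a r har
  have hcard : Fintype.card F = Fintype.card Fˣ + 1 := by
    rw [Fintype.card_units, Nat.sub_add_cancel Fintype.card_pos]
  by_contra hne
  push Not at hne
  obtain ⟨b₀, hb₀⟩ := hne
  -- trivial intersection
  have htriv : ∀ t z : Fˣ, t ^ (p - 1) = 1 → t = z ^ (p - 1) → t = 1 := by
    intro t z ht hz
    have h3 := hrt t b₀ ht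
    rw [hz, hrU] at h3
    have h4 : ((z ^ (p - 1) : Fˣ) : F) = 1 := by
      have h5 : (((z ^ (p - 1) : Fˣ) : F) - 1) * r b₀ = 0 := by linear_combination -h3
      rcases mul_eq_zero.1 h5 with h6 | h6
      · exact sub_eq_zero.1 h6
      · exact absurd h6 hb₀
    rw [hz]
    exact Units.ext h4
  -- every element is `t * v`
  have hprod : ∀ b : Fˣ, ∃ t z : Fˣ, t ^ (p - 1) = 1 ∧ b = t * z ^ (p - 1) := by
    intro b
    let U : Subgroup Fˣ := (powMonoidHom (p - 1) : Fˣ →* Fˣ).range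
    let g : U → U := fun v => ⟨(v : Fˣ) ^ (p - 1), ⟨v, rfl⟩⟩
    have hg : Function.Injective g := by
      rintro ⟨v, y, hy⟩ ⟨v', y', hy'⟩ hvv
      have h3 : v ^ (p - 1) = v' ^ (p - 1) := congrArg Subtype.val hvv
      have hy1 : y ^ (p - 1) = v := hy
      have hy2 : y' ^ (p - 1) = v' := hy'
      have h4 := htriv (v / v') (y / y') (by rw [div_pow, h3, div_self'])
        (by rw [div_pow, hy1, hy2])
      exact Subtype.ext (div_eq_one.1 h4)
    have hs : Function.Surjective g := Finite.surjective_of_injective hg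
    obtain ⟨⟨v, y, hy⟩, hv⟩ := hs ⟨b ^ (p - 1), ⟨b, rfl⟩⟩
    have h3 : v ^ (p - 1) = b ^ (p - 1) := congrArg Subtype.val hv
    have hy1 : y ^ (p - 1) = v := hy
    refine ⟨b / v, y, by rw [div_pow, h3, div_self'], ?_⟩
    rw [hy1, div_mul_cancel]
  have hr1 : ∀ b, r b ^ (p - 1) = r 1 ^ (p - 1) := by
    intro b
    obtain ⟨t, z, ht, rfl⟩ := hprod b
    rw [hrt t _ ht, mul_pow, ← Units.val_pow_eq_pow_val, ht, Units.val_one, one_mul]
    have h3 := hrU 1 z
    rw [mul_one] at h3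
    rw [h3]
  -- power sums
  have hS : ∑ b, φ b ^ (p - 1) = 0 := by
    rw [hφ.sum_f hcard (fun x => x ^ (p - 1)), zero_pow (by omega), sub_zero]
    apply FiniteField.sum_pow_lt_card_sub_one
    rw [Fintype.card_units] at hq2
    exact hq2
  have hS2 : ∀ b, ∑ z : Fˣ, φ (z ^ (p - 1) * b) ^ (p - 1) = - r b ^ (p - 1) := by
    intro b
    have h3 : ∀ z : Fˣ, φ (z ^ (p - 1) * b) ^ (p - 1) =
        ∑ l ∈ range (p - 1 + 1), ((a b * b) ^ l * r b ^ (p - 1 - l) * ((p - 1).choose l)) *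
          (z : F) ^ ((p - 1) * l) := by
      intro z
      rw [har, add_pow]
      refine sum_congr rfl fun l _ => ?_
      push_cast
      rw [pow_mul]
      ring
    simp_rw [h3]
    rw [sum_comm]
    simp_rw [← mul_sum]
    rw [sum_eq_single 0]
    · simp only [pow_zero, one_mul, Nat.sub_zero, Nat.choose_zero_right, Nat.cast_one, mul_one,
        mul_zero, sum_const, card_univ, nsmul_eq_mul]
      have h4 : ((Fintype.card Fˣ : ℕ) : F) = -1 := by
        have h5 : ((Fintype.card F : ℕ) : F) = 0 := Nat.cast_card_eq_zero F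
        rw [hcard] at h5
        push_cast at h5
        exact eq_neg_of_add_eq_zero_left h5
      rw [h4]; ring
    · intro l hl hl0
      have h4 : ∑ z : Fˣ, (z : F) ^ ((p - 1) * l) = 0 := by
        rw [FiniteField.sum_pow_units, if_neg]
        intro h5
        have h6 : l ≤ p - 1 := by
          have := mem_range.1 hl
          omega
        have h7 : (p - 1) * l < Fintype.card F - 1 := by
          rw [← Fintype.card_units]
          calc (p - 1) * l ≤ (p - 1) * (p - 1) := Nat.mul_le_mul_left _ h6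
            _ < (p - 1) * (p + 1) := by
              apply Nat.mul_lt_mul_of_pos_left <;> omega
            _ ≤ _ := hq1
        have h8 : 0 < (p - 1) * l := Nat.mul_pos (by omega) (by omega)
        exact absurd (Nat.le_of_dvd h8 h5) (by omega)
      rw [h4, mul_zero]
    · intro h; exact absurd (mem_range.2 (by omega)) h
  have hS3 : ∑ b, ∑ z : Fˣ, φ (z ^ (p - 1) * b) ^ (p - 1) = 0 := by
    rw [sum_comm]
    apply sum_eq_zero
    intro z _
    rw [← hS]
    exact Equiv.sum_comp (Equiv.mulLeft (z ^ (p - 1))) (fun b => φ b ^ (p - 1))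
  simp_rw [hS2, hr1] at hS3
  rw [sum_const, card_univ, nsmul_eq_mul] at hS3
  have h4 : ((Fintype.card Fˣ : ℕ) : F) = -1 := by
    have h5 : ((Fintype.card F : ℕ) : F) = 0 := Nat.cast_card_eq_zero F
    rw [hcard] at h5
    push_cast at h5
    exact eq_neg_of_add_eq_zero_left h5
  rw [h4, neg_one_mul, neg_neg] at hS3
  have h5 := hr1 b₀
  rw [hS3] at h5
  exact hb₀ (pow_eq_zero_iff (by omega) |>.1 h5)

end

end Pool.Agent.Lib.Helper3.TypeF
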