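import Mathlib
import Pool.Agent.Lib.Helper3.TypeF.FinField

/-! # The last step: the multiplier function is constant -/

set_option autoImplicit false

namespace Pool.Agent.Lib.Helper3.TypeF

open Finset

section
variable {F : Type*} [Field F] [Fintype F] [DecidableEq F] {p k : ℕ} [hp : Fact p.Prime]

/-- The invariance group of the function `a`. -/
def invGroup (a : Fˣ → F) : Subgroup Fˣ where
  carrier := {e | ∀ b, a (e * b) = a b}
  mul_mem' := by
    intro x y hx hy b
    rw [mul_assoc, hx, hy]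
  one_mem' := by intro b; rw [one_mul]
  inv_mem' := by
    intro x hx b
    have h := hx (x⁻¹ * b)
    rw [mul_inv_cancel_left] at h
    exact h.symm

omit [Fintype F] [DecidableEq F] in
theorem mem_invGroup {a : Fˣ → F} {e : Fˣ} : e ∈ invGroup a ↔ ∀ b, a (e * b) = a b := Iff.rfl

/-- Facts on the order `M` of the invariance group. -/
theorem invGroup_facts (hk : 2 ≤ k) (hq : Fintype.card F = p ^ k) (a : Fˣ → F)
    (haU : ∀ b z : Fˣ, a (z ^ (p - 1) * b) = a b)
    (hat : ∀ t b : Fˣ, t ^ (p - 1) = 1 → a (t * b) = a b) :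
    ∃ (M g : ℕ) (e : Fˣ), M * g = Fintype.card Fˣ ∧ (p - 1) ∣ M ∧ g ≤ p - 1 ∧ 2 ≤ M ∧
      orderOf e = M ∧ (∀ b, a (e * b) = a b) ∧ (∀ x : Fˣ, x ^ M = 1 → ∀ b, a (x * b) = a b) ∧
      (univ.filter (fun x : Fˣ => x ^ M = 1)).card = M := by
  classical
  obtain ⟨hq1, hq2, hp1⟩ := card_units_facts (F := F) hk hq
  set E := invGroup a with hE
  obtain ⟨e, he⟩ := IsCyclic.exists_ofOrder_eq_natCard (α := E)
  obtain ⟨x₀, hx₀⟩ := IsCyclic.exists_ofOrder_eq_natCard (α := Fˣ)
  have hcard : Nat.card E * E.index = Nat.card Fˣ := Subgroup.card_mul_index E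
  rw [Nat.card_eq_fintype_card (α := Fˣ)] at hcard hx₀
  have hdvd : (p - 1) ∣ Fintype.card Fˣ := by
    rw [Fintype.card_units, hq]
    have := Nat.sub_dvd_pow_sub_pow p 1 k
    rwa [one_pow] at this
  obtain ⟨m, hm⟩ := hdvd
  have hmpos : 0 < m := by
    rcases Nat.eq_zero_or_pos m with h | h
    · rw [h, mul_zero] at hm; omega
    · exact h
  -- element of order p - 1
  have h1 : orderOf (x₀ ^ m) = p - 1 := by
    rw [orderOf_pow, hx₀, hm, Nat.gcd_mul_left_left, Nat.mul_div_cancel _ hmpos]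
  have h2 : orderOf (x₀ ^ (p - 1)) = m := by
    rw [orderOf_pow, hx₀, hm, Nat.gcd_mul_right_left, Nat.mul_div_cancel_left _ (by omega)]
  have h3 : (p - 1) ∣ Nat.card E := by
    rw [← h1]
    apply Subgroup.orderOf_dvd_natCard
    intro b
    apply hat
    rw [← h1, pow_orderOf_eq_one]
  have h4 : m ∣ Nat.card E := by
    rw [← h2]
    apply Subgroup.orderOf_dvd_natCard
    intro b
    apply haU
  have hMpos : 0 < Nat.card E := Nat.card_pos
  have h5 : m ≤ Nat.card E := Nat.le_of_dvd hMpos h4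
  have hm2 : 2 ≤ m := by
    rw [hm] at hq1
    have := Nat.le_of_mul_le_mul_left hq1 (by omega)
    omega
  have heo : orderOf (e : Fˣ) = Nat.card E := by
    rw [Subgroup.orderOf_coe, he]
  have hcE : (univ.filter (fun x : Fˣ => x ∈ E)).card = Nat.card E := by
    rw [Nat.card_eq_fintype_card, Fintype.card_subtype]
  have hsub : (univ.filter (fun x : Fˣ => x ^ (Nat.card E) = 1)) = univ.filter (fun x => x ∈ E) := by
    symm
    apply Finset.eq_of_subset_of_card_le
    · intro x hx
      rw [mem_filter] at hx ⊢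
      refine ⟨mem_univ _, ?_⟩
      have h6 : (⟨x, hx.2⟩ : E) ^ (Nat.card E) = 1 := pow_card_eq_one'
      exact congrArg Subtype.val h6
    · rw [hcE]
      exact IsCyclic.card_pow_eq_one_le hMpos
  refine ⟨Nat.card E, E.index, e, hcard, h3, ?_, by omega, heo, ?_, ?_, ?_⟩
  · by_contra hcon
    push Not at hcon
    have : (p - 1) * m < Nat.card E * E.index := by
      calc (p - 1) * m < E.index * m := Nat.mul_lt_mul_of_pos_right hcon hmpos
        _ ≤ E.index * Nat.card E := Nat.mul_le_mul_left _ h5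
        _ = _ := mul_comm _ _
    omega
  · exact e.2
  · intro x hx
    have : x ∈ univ.filter (fun x : Fˣ => x ^ (Nat.card E) = 1) := mem_filter.2 ⟨mem_univ _, hx⟩
    rw [hsub, mem_filter] at this
    exact this.2
  · rw [hsub, hcE]

theorem a_const (hk : 2 ≤ k) (hq : Fintype.card F = p ^ k) (φ : Fˣ → F) (hφ : DPD φ)
    (a : Fˣ → F) (hap : ∀ b, a b ^ (p - 1) = 1) (hφa : ∀ b : Fˣ, φ b = a b * b)
    (haU : ∀ b z : Fˣ, a (z ^ (p - 1) * b) = a b)
    (hat : ∀ t b : Fˣ, t ^ (p - 1) = 1 → a (t * b) = a b) (hv : ∑ b : Fˣ, a b ≠ 0)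
    [CharP F p] : ∀ b, a b = a 1 := by
  classical
  obtain ⟨hq1, hq2, hp1⟩ := card_units_facts (F := F) hk hq
  obtain ⟨M, g, e, hMg, ⟨m₀, hm₀⟩, hgp, hM2, heM, hea, hxM, hcM⟩ :=
    invGroup_facts hk hq a haU hat
  have hcard : Fintype.card F = Fintype.card Fˣ + 1 := by
    rw [Fintype.card_units, Nat.sub_add_cancel Fintype.card_pos]
  have hneg : ((Fintype.card Fˣ : ℕ) : F) = -1 := by
    have h5 : ((Fintype.card F : ℕ) : F) = 0 := Nat.cast_card_eq_zero F
    rw [hcard] at h5
    push_cast at h5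
    exact eq_neg_of_add_eq_zero_left h5
  have hane : ∀ b, a b ≠ 0 := by
    intro b h
    have := hap b
    rw [h, zero_pow (by omega)] at this
    exact zero_ne_one this
  have haM : ∀ (c : F), c ^ (p - 1) = 1 → ∀ j, c ^ (j * M) = 1 := by
    intro c hc j
    rw [hm₀, mul_left_comm, pow_mul, hc, one_pow]
  have hnegp : ∀ b, (- a b) ^ (p - 1) = 1 := by
    intro b
    rw [neg_pow, hap, mul_one]
    have h1 : (-1 : F) ^ p = -1 := neg_one_pow_char F p
    have h2 : (-1 : F) ^ p = (-1) ^ (p - 1) * (-1) := by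
      rw [← pow_succ, Nat.sub_add_cancel hp.out.one_le]
    rw [h2] at h1
    linear_combination -h1
  obtain ⟨B, hB⟩ : ∃ B : ℕ → F, ∀ j, B j = ∑ b : Fˣ, (b : F) ^ (j * M) * (a b)⁻¹ :=
    ⟨_, fun _ => rfl⟩
  obtain ⟨A, hA⟩ : ∃ A : ℕ → F, ∀ j, A j = ∑ b : Fˣ, (b : F) ^ (j * M) * a b :=
    ⟨_, fun _ => rfl⟩
  have hA0 : A 0 ≠ 0 := by
    rw [hA]; simpa using hv
  obtain ⟨P, hP⟩ : ∃ P : ℕ → F, ∀ l, P l = ∑ y : Fˣ, ((y⁻¹ : Fˣ) : F) * φ y ^ l :=
    ⟨_, fun _ => rfl⟩
  obtain ⟨Q, hQ⟩ : ∃ Q : ℕ → F, ∀ l, Q l = ∑ b : Fˣ, (b : F) * (-φ b) ^ l :=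
    ⟨_, fun _ => rfl⟩
  -- main identity
  have hmain : ∀ i, 1 ≤ i → i < g →
      ∑ l ∈ range (i * M + 1), ((i * M).choose l : F) * P l * Q (i * M - l) = 0 := by
    intro i hi1 hig
    have hiM : i * M < Fintype.card F - 1 := by
      rw [← Fintype.card_units, ← hMg, mul_comm M g]
      exact Nat.mul_lt_mul_of_pos_right hig (by omega)
    have hiM0 : i * M ≠ 0 := (Nat.mul_pos (by omega) (by omega)).ne'
    have h1 : ∀ s : Fˣ, ∑ b : Fˣ, (φ (b * s) - φ b) ^ (i * M) = 0 := by
      intro s
      by_cases hs : s = 1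
      · subst hs
        apply sum_eq_zero
        intro b _
        rw [mul_one, sub_self, zero_pow hiM0]
      · have h2 := hφ.sum_diff hcard hs (fun x => x ^ (i * M))
        simp only [mul_one] at h2
        rw [h2, zero_pow hiM0, sub_zero]
        exact FiniteField.sum_pow_lt_card_sub_one F _ hiM
    have h2 : ∑ b : Fˣ, ∑ y : Fˣ, ((y⁻¹ : Fˣ) : F) * b * (φ y - φ b) ^ (i * M) = 0 := by
      have h3 : ∀ b : Fˣ, ∑ y : Fˣ, ((y⁻¹ : Fˣ) : F) * b * (φ y - φ b) ^ (i * M) =
          ∑ s : Fˣ, ((s⁻¹ : Fˣ) : F) * (φ (b * s) - φ b) ^ (i * M) := by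
        intro b
        rw [← Equiv.sum_comp (Equiv.mulLeft b)]
        refine sum_congr rfl fun s _ => ?_
        simp only [Equiv.coe_mulLeft]
        congr 1
        rw [← Units.val_mul]
        congr 1
        rw [mul_inv_rev, inv_mul_cancel_right]
      simp_rw [h3]
      rw [sum_comm]
      apply sum_eq_zero
      intro s _
      rw [← mul_sum, h1, mul_zero]
    rw [← h2]
    have h3 : ∀ b y : Fˣ, ((y⁻¹ : Fˣ) : F) * b * (φ y - φ b) ^ (i * M) =
        ∑ l ∈ range (i * M + 1), ((i * M).choose l : F) * (((y⁻¹ : Fˣ) : F) * φ y ^ l) *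
          ((b : F) * (-φ b) ^ (i * M - l)) := by
      intro b y
      rw [sub_eq_add_neg, add_pow, mul_sum]
      refine sum_congr rfl fun l _ => ?_
      ring
    simp_rw [h3]
    rw [sum_comm' (t' := univ) (s' := fun _ => univ) (by simp)]
    simp_rw [sum_comm (s := univ) (t := range (i * M + 1))]
    refine sum_congr rfl fun l _ => ?_
    rw [hP, hQ, mul_assoc, sum_mul_sum, mul_sum]
    refine sum_congr rfl fun y _ => ?_
    rw [mul_sum]
    refine sum_congr rfl fun b _ => ?_
    ring
  -- vanishing of `P`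
  have hPzero : ∀ l, ¬ l ≡ 1 [MOD M] → P l = 0 := by
    intro l hl
    have h1 : P l = ((e⁻¹ : Fˣ) : F) * (e : F) ^ l * P l := by
      conv_lhs => rw [hP, ← Equiv.sum_comp (Equiv.mulLeft e)]
      rw [hP, mul_sum]
      refine sum_congr rfl fun y _ => ?_
      simp only [Equiv.coe_mulLeft]
      rw [hφa, hφa, hea, mul_inv, Units.val_mul, Units.val_mul]
      ring
    have h2 : ((e : F) ^ l - e) * P l = 0 := by
      have h3 : (e : F) * ((e⁻¹ : Fˣ) : F) = 1 := Units.mul_inv e
      have h4 : (e : F) * P l = (e : F) ^ l * P l := by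
        calc (e : F) * P l = (e : F) * (((e⁻¹ : Fˣ) : F) * (e : F) ^ l * P l) := by rw [← h1]
          _ = ((e : F) * ((e⁻¹ : Fˣ) : F)) * ((e : F) ^ l * P l) := by ring
          _ = _ := by rw [h3, one_mul]
      linear_combination -h4
    rcases mul_eq_zero.1 h2 with h3 | h3
    · exfalso
      apply hl
      have h4 : e ^ l = e ^ 1 := by
        rw [pow_one]
        exact Units.ext (by rw [Units.val_pow_eq_pow_val]; exact sub_eq_zero.1 h3)
      rw [pow_eq_pow_iff_modEq, heM] at h4
      exact h4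
    · exact h3
  have hPval : ∀ l', P (1 + l' * M) = A l' := by
    intro l'
    rw [hP, hA]
    refine sum_congr rfl fun y _ => ?_
    rw [hφa, pow_add, pow_one, mul_pow, haM _ (hap y), one_mul]
    have h3 : ((y⁻¹ : Fˣ) : F) * y = 1 := Units.inv_mul y
    calc ((y⁻¹ : Fˣ) : F) * (a y * y * (y : F) ^ (l' * M)) =
        (((y⁻¹ : Fˣ) : F) * y) * ((y : F) ^ (l' * M) * a y) := by ring
      _ = _ := by rw [h3, one_mul]
  have hQval : ∀ j, 1 ≤ j → Q (j * M - 1) = - B j := by
    intro j hj
    rw [hQ, hB, ← sum_neg_distrib]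
    refine sum_congr rfl fun b _ => ?_
    have h1 : 1 ≤ j * M := Nat.mul_pos (by omega) (by omega)
    have h2 : (-φ b) ^ (j * M) = (-φ b) ^ (j * M - 1) * (-φ b) := by
      rw [← pow_succ, Nat.sub_add_cancel h1]
    have h3 : (-φ b) ^ (j * M) = (b : F) ^ (j * M) := by
      rw [hφa, ← neg_mul, mul_pow, haM _ (hnegp b), one_mul]
    rw [h3] at h2
    have h4 := hane b
    have h5 : (b : F) ≠ 0 := b.ne_zero
    rw [h2, hφa]
    field_simp
  -- the recursion
  have hrec : ∀ i, 1 ≤ i → i < g →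
      ∑ l' ∈ range i, ((i * M).choose (1 + l' * M) : F) * A l' * B (i - l') = 0 := by
    intro i hi1 hig
    have h1 := hmain i hi1 hig
    have h2 : ∑ l ∈ range (i * M + 1), ((i * M).choose l : F) * P l * Q (i * M - l) =
        ∑ l ∈ (range i).image (fun l' => 1 + l' * M),
          ((i * M).choose l : F) * P l * Q (i * M - l) := by
      symm
      apply sum_subset
      · intro l hl
        obtain ⟨l', hl', rfl⟩ := mem_image.1 hl
        rw [mem_range] at hl' ⊢
        have : (l' + 1) * M ≤ i * M := Nat.mul_le_mul_right _ hl'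
        rw [add_mul] at this
        omega
      · intro l hl hl2
        rw [hPzero l, mul_zero, zero_mul]
        intro hmod
        apply hl2
        rw [mem_range] at hl
        have h3 : 1 ≤ l := by
          by_contra h4
          have h5 : l = 0 := by omega
          subst h5
          have h6 : (0 : ℕ) % M = 1 % M := hmod
          rw [Nat.zero_mod, Nat.mod_eq_of_lt (by omega)] at h6
          omega
        have h4 : M ∣ l - 1 := (Nat.modEq_iff_dvd' h3).1 hmod.symm
        obtain ⟨l', hl'⟩ := h4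
        refine mem_image.2 ⟨l', ?_, ?_⟩
        · rw [mem_range]
          by_contra h7
          push Not at h7
          have h8 : i * M ≤ l' * M := Nat.mul_le_mul_right _ h7
          rw [mul_comm M l'] at hl'
          omega
        · rw [mul_comm M l'] at hl'
          omega
    rw [h2, sum_image] at h1
    · rw [← neg_eq_zero, ← h1, ← sum_neg_distrib]
      refine sum_congr rfl fun l' hl' => ?_
      rw [mem_range] at hl'
      rw [hPval]
      have h3 : i * M - (1 + l' * M) = (i - l') * M - 1 := by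
        rw [Nat.sub_mul]
        omega
      rw [h3, hQval _ (by omega)]
      ring
    · intro x _ y _ hxy
      have : x * M = y * M := by
        have hxy' : 1 + x * M = 1 + y * M := hxy
        omega
      exact Nat.eq_of_mul_eq_mul_right (by omega) this
  have hB0 : ∀ i, 1 ≤ i → i < g → B i = 0 := by
    intro i
    induction i using Nat.strong_induction_on with
    | _ i ih =>
      intro hi1 hig
      have h1 := hrec i hi1 hig
      rw [sum_eq_single 0] at h1
      · simp only [zero_mul, add_zero, Nat.choose_one_right, Nat.sub_zero] at h1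
        have h2 : ((i * M : ℕ) : F) ≠ 0 := by
          intro h3
          rw [CharP.cast_eq_zero_iff F p] at h3
          rcases (Nat.Prime.dvd_mul hp.out).1 h3 with h4 | h4
          · have := Nat.le_of_dvd (by omega) h4
            omega
          · have h5 : ((Fintype.card Fˣ : ℕ) : F) = 0 := by
              rw [CharP.cast_eq_zero_iff F p, ← hMg]
              exact Dvd.dvd.mul_right h4 g
            rw [hneg] at h5
            exact neg_ne_zero.2 one_ne_zero h5
        rcases mul_eq_zero.1 h1 with h3 | h3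
        · rcases mul_eq_zero.1 h3 with h4 | h4
          · exact absurd h4 h2
          · exact absurd h4 hA0
        · exact h3
      · intro l' hl' hl0
        rw [mem_range] at hl'
        rw [ih (i - l') (by omega) (by omega) (by omega), mul_zero]
      · intro h; exact absurd (mem_range.2 (by omega)) h
  -- inversion
  have hinv : ∀ d : Fˣ, B 0 = - (a d)⁻¹ := by
    intro d
    have hg0 : 0 < g := by
      rcases Nat.eq_zero_or_pos g with h | h
      · rw [h, mul_zero] at hMg
        have : 0 < Fintype.card Fˣ := Fintype.card_pos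
        omega
      · exact h
    have h1 : ∑ j ∈ range g, (((d⁻¹ : Fˣ) : F)) ^ (j * M) * B j = B 0 := by
      rw [sum_eq_single 0]
      · simp
      · intro j hj hj0
        rw [mem_range] at hj
        rw [hB0 j (by omega) hj, mul_zero]
      · intro h; exact absurd (mem_range.2 hg0) h
    rw [← h1]
    have h2 : ∀ j, (((d⁻¹ : Fˣ) : F)) ^ (j * M) * B j =
        ∑ b : Fˣ, (((b * d⁻¹ : Fˣ) : F) ^ M) ^ j * (a b)⁻¹ := by
      intro j
      rw [hB, mul_sum]
      refine sum_congr rfl fun b _ => ?_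
      rw [Units.val_mul, ← pow_mul, mul_comm M j, mul_pow]
      ring
    simp_rw [h2]
    rw [sum_comm]
    simp_rw [← sum_mul]
    have h3 : ∀ b : Fˣ, (∑ j ∈ range g, (((b * d⁻¹ : Fˣ) : F) ^ M) ^ j) * (a b)⁻¹ =
        if (b * d⁻¹) ^ M = 1 then (g : F) * (a d)⁻¹ else 0 := by
      intro b
      split_ifs with hb
      · have h4 : ((b * d⁻¹ : Fˣ) : F) ^ M = 1 := by
          rw [← Units.val_pow_eq_pow_val, hb, Units.val_one]
        have h5 := hxM _ hb d
        rw [inv_mul_cancel_right] at h5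
        rw [h4, h5]
        simp
      · have h4 : ((b * d⁻¹ : Fˣ) : F) ^ M ≠ 1 := by
          intro h5
          apply hb
          exact Units.ext (by rw [Units.val_pow_eq_pow_val, h5, Units.val_one])
        have h5 := mul_geom_sum (((b * d⁻¹ : Fˣ) : F) ^ M) g
        have h6 : (((b * d⁻¹ : Fˣ) : F) ^ M) ^ g = 1 := by
          rw [← pow_mul, hMg, ← Units.val_pow_eq_pow_val, pow_card_eq_one, Units.val_one]
        rw [h6, sub_self] at h5
        rcases mul_eq_zero.1 h5 with h7 | h7
        · exact absurd (sub_eq_zero.1 h7) h4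
        · rw [h7, zero_mul]
    simp_rw [h3]
    rw [← sum_filter, sum_const]
    have h4 : (univ.filter (fun b : Fˣ => (b * d⁻¹) ^ M = 1)).card = M := by
      refine Eq.trans ?_ hcM
      apply card_bij (fun b _ => b * d⁻¹)
      · intro b hb
        rw [mem_filter] at hb ⊢
        exact ⟨mem_univ _, hb.2⟩
      · intro b _ b' _ h
        exact mul_right_cancel h
      · intro x hx
        refine ⟨x * d, ?_, by rw [mul_inv_cancel_right]⟩
        rw [mem_filter] at hx ⊢
        rw [mul_inv_cancel_right]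
        exact ⟨mem_univ _, hx.2⟩
    rw [h4, nsmul_eq_mul, ← mul_assoc]
    have h5 : (M : F) * g = -1 := by
      rw [← hneg, ← hMg]; push_cast; rfl
    rw [h5, neg_one_mul]
  intro b
  have h1 := hinv b
  have h2 := hinv 1
  rw [h1] at h2
  exact inv_injective (neg_injective h2)

/-- Solution of the functional equation. -/
theorem linear_of_funcEq [CharP F p] (hk : 2 ≤ k) (hq : Fintype.card F = p ^ k) (φ : Fˣ → F)
    (hφ : DPD φ) {Z : Type*} [AddCommGroup Z] (T : F →+ Z)
    (hT : ∀ d, (∀ c, T (c * d) = 0) → d = 0) (hTp : ∀ x, T (x ^ p) = T x)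
    (h1 : ∀ t b : Fˣ, t ^ (p - 1) = 1 → φ (t * b) = t * φ b)
    (h2 : ∀ w b : Fˣ, T (w * φ (w ^ (p - 1) * b ^ p)) = T (w * φ b))
    (hv : ∑ b : Fˣ, φ b * ((b⁻¹ : Fˣ) : F) ≠ 0) :
    ∃ c : F, c ≠ 0 ∧ ∀ b : Fˣ, φ b = c * b := by
  obtain ⟨a, r, hap, har⟩ := exists_form hk hq φ T hT hTp h2
  have hr := r_zero hk hq φ hφ h1 a r har
  obtain ⟨haU, _, hat, _⟩ := form_inv hk hq φ h1 a r har
  have hφa : ∀ b : Fˣ, φ b = a b * b := by
    intro b
    have h3 := har b 1
    rw [one_pow, one_mul, hr, add_zero] at h3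
    exact h3
  have hane : ∀ b, a b ≠ 0 := by
    intro b h
    apply hφ.ne_zero b
    rw [hφa, h, zero_mul]
  have hap' : ∀ b, a b ^ (p - 1) = 1 := by
    intro b
    have h3 := hap b
    have h4 : a b ^ p = a b ^ (p - 1) * a b := by
      rw [← pow_succ, Nat.sub_add_cancel hp.out.one_le]
    rw [h4] at h3
    exact mul_right_cancel₀ (hane b) (by rw [h3, one_mul])
  have hv' : ∑ b : Fˣ, a b ≠ 0 := by
    intro h
    apply hv
    rw [← h]
    refine sum_congr rfl fun b _ => ?_
    rw [hφa, mul_assoc, Units.mul_inv, mul_one]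
  have hc := a_const hk hq φ hφ a hap' hφa haU hat hv'
  exact ⟨a 1, hane 1, fun b => by rw [hφa, hc b]⟩

end

end Pool.Agent.Lib.Helper3.TypeF
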