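import Mathlib
import Pool.Agent.Lib.Helper3.TypeF.Chars

/-! # The image of a character occurring in the Fourier expansion -/

set_option autoImplicit false

namespace Pool.Agent.Lib.Helper3.TypeF

open Finset

theorem mem_prime_field {p : ℕ} [hp : Fact p.Prime] {F : Type*} [Field F] [Algebra (ZMod p) F]
    [CharP F p] {x : F} (hx : x ^ (p - 1) = 1) : ∃ t : ZMod p, t ≠ 0 ∧ algebraMap (ZMod p) F t = x := by
  have hx0 : x ≠ 0 := by
    rintro rfl
    have : p - 1 ≠ 0 := by have := hp.out.two_le; omega
    rw [zero_pow this] at hx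
    exact zero_ne_one hx
  have h1 : x ^ p = x := by
    have : x ^ p = x ^ (p - 1) * x := by
      rw [← pow_succ, Nat.sub_add_cancel hp.out.one_le]
    rw [this, hx, one_mul]
  rw [← Subfield.mem_bot_iff_pow_eq_self] at h1
  obtain ⟨n, hn⟩ := (mem_bot_iff_intCast p F).1 h1
  refine ⟨(n : ZMod p), ?_, ?_⟩
  · intro h
    apply hx0
    rw [← hn]
    have := congrArg (algebraMap (ZMod p) F) h
    simpa using this
  · rw [map_intCast]; exact hn

/-- Nonempty fibres of a homomorphism have the same size. -/
theorem card_fibre_eq {G H : Type*} [Group G] [Group H] [Fintype G] [DecidableEq H]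
    (θ : G →* H) (g g' : G) :
    (univ.filter (fun y => θ y = θ g)).card = (univ.filter (fun y => θ y = θ g')).card := by
  apply card_bij (fun y _ => y * (g⁻¹ * g'))
  · intro y hy
    rw [mem_filter] at hy ⊢
    refine ⟨mem_univ _, ?_⟩
    rw [map_mul, map_mul, hy.2, map_inv, mul_inv_cancel_left]
  · intro y _ y' _ h
    exact mul_right_cancel h
  · intro y hy
    rw [mem_filter] at hy
    refine ⟨y * (g⁻¹ * g')⁻¹, ?_, by rw [inv_mul_cancel_right]⟩
    rw [mem_filter]
    refine ⟨mem_univ _, ?_⟩
    rw [map_mul, hy.2, map_inv, map_mul, map_inv]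
    group

section
variable {A B : Type*} [AddCommGroup A] [CommGroup B] [Fintype A] [Fintype B]
  {f : B → A} {p : ℕ} [hp : Fact p.Prime] [Module (ZMod p) A]
  {F : Type*} [Field F] [Fintype F] [Algebra (ZMod p) F]

omit [Fintype F] [Algebra (ZMod p) F] in
/-- The number of functionals whose multiplier has a given character value. -/
theorem card_mult_value [Fintype (V p A)] [DecidableEq B] [DecidableEq F] (hf : DPD f)
    (hcard : Fintype.card A = Fintype.card B + 1) {k : ℕ} (hk : Fintype.card A = p ^ k)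
    (cc : V p A → B) (hcc : ∀ (α : V p A) (y : B), α (f (cc α * y ^ p)) = α (f y))
    (γ : B →* Fˣ) (x : Fˣ) :
    (univ.filter (fun α : V p A => α ≠ 0 ∧ γ (cc α) = x)).card =
      (univ.filter (fun y : B => γ (y * (y ^ p)⁻¹) = x)).card := by
  classical
  have hfib : ∀ c : B, (univ.filter (fun α : V p A => α ≠ 0 ∧ cc α = c)).card =
      (univ.filter (fun y : B => y * (y ^ p)⁻¹ = c)).card := by
    intro c
    have h1 := card_Hs (p := p) hf hcard hk c 1
    rw [pow_one] at h1
    have h2 : (univ.filter (fun y : B => c * y ^ p = y)) =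
        univ.filter (fun y : B => y * (y ^ p)⁻¹ = c) := by
      ext y
      simp only [mem_filter, mem_univ, true_and]
      rw [mul_inv_eq_iff_eq_mul, eq_comm]
    rw [h2] at h1
    have h3 : (univ.filter (fun α => α ∈ Hs p f c 1)).card = Nat.card (Hs p f c 1) := by
      rw [Nat.card_eq_fintype_card, Fintype.card_subtype]
    have h4 : univ.filter (fun α => α ∈ Hs p f c 1) =
        insert 0 (univ.filter (fun α : V p A => α ≠ 0 ∧ cc α = c)) := by
      ext α
      simp only [mem_filter, mem_univ, true_and, mem_insert, mem_Hs, pow_one]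
      constructor
      · intro h
        by_cases hα : α = 0
        · exact Or.inl hα
        · right
          refine ⟨hα, ?_⟩
          have hinj : Function.Surjective (fun y : B => y ^ p) :=
            Finite.surjective_of_injective
              (pow_injective_of_coprime (card_pow_facts hcard hk).2)
          apply mult_unique hf hcard hα
          intro y
          obtain ⟨z, rfl⟩ := hinj y
          exact (hcc α z).trans (h z).symm
      · rintro (rfl | ⟨_, rfl⟩)
        · intro y; simp
        · exact hcc α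
    rw [← h3, h4, card_insert_of_notMem] at h1
    · exact Nat.succ_injective h1
    · simp
  have h1 : (univ.filter (fun α : V p A => α ≠ 0 ∧ γ (cc α) = x)).card =
      ∑ c ∈ univ.filter (fun c => γ c = x),
        (univ.filter (fun α : V p A => α ≠ 0 ∧ cc α = c)).card := by
    rw [card_eq_sum_card_fiberwise (f := cc) (t := univ.filter (fun c => γ c = x))]
    · refine sum_congr rfl fun c hc => ?_
      rw [mem_filter] at hc
      congr 1
      ext α
      simp only [mem_filter, mem_univ, true_and]
      constructor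
      · rintro ⟨⟨h1, _⟩, h2⟩; exact ⟨h1, h2⟩
      · rintro ⟨h1, h2⟩; exact ⟨⟨h1, by rw [h2]; exact hc.2⟩, h2⟩
    · intro α hα
      have hα' := (mem_filter.1 (mem_coe.1 hα)).2
      exact mem_coe.2 (mem_filter.2 ⟨mem_univ _, hα'.2⟩)
  have h2 : (univ.filter (fun y : B => γ (y * (y ^ p)⁻¹) = x)).card =
      ∑ c ∈ univ.filter (fun c => γ c = x),
        (univ.filter (fun y : B => y * (y ^ p)⁻¹ = c)).card := by
    rw [card_eq_sum_card_fiberwise (f := fun y : B => y * (y ^ p)⁻¹)
      (t := univ.filter (fun c => γ c = x))]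
    · refine sum_congr rfl fun c hc => ?_
      rw [mem_filter] at hc
      congr 1
      ext y
      simp only [mem_filter, mem_univ, true_and]
      constructor
      · rintro ⟨_, h2⟩; exact h2
      · intro h2; exact ⟨by rw [h2]; exact hc.2, h2⟩
    · intro y hy
      have hy' := (mem_filter.1 (mem_coe.1 hy)).2
      exact mem_coe.2 (mem_filter.2 ⟨mem_univ _, hy'⟩)
  rw [h1, h2]
  exact sum_congr rfl fun c _ => hfib c

omit [Fintype F] in
/-- The image of a character in the support is the image of its Fourier coefficient. -/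
theorem image_eq [CharP F p] (hf : DPD f)
    (hcard : Fintype.card A = Fintype.card B + 1) {k : ℕ} (hk : Fintype.card A = p ^ k)
    (γ : B →* Fˣ) (hγ : w f γ ≠ (0 : V p A →ₗ[ZMod p] F)) (x : Fˣ) :
    (∃ b, γ b = x) ↔ ∃ α : V p A, w f γ α = (x : F) := by
  classical
  have : Finite (V p A) := Module.finite_of_finite (ZMod p)
  have : Fintype (V p A) := Fintype.ofFinite _
  have hpp : p - 1 + 1 = p := Nat.sub_add_cancel hp.out.one_le
  have hbij : Function.Bijective (fun y : B => y ^ p) :=
    Finite.injective_iff_bijective.1 (pow_injective_of_coprime (card_pow_facts hcard hk).2)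
  have hex : ∀ α : V p A, ∃ c : B, ∀ y, α (f (c * y ^ p)) = α (f y) := by
    intro α
    obtain ⟨c, hc⟩ := mult hf hcard hk α one_ne_zero 1
    exact ⟨c, fun y => by have := hc y; rwa [pow_one, one_mul] at this⟩
  choose cc hcc using hex
  have hzp : ∀ z : F, z ^ p = z ^ (p - 1) * z := fun z => by rw [← pow_succ, hpp]
  have hw : ∀ α : V p A, w f γ α ^ p = (γ (cc α) : F) * w f γ α :=
    fun α => w_pow γ (hcc α) hbij
  have hw1 : ∀ α : V p A, w f γ α ≠ 0 → w f γ α ^ (p - 1) = (γ (cc α) : F) := by
    intro α hα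
    have h1 := hw α
    rw [hzp] at h1
    exact mul_right_cancel₀ hα h1
  obtain ⟨α₀, hα₀⟩ : ∃ α₀ : V p A, w f γ α₀ ≠ 0 := by
    by_contra h
    push Not at h
    exact hγ (LinearMap.ext h)
  have hα₀' : α₀ ≠ 0 := by
    rintro rfl
    exact hα₀ (map_zero _)
  -- the homomorphism `y ↦ γ (y / y ^ p)`
  let θ : B →* Fˣ :=
    { toFun := fun y => γ (y * (y ^ p)⁻¹)
      map_one' := by simp
      map_mul' := by
        intro y z
        rw [← map_mul]
        congr 1
        rw [mul_pow, mul_inv]
        exact mul_mul_mul_comm y z _ _ }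
  have hN := card_mult_value hf hcard hk cc hcc γ
  -- a preimage under `θ` for each occurring multiplier
  have hθ : ∀ α : V p A, α ≠ 0 → ∃ y, θ y = γ (cc α) := by
    intro α hα
    have h1 := hN (γ (cc α))
    have h2 : 0 < (univ.filter (fun α' : V p A => α' ≠ 0 ∧ γ (cc α') = γ (cc α))).card :=
      card_pos.2 ⟨α, mem_filter.2 ⟨mem_univ _, hα, rfl⟩⟩
    rw [h1] at h2
    obtain ⟨y, hy⟩ := card_pos.1 h2
    exact ⟨y, (mem_filter.1 hy).2⟩
  have hθpow : ∀ y, θ y = (γ y ^ (p - 1))⁻¹ := by
    intro y
    change γ (y * (y ^ p)⁻¹) = _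
    rw [← map_pow, ← map_inv]
    congr 1
    have : y ^ p = y ^ (p - 1) * y := by rw [← pow_succ, hpp]
    rw [this, mul_inv_rev, mul_inv_cancel_left]
  constructor
  · rintro ⟨b, rfl⟩
    -- the kernel
    set K := (univ.filter (fun α : V p A => w f γ α = 0)).card with hK
    have hcos : (univ.filter (fun α : V p A => w f γ α = w f γ α₀)).card = K := by
      rw [hK]
      apply card_bij (fun α _ => α - α₀)
      · intro α hα
        rw [mem_filter] at hα ⊢
        exact ⟨mem_univ _, by rw [map_sub, hα.2, sub_self]⟩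
      · intro α _ α' _ h
        exact sub_left_injective h
      · intro α hα
        rw [mem_filter] at hα
        refine ⟨α + α₀, ?_, by abel⟩
        rw [mem_filter]
        exact ⟨mem_univ _, by rw [map_add, hα.2, zero_add]⟩
    obtain ⟨y₀, hy₀⟩ := hθ α₀ hα₀'
    have h1 : K ≤ (univ.filter (fun α : V p A => α ≠ 0 ∧ γ (cc α) = γ (cc α₀))).card := by
      rw [← hcos]
      apply card_le_card
      intro α hα
      rw [mem_filter] at hα ⊢
      have hα1 : w f γ α ≠ 0 := by rw [hα.2]; exact hα₀
      refine ⟨mem_univ _, ?_, ?_⟩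
      · rintro rfl
        exact hα1 (map_zero _)
      · apply Units.ext
        rw [← hw1 α hα1, ← hw1 α₀ hα₀, hα.2]
    have h2 : (univ.filter (fun α : V p A => α ≠ 0 ∧ γ (cc α) = γ (cc α₀))).card =
        (univ.filter (fun α : V p A => α ≠ 0 ∧ γ (cc α) = θ b⁻¹)).card := by
      rw [hN, hN, ← hy₀]
      exact card_fibre_eq θ y₀ b⁻¹
    rw [h2] at h1
    -- some functional outside the kernel
    obtain ⟨α, hα1, hα2⟩ : ∃ α : V p A, γ (cc α) = θ b⁻¹ ∧ w f γ α ≠ 0 := by
      by_contra hcon
      push Not at hcon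
      have h3 : (univ.filter (fun α : V p A => α ≠ 0 ∧ γ (cc α) = θ b⁻¹)) ⊆
          (univ.filter (fun α : V p A => w f γ α = 0)).erase 0 := by
        intro α hα
        rw [mem_filter] at hα
        rw [mem_erase, mem_filter]
        exact ⟨hα.2.1, mem_univ _, hcon α hα.2.2⟩
      have h4 := card_le_card h3
      have hmem : (0 : V p A) ∈ univ.filter (fun α : V p A => w f γ α = 0) :=
        mem_filter.2 ⟨mem_univ _, map_zero _⟩
      rw [card_erase_of_mem hmem, ← hK] at h4
      have h5 : 0 < K := card_pos.2 ⟨0, hmem⟩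
      omega
    have h3 : w f γ α ^ (p - 1) = (γ b : F) ^ (p - 1) := by
      rw [hw1 α hα2, hα1, hθpow, map_inv, inv_pow, inv_inv, Units.val_pow_eq_pow_val]
    obtain ⟨t, ht0, ht⟩ : ∃ t : ZMod p, t ≠ 0 ∧
        algebraMap (ZMod p) F t = (γ b : F) * (w f γ α)⁻¹ := by
      apply mem_prime_field
      rw [mul_pow, ← h3, inv_pow, mul_inv_cancel₀ (pow_ne_zero _ hα2)]
    refine ⟨t • α, ?_⟩
    rw [map_smul, Algebra.smul_def, ht, mul_assoc, inv_mul_cancel₀ hα2, mul_one]
  · rintro ⟨α, hα⟩
    have hα1 : w f γ α ≠ 0 := by rw [hα]; exact x.ne_zero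
    have hα2 : α ≠ 0 := by
      rintro rfl
      exact hα1 (map_zero _)
    obtain ⟨y, hy⟩ := hθ α hα2
    have h1 := hw1 α hα1
    rw [hα, ← hy, hθpow] at h1
    obtain ⟨t, ht0, ht⟩ : ∃ t : ZMod p, t ≠ 0 ∧ algebraMap (ZMod p) F t = (x : F) * (γ y : F) := by
      apply mem_prime_field
      rw [mul_pow, h1, ← Units.val_pow_eq_pow_val, Units.inv_mul]
    obtain ⟨h, hh⟩ := mult hf hcard hk α ht0 0
    simp only [pow_zero, pow_one] at hh
    have h2 := w_mul (F := F) γ hh
    have h3 : (γ h : F) = algebraMap (ZMod p) F t := mul_right_cancel₀ hα1 h2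
    refine ⟨h * y⁻¹, ?_⟩
    apply Units.ext
    rw [map_mul, map_inv, Units.val_mul, h3, ht, mul_assoc, Units.mul_inv, mul_one]

end

end Pool.Agent.Lib.Helper3.TypeF
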