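import Mathlib

/-! # Number theory for the exponent of `B` -/

set_option autoImplicit false

namespace Pool.Agent.Lib.Helper3.TypeF

open Finset

/-- A prime `ℓ` whose valuation of `p ^ k - 1` exceeds that of all `p ^ j - 1`. -/
theorem exists_special_prime {p k : ℕ} (hp : 2 ≤ p) (hk : 2 ≤ k) :
    ∃ ℓ : ℕ, ℓ.Prime ∧ ∀ j, j ∣ k → j < k → (p ^ j - 1) * ℓ ∣ p ^ k - 1 := by
  have h1 := Polynomial.sub_one_lt_natAbs_cyclotomic_eval (n := k) (q := p) (by omega) (by omega)
  set c := ((Polynomial.cyclotomic k ℤ).eval (p : ℤ)).natAbs with hc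
  obtain ⟨ℓ, hℓ, hℓc⟩ := Nat.exists_prime_and_dvd (n := c) (by omega)
  refine ⟨ℓ, hℓ, fun j hj hjk => ?_⟩
  have h2 := Polynomial.X_pow_sub_one_mul_cyclotomic_dvd_X_pow_sub_one_of_dvd ℤ
    (Nat.mem_properDivisors.2 ⟨hj, hjk⟩)
  have h3 := Polynomial.eval_dvd (x := (p : ℤ)) h2
  simp only [Polynomial.eval_mul, Polynomial.eval_sub, Polynomial.eval_pow, Polynomial.eval_X,
    Polynomial.eval_one] at h3
  have h4 := Int.natAbs_dvd_natAbs.2 h3
  rw [Int.natAbs_mul, ← hc] at h4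
  have h5 : ∀ i : ℕ, ((p : ℤ) ^ i - 1).natAbs = p ^ i - 1 := by
    intro i
    have h6 : 1 ≤ p ^ i := Nat.one_le_pow _ _ (by omega)
    have h7 : ((p : ℤ) ^ i - 1) = ((p ^ i - 1 : ℕ) : ℤ) := by
      rw [Nat.cast_sub h6]; push_cast; rfl
    rw [h7, Int.natAbs_natCast]
  rw [h5, h5] at h4
  exact dvd_trans (Nat.mul_dvd_mul_left _ hℓc) h4

theorem pow_gt {Q s : ℕ} (hQ : 2 ≤ Q) : (Q - 1) * (s + 2) + 1 < Q ^ (s + 2) := by
  obtain ⟨r, rfl⟩ : ∃ r, Q = r + 1 := ⟨Q - 1, by omega⟩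
  simp only [Nat.add_sub_cancel]
  have hr : 1 ≤ r := by omega
  induction s with
  | zero =>
    have h0 : (r + 1) ^ (0 + 2) = r * r + (r * (0 + 2) + 1) := by ring
    rw [h0]
    have : 0 < r * r := Nat.mul_pos hr hr
    omega
  | succ s ih =>
    have : (r + 1) ^ (s + 1 + 2) = (r + 1) ^ (s + 2) * r + (r + 1) ^ (s + 2) := by ring
    rw [this]
    have h2 : r ≤ (r + 1) ^ (s + 2) * r := Nat.le_mul_of_pos_left _ (by positivity)
    nlinarith

/-- LTE consequence. -/
theorem lte {Q s : ℕ} (hQ : 2 ≤ Q) (hs : s ≠ 0)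
    (h1 : ∀ ℓ : ℕ, ℓ.Prime → ℓ ∣ Q ^ s - 1 → ℓ ∣ Q - 1)
    (h2 : 2 ∣ Q ^ s - 1 → (Q ^ s - 1).factorization 2 ≤ (Q - 1).factorization 2) : s = 1 := by
  have hQs : 2 ≤ Q ^ s := le_trans hQ (Nat.le_self_pow hs Q)
  have hd : Q ^ s - 1 ∣ (Q - 1) * s := by
    rw [← Nat.factorization_prime_le_iff_dvd (by omega)
      (Nat.mul_ne_zero (by omega) hs)]
    intro ℓ hℓ
    rw [Nat.factorization_mul (by omega) hs, Finsupp.add_apply]
    by_cases hd : ℓ ∣ Q ^ s - 1
    · by_cases hℓ2 : ℓ = 2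
      · subst hℓ2
        exact (h2 hd).trans (Nat.le_add_right _ _)
      · have : Fact ℓ.Prime := ⟨hℓ⟩
        have hodd : Odd ℓ := hℓ.odd_of_ne_two hℓ2
        have h3 := h1 ℓ hℓ hd
        have h4 : ¬ ℓ ∣ Q := by
          intro h5
          have h6 : ℓ ∣ 1 := by
            have := Nat.dvd_sub h5 h3
            rwa [Nat.sub_sub_self (by omega)] at this
          exact hℓ.one_lt.ne' (Nat.dvd_one.1 h6)
        have h5 := padicValNat.pow_sub_pow (x := Q) (y := 1) hodd (by omega) h3 h4 hs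
        rw [one_pow] at h5
        rw [Nat.factorization_def _ hℓ, Nat.factorization_def _ hℓ, Nat.factorization_def _ hℓ, h5]
    · rw [Nat.factorization_eq_zero_of_not_dvd hd]
      exact Nat.zero_le _
  have hle := Nat.le_of_dvd (Nat.mul_pos (by omega) (by omega)) hd
  by_contra hs1
  obtain ⟨s', rfl⟩ : ∃ s', s = s' + 2 := ⟨s - 2, by omega⟩
  have := pow_gt (s := s') hQ
  omega

section
variable {B : Type*} [CommGroup B] [Fintype B]

/-- Few solutions of `y ^ (2 ^ j) = 1` if there is at most one involution. -/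
theorem card_two_pow [DecidableEq B]
    (hinv : ∀ d d' : B, d ^ 2 = 1 → d ≠ 1 → d' ^ 2 = 1 → d' ≠ 1 → d = d') (j : ℕ) :
    (univ.filter (fun y : B => y ^ (2 ^ j) = 1)).card ≤ 2 ^ j := by
  induction j with
  | zero =>
    have : (univ.filter (fun y : B => y ^ (2 ^ 0) = 1)) = {1} := by
      ext y; simp
    rw [this]; simp
  | succ j ih =>
    have h1 : ((univ.filter (fun y : B => y ^ (2 ^ (j + 1)) = 1)).image (fun y => y ^ 2)) ⊆
        univ.filter (fun y : B => y ^ (2 ^ j) = 1) := by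
      intro z hz
      obtain ⟨y, hy, rfl⟩ := mem_image.1 hz
      rw [mem_filter] at hy ⊢
      refine ⟨mem_univ _, ?_⟩
      rw [← pow_mul, ← pow_succ']
      exact hy.2
    have h2 : (univ.filter (fun y : B => y ^ (2 ^ (j + 1)) = 1)).card ≤
        2 * ((univ.filter (fun y : B => y ^ (2 ^ (j + 1)) = 1)).image (fun y => y ^ 2)).card := by
      apply card_le_mul_card_image
      intro z hz
      obtain ⟨y, hy, rfl⟩ := mem_image.1 hz
      by_cases hex : ∃ d : B, d ^ 2 = 1 ∧ d ≠ 1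
      · obtain ⟨d, hd, hd1⟩ := hex
        have h3 : ((univ.filter (fun y : B => y ^ (2 ^ (j + 1)) = 1)).filter
            (fun x => x ^ 2 = y ^ 2)) ⊆ {y, y * d} := by
          intro x hx
          have hx2 := (mem_filter.1 hx).2
          by_cases hxy : x = y
          · rw [hxy]; exact mem_insert_self _ _
          · apply mem_insert_of_mem
            rw [mem_singleton]
            have h4 : y⁻¹ * x = d := by
              apply hinv
              · rw [mul_pow, hx2, inv_pow, inv_mul_cancel]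
              · intro h5
                exact hxy (inv_mul_eq_one.1 h5).symm
              · exact hd
              · exact hd1
            rw [← h4, mul_inv_cancel_left]
        exact (card_le_card h3).trans card_le_two
      · push Not at hex
        have h3 : ((univ.filter (fun y : B => y ^ (2 ^ (j + 1)) = 1)).filter
            (fun x => x ^ 2 = y ^ 2)) ⊆ {y} := by
          intro x hx
          have hx2 := (mem_filter.1 hx).2
          rw [mem_singleton]
          have h4 := hex (y⁻¹ * x) (by rw [mul_pow, hx2, inv_pow, inv_mul_cancel])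
          exact (inv_mul_eq_one.1 h4).symm
        exact (card_le_card h3).trans (by simp)
    calc _ ≤ _ := h2
      _ ≤ 2 * 2 ^ j := Nat.mul_le_mul_left _ ((card_le_card h1).trans ih)
      _ = 2 ^ (j + 1) := by rw [pow_succ, mul_comm]

/-- The main group theoretic step: some character of the family `T` is faithful. -/
theorem exists_faithful {M : Type*} [CommGroup M] {p k : ℕ} (hp : p.Prime) (hk : 2 ≤ k)
    (hB : Fintype.card B = p ^ k - 1) (T : Set (B →* M)) (hTfin : T.Finite)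
    (hTr : ∀ γ ∈ T, ∃ r, Nat.card γ.range = p ^ r - 1)
    (hTsep : ∀ d : B, d ≠ 1 → ∃ γ ∈ T, γ d ≠ 1)
    (hfix : ∀ e, ∃ i, Nat.card ((powMonoidHom (p ^ e - 1) : B →* B).ker) + 1 = p ^ i)
    (hinv : p ≠ 2 → ∀ d d' : B, d ^ 2 = 1 → d ≠ 1 → d' ^ 2 = 1 → d' ≠ 1 → d = d') :
    ∃ γ ∈ T, Nat.card γ.range = Fintype.card B := by
  classical
  have hp2 := hp.two_le
  have hpk : p ^ 2 ≤ p ^ k := Nat.pow_le_pow_right (by omega) hk
  have hpk4 : 4 ≤ p ^ 2 := by nlinarith
  obtain ⟨ℓ, hℓ, hspec⟩ := exists_special_prime hp2 hk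
  have : Fact ℓ.Prime := ⟨hℓ⟩
  have hBpos : 0 < Fintype.card B := Fintype.card_pos
  have hBne : p ^ k - 1 ≠ 0 := by omega
  -- `T` is nonempty
  have hBnt : ∃ d : B, d ≠ 1 := by
    have h1 : 1 < Fintype.card B := by omega
    obtain ⟨d, hd⟩ := Fintype.exists_ne_of_one_lt_card h1 (1 : B)
    exact ⟨d, hd⟩
  obtain ⟨d₀, hd₀⟩ := hBnt
  obtain ⟨γ₀, hγ₀, _⟩ := hTsep d₀ hd₀
  obtain ⟨γ₁, hγ₁, hmax⟩ := hTfin.exists_maximalFor
    (fun γ : B →* M => (Nat.card γ.range).factorization ℓ) T ⟨γ₀, hγ₀⟩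
  have hmax' : ∀ γ ∈ T, (Nat.card γ.range).factorization ℓ ≤
      (Nat.card γ₁.range).factorization ℓ := by
    intro γ hγ
    rcases le_total ((Nat.card γ.range).factorization ℓ)
      ((Nat.card γ₁.range).factorization ℓ) with h | h
    · exact h
    · exact hmax hγ h
  obtain ⟨r₁, hr₁⟩ := hTr γ₁ hγ₁
  set N₁ := Nat.card γ₁.range with hN₁
  have hN₁pos : 0 < N₁ := Nat.card_pos
  have hBcard : Nat.card B = p ^ k - 1 := by rw [Nat.card_eq_fintype_card, hB]
  -- the Sylow `ℓ`-subgroup is killed by `N₁`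
  obtain ⟨S⟩ : Nonempty (Sylow ℓ B) := inferInstance
  have hS : ∀ b ∈ S, b ^ N₁ = 1 := by
    intro b hb
    by_contra hne
    obtain ⟨γ, hγ, hγb⟩ := hTsep _ hne
    apply hγb
    obtain ⟨a, ha⟩ := (IsPGroup.iff_orderOf.1 S.2) ⟨b, hb⟩
    rw [Subgroup.orderOf_mk] at ha
    have h1 : orderOf (γ b) ∣ Nat.card γ.range :=
      Subgroup.orderOf_dvd_natCard γ.range ⟨b, rfl⟩
    have h2 : orderOf (γ b) ∣ ℓ ^ a := by
      rw [← ha]; exact orderOf_map_dvd γ b
    obtain ⟨a', _, ha'⟩ := (Nat.dvd_prime_pow hℓ).1 h2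
    rw [ha'] at h1
    have h3 : a' ≤ (Nat.card γ.range).factorization ℓ :=
      (hℓ.pow_dvd_iff_le_factorization Nat.card_pos.ne').1 h1
    have h4 : ℓ ^ a' ∣ N₁ :=
      (hℓ.pow_dvd_iff_le_factorization hN₁pos.ne').2 (h3.trans (hmax' γ hγ))
    rw [map_pow]
    rw [← ha'] at h4
    exact orderOf_dvd_iff_pow_eq_one.1 h4
  -- everything is killed by `N₁`
  set G₁ := (powMonoidHom N₁ : B →* B).ker with hG₁
  have hkill : ∀ y : B, y ^ N₁ = 1 := by
    obtain ⟨i, hi⟩ := hfix r₁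
    rw [← hr₁, ← hG₁] at hi
    have h1 : (S : Subgroup B) ≤ G₁ := by
      intro b hb
      rw [hG₁, MonoidHom.mem_ker]
      exact hS b hb
    have h2 : Nat.card S ∣ Nat.card G₁ := Subgroup.card_dvd_of_le h1
    rw [Sylow.card_eq_multiplicity, hBcard] at h2
    have h3 : Nat.card G₁ ∣ Nat.card B := Subgroup.card_subgroup_dvd_card G₁
    have hG₁pos : 0 < Nat.card G₁ := Nat.card_pos
    have hGi : Nat.card G₁ = p ^ i - 1 := by omega
    rw [hBcard, hGi] at h3
    have hik : i ∣ k := by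
      have h4 : Nat.gcd (p ^ i - 1) (p ^ k - 1) = p ^ i - 1 := Nat.gcd_eq_left h3
      rw [Nat.pow_sub_one_gcd_pow_sub_one] at h4
      have h5 : 1 ≤ p ^ (Nat.gcd i k) := Nat.one_le_pow _ _ (by omega)
      have h6 : 1 ≤ p ^ i := Nat.one_le_pow _ _ (by omega)
      have h7 : p ^ (Nat.gcd i k) = p ^ i := by omega
      have h8 := Nat.pow_right_injective hp2 h7
      rw [← h8]
      exact Nat.gcd_dvd_right i k
    have hik' : i = k := by
      by_contra hne
      have hlt : i < k := lt_of_le_of_ne (Nat.le_of_dvd (by omega) hik) hne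
      have h4 := hspec i hik hlt
      rw [← hGi] at h4
      have h5 : ℓ ^ ((p ^ k - 1).factorization ℓ) * ℓ ∣ p ^ k - 1 :=
        dvd_trans (Nat.mul_dvd_mul_right h2 ℓ) h4
      rw [← pow_succ, hℓ.pow_dvd_iff_le_factorization hBne] at h5
      omega
    have h4 : G₁ = ⊤ := by
      apply Subgroup.eq_top_of_card_eq
      rw [hGi, hik', hBcard]
    intro y
    have h5 : y ∈ G₁ := by rw [h4]; exact Subgroup.mem_top y
    rw [hG₁, MonoidHom.mem_ker] at h5
    exact h5
  -- `r₁ ∣ k`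
  have hr₁k : r₁ ∣ k := by
    have h3 : N₁ ∣ Nat.card B := Subgroup.card_range_dvd γ₁
    rw [hBcard, hr₁] at h3
    have h4 : Nat.gcd (p ^ r₁ - 1) (p ^ k - 1) = p ^ r₁ - 1 := Nat.gcd_eq_left h3
    rw [Nat.pow_sub_one_gcd_pow_sub_one] at h4
    have h5 : 1 ≤ p ^ (Nat.gcd r₁ k) := Nat.one_le_pow _ _ (by omega)
    have h6 : 1 ≤ p ^ r₁ := Nat.one_le_pow _ _ (by omega)
    have h7 : p ^ (Nat.gcd r₁ k) = p ^ r₁ := by omega
    have h8 := Nat.pow_right_injective hp2 h7
    rw [← h8]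
    exact Nat.gcd_dvd_right r₁ k
  obtain ⟨s, hs⟩ := hr₁k
  have hs0 : s ≠ 0 := by
    rintro rfl
    rw [mul_zero] at hs
    omega
  have hQ2 : 2 ≤ p ^ r₁ := by omega
  have hQs : (p ^ r₁) ^ s - 1 = Fintype.card B := by
    rw [hB, hs, pow_mul]
  have hs1 : s = 1 := by
    apply lte hQ2 hs0
    · intro ℓ' hℓ' hd
      rw [hQs] at hd
      have : Fact ℓ'.Prime := ⟨hℓ'⟩
      obtain ⟨y, hy⟩ := exists_prime_orderOf_dvd_card ℓ' hd
      rw [← hy, ← hr₁]
      exact orderOf_dvd_iff_pow_eq_one.2 (hkill y)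
    · intro hd
      rw [hQs] at hd ⊢
      have hp2' : p ≠ 2 := by
        rintro rfl
        rw [hB] at hd
        have h3 : 2 ∣ 2 ^ k := dvd_pow_self 2 (by omega)
        omega
      have hinv' := hinv hp2'
      have : Fact (Nat.Prime 2) := ⟨Nat.prime_two⟩
      obtain ⟨S₂⟩ : Nonempty (Sylow 2 B) := inferInstance
      rw [← hr₁]
      set v := N₁.factorization 2 with hv
      have hS₂ : ∀ y ∈ S₂, y ^ (2 ^ v) = 1 := by
        intro y hy
        obtain ⟨a, ha⟩ := (IsPGroup.iff_orderOf.1 S₂.2) ⟨y, hy⟩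
        rw [Subgroup.orderOf_mk] at ha
        have h3 : orderOf y ∣ N₁ := orderOf_dvd_iff_pow_eq_one.2 (hkill y)
        rw [ha, Nat.prime_two.pow_dvd_iff_le_factorization hN₁pos.ne'] at h3
        rw [← orderOf_dvd_iff_pow_eq_one, ha]
        exact pow_dvd_pow 2 h3
      have h4 : Nat.card S₂ ≤ 2 ^ v := by
        refine le_trans ?_ (card_two_pow hinv' v)
        have h5 : Nat.card S₂ = (univ.filter (fun y : B => y ∈ S₂)).card := by
          rw [← Fintype.card_subtype, ← Nat.card_eq_fintype_card]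
          rfl
        rw [h5]
        apply card_le_card
        intro y hy
        rw [mem_filter] at hy ⊢
        exact ⟨mem_univ _, hS₂ y hy.2⟩
      rw [Sylow.card_eq_multiplicity, Nat.card_eq_fintype_card] at h4
      exact (Nat.pow_le_pow_iff_right (by omega)).1 h4
  refine ⟨γ₁, hγ₁, ?_⟩
  rw [← hN₁, hr₁, hB, hs, hs1, mul_one]

end

end Pool.Agent.Lib.Helper3.TypeF
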