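import Mathlib
import Pool.Agent.Lib.Helper3.TypeF.Image
import Pool.Agent.Lib.Helper3.TypeF.NumTh
import Pool.Agent.Lib.Helper3.TypeF.Const

/-! # Assembly of the algebraic part, `k ≥ 2` -/

set_option autoImplicit false

namespace Pool.Agent.Lib.Helper3.TypeF

open Finset

section
variable {A B : Type*} [AddCommGroup A] [CommGroup B] [Fintype A] [Fintype B]
  {f : B → A} {p : ℕ} [hp : Fact p.Prime] [Module (ZMod p) A]
  {F : Type*} [Field F] [Fintype F] [DecidableEq F] [Algebra (ZMod p) F] [CharP F p]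

/-- The order of the image of a character in the support is `p ^ r - 1`. -/
theorem card_range_eq (hf : DPD f)
    (hcard : Fintype.card A = Fintype.card B + 1) {k : ℕ} (hk : Fintype.card A = p ^ k)
    (γ : B →* Fˣ) (hγ : w f γ ≠ (0 : V p A →ₗ[ZMod p] F)) :
    ∃ r, Nat.card γ.range = p ^ r - 1 ∧ Nat.card (LinearMap.range (w (p := p) f γ)) = p ^ r := by
  classical
  set R := LinearMap.range (w (p := p) f γ) with hR
  have hRc : Nat.card R = p ^ Module.finrank (ZMod p) R := by
    rw [Nat.card_eq_fintype_card, Module.card_eq_pow_finrank (K := ZMod p) (V := R), ZMod.card]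
  refine ⟨Module.finrank (ZMod p) R, ?_, hRc⟩
  rw [← hRc]
  have him := image_eq (F := F) hf hcard hk γ hγ
  let g : Option γ.range → R := fun o => o.elim 0 (fun x => ⟨((x : Fˣ) : F), (by
    obtain ⟨x, b, hb⟩ := x
    obtain ⟨α, hα⟩ := (him x).1 ⟨b, hb⟩
    exact ⟨α, hα⟩)⟩)
  have hg : Function.Bijective g := by
    constructor
    · intro o o' h
      cases o with
      | none =>
        cases o' with
        | none => rfl
        | some x' =>
          exfalso
          have h1 : (0 : F) = ((x' : Fˣ) : F) := congrArg Subtype.val h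
          exact (x' : Fˣ).ne_zero h1.symm
      | some x =>
        cases o' with
        | none =>
          exfalso
          have h1 : ((x : Fˣ) : F) = 0 := congrArg Subtype.val h
          exact (x : Fˣ).ne_zero h1
        | some x' =>
          have h1 : ((x : Fˣ) : F) = ((x' : Fˣ) : F) := congrArg Subtype.val h
          congr 1
          exact Subtype.ext (Units.ext h1)
    · rintro ⟨y, α, hα⟩
      by_cases hy : y = 0
      · exact ⟨none, Subtype.ext hy.symm⟩
      · obtain ⟨b, hb⟩ := (him (Units.mk0 y hy)).2 ⟨α, hα⟩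
        exact ⟨some ⟨Units.mk0 y hy, ⟨b, hb⟩⟩, Subtype.ext rfl⟩
  have h1 := Nat.card_eq_of_bijective g hg
  rw [Finite.card_option] at h1
  omega

/-- There is a bijective character with bijective Fourier coefficient. -/
theorem exists_good (hf : DPD f)
    (hcard : Fintype.card A = Fintype.card B + 1) {k : ℕ} (hk : Fintype.card A = p ^ k)
    (hk2 : 2 ≤ k) (hF : Fintype.card F = p ^ k) :
    ∃ γ : B →* Fˣ, Function.Bijective γ ∧ Function.Bijective (w (p := p) (F := F) f γ) := by
  classical
  have hp2 := hp.out.two_le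
  have hFB : Fintype.card F = Fintype.card B + 1 := by rw [hF, ← hk, hcard]
  have hBk : Fintype.card B = p ^ k - 1 := by rw [← hk, hcard, Nat.add_sub_cancel]
  have := enough_roots (B := B) (F := F) hFB
  have hfinT : Finite (B →* Fˣ) := inferInstance
  have hFfin : Finite (V p A) := Module.finite_of_finite (ZMod p)
  have : Fintype (V p A) := Fintype.ofFinite _
  -- a nonzero functional
  have hVc : Fintype.card (V p A) = p ^ k := by rw [card_V, hk]
  obtain ⟨α₀, hα₀⟩ : ∃ α₀ : V p A, α₀ ≠ 0 := by
    apply Fintype.exists_ne_of_one_lt_card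
    rw [hVc]
    exact Nat.one_lt_pow (by omega) (by omega)
  obtain ⟨γ, hγ, hγc⟩ := exists_faithful (B := B) (M := Fˣ) hp.out hk2 hBk
    {γ : B →* Fˣ | w f γ ≠ (0 : V p A →ₗ[ZMod p] F)} (Set.toFinite _)
    (fun γ hγ => by
      obtain ⟨r, hr, _⟩ := card_range_eq hf hcard hk γ hγ
      exact ⟨r, hr⟩)
    (fun d hd => by
      obtain ⟨γ, h1, h2⟩ := exists_char (F := F) hf hcard hFB hα₀ hd
      exact ⟨γ, fun h => h1 (by rw [h]; rfl), h2⟩)
    (fun e => by
      obtain ⟨i, hi⟩ := card_fix (p := p) hf hcard hk e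
      refine ⟨i, ?_⟩
      rw [← hi]
      congr 1
      have h1 : Nat.card ((powMonoidHom (p ^ e - 1) : B →* B).ker) =
          (univ.filter (fun y : B => y ∈ (powMonoidHom (p ^ e - 1) : B →* B).ker)).card := by
        rw [← Fintype.card_subtype, ← Nat.card_eq_fintype_card]
      rw [h1]
      congr 1
      ext y
      simp only [mem_filter, mem_univ, true_and, MonoidHom.mem_ker, powMonoidHom_apply]
      have h2 : 1 ≤ p ^ e := Nat.one_le_pow _ _ (by omega)
      have h3 : y ^ (p ^ e) = y ^ (p ^ e - 1) * y := by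
        rw [← pow_succ, Nat.sub_add_cancel h2]
      rw [h3]
      exact mul_eq_right.symm)
    (fun hne d d' h1 h2 h3 h4 => involution_unique (p := p) hf hcard hk hne h1 h2 h3 h4)
  have hγ' : w f γ ≠ (0 : V p A →ₗ[ZMod p] F) := hγ
  have hcB : Fintype.card Fˣ = Fintype.card B := by
    rw [Fintype.card_units, hFB, Nat.add_sub_cancel]
  have hsurj : Function.Surjective γ := by
    rw [← MonoidHom.range_eq_top]
    apply Subgroup.eq_top_of_card_eq
    rw [hγc, Nat.card_eq_fintype_card, hcB]
  refine ⟨γ, (Fintype.bijective_iff_surjective_and_card γ).2 ⟨hsurj, hcB.symm⟩, ?_⟩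
  have hws : Function.Surjective (w (p := p) (F := F) f γ) := by
    intro y
    by_cases hy : y = 0
    · exact ⟨0, by rw [hy, map_zero]⟩
    · obtain ⟨b, hb⟩ := hsurj (Units.mk0 y hy)
      obtain ⟨α, hα⟩ := (image_eq (F := F) hf hcard hk γ hγ' (Units.mk0 y hy)).1 ⟨b, hb⟩
      exact ⟨α, hα⟩
  exact (Fintype.bijective_iff_surjective_and_card _).2 ⟨hws, by rw [hVc, hF]⟩

theorem core_big (hf : DPD f)
    (hcard : Fintype.card A = Fintype.card B + 1) {k : ℕ} (hk : Fintype.card A = p ^ k)
    (hk2 : 2 ≤ k) (hF : Fintype.card F = p ^ k) :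
    ∃ (γ : B ≃* Fˣ) (θ : A ≃+ F), ∀ b, θ (f b) = (γ b : F) := by
  classical
  have hp2 := hp.out.two_le
  have hFB : Fintype.card F = Fintype.card B + 1 := by rw [hF, ← hk, hcard]
  have hFF : Fintype.card F = Fintype.card Fˣ + 1 := by
    rw [Fintype.card_units, Nat.sub_add_cancel Fintype.card_pos]
  have : Module.Finite (ZMod p) A := Module.Finite.of_finite
  have : FiniteDimensional (ZMod p) F := Module.Finite.of_finite
  obtain ⟨γ, hγb, hwb⟩ := exists_good (F := F) hf hcard hk hk2 hF
  let e : B ≃* Fˣ := MulEquiv.ofBijective γ hγb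
  have heγ : ∀ b, e b = γ b := fun _ => rfl
  let W : V p A ≃ₗ[ZMod p] F := LinearEquiv.ofBijective (w f γ) hwb
  have hWw : ∀ α, W α = w f γ α := fun _ => rfl
  have hnd := traceForm_nondegenerate (ZMod p) F
  let τ : F ≃ₗ[ZMod p] Module.Dual (ZMod p) F := LinearMap.BilinForm.toDual _ hnd
  have hτ : ∀ x y : F, τ x y = Algebra.trace (ZMod p) F (x * y) := by
    intro x y
    rw [← Algebra.traceForm_apply]
    exact LinearMap.BilinForm.toDual_def hnd
  let Θ : A ≃ₗ[ZMod p] F := (Module.evalEquiv (ZMod p) A).trans (W.symm.dualMap.trans τ.symm)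
  have hΘ : ∀ (α : V p A) (y : A), α y = Algebra.trace (ZMod p) F (W α * Θ y) := by
    intro α y
    rw [mul_comm, ← hτ]
    have h1 : τ (Θ y) = W.symm.dualMap (Module.evalEquiv (ZMod p) A y) := by
      simp only [Θ, LinearEquiv.trans_apply, LinearEquiv.apply_symm_apply]
    rw [h1, LinearEquiv.dualMap_apply, LinearEquiv.symm_apply_apply, Module.evalEquiv_apply]
    rfl
  let T : F →+ ZMod p := (Algebra.trace (ZMod p) F).toAddMonoidHom
  have hTdef : ∀ x, T x = Algebra.trace (ZMod p) F x := fun _ => rfl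
  have hT : ∀ d, (∀ c, T (c * d) = 0) → d = 0 := by
    intro d hd
    have h1 : τ d = 0 := by
      ext c
      rw [hτ, mul_comm, ← hTdef, hd]; rfl
    exact (LinearEquiv.map_eq_zero_iff τ).1 h1
  have hTp : ∀ x, T (x ^ p) = T x := by
    intro x
    have h1 := Algebra.trace_eq_of_algEquiv
      (FiniteField.frobeniusAlgEquivOfAlgebraic (ZMod p) F) x
    rw [FiniteField.coe_frobeniusAlgEquivOfAlgebraic, ZMod.card] at h1
    exact h1
  obtain ⟨φ, hφ⟩ : ∃ φ : Fˣ → F, ∀ x, φ x = Θ (f (e.symm x)) := ⟨_, fun _ => rfl⟩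
  have hφD : DPD φ := by
    constructor
    · intro x
      rw [hφ]
      intro h
      exact hf.ne_zero _ ((LinearEquiv.map_eq_zero_iff Θ).1 h)
    · intro x y h
      rw [hφ, hφ] at h
      exact e.symm.injective (hf.inj (Θ.injective h))
    · intro x hx y z h
      simp only [hφ, map_mul, ← map_sub] at h
      have h1 : e.symm x ≠ 1 := by
        intro h2
        apply hx
        have := congrArg e h2
        rwa [e.apply_symm_apply, map_one] at this
      exact e.symm.injective (hf.diff _ h1 (Θ.injective h))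
  have hTφ : ∀ (w : F) (x : Fˣ), T (w * φ x) = (W.symm w) (f (e.symm x)) := by
    intro w x
    rw [hΘ, LinearEquiv.apply_symm_apply, hφ, hTdef]
  have hbij : Function.Bijective (fun y : B => y ^ p) :=
    Finite.injective_iff_bijective.1 (pow_injective_of_coprime (card_pow_facts hcard hk).2)
  have h1 : ∀ t b : Fˣ, t ^ (p - 1) = 1 → φ (t * b) = t * φ b := by
    intro t b ht
    obtain ⟨t', ht'0, ht'⟩ := mem_prime_field (p := p) (F := F) (x := (t : F))
      (by rw [← Units.val_pow_eq_pow_val, ht, Units.val_one])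
    have h2 : φ (t * b) - t * φ b = 0 := by
      apply hT
      intro c
      by_cases hc : c = 0
      · rw [hc, zero_mul, map_zero]
      obtain ⟨h, hh⟩ := mult hf hcard hk (W.symm c) ht'0 0
      simp only [pow_zero, pow_one] at hh
      have h3 := w_mul (F := F) γ hh
      rw [← hWw, LinearEquiv.apply_symm_apply] at h3
      have h4 : (γ h : F) = (t : F) := by rw [← ht']; exact mul_right_cancel₀ hc h3
      have h5 : e.symm t = h := by
        rw [MulEquiv.symm_apply_eq, heγ]
        exact Units.ext h4.symm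
      have h6 : c * (t * φ b) = t' • (c * φ b) := by
        rw [Algebra.smul_def, ht']; ring
      rw [mul_sub, map_sub, hTφ, map_mul, h5, hh, h6]
      have h7 : T (t' • (c * φ b)) = t' * T (c * φ b) := by
        rw [hTdef, hTdef, map_smul, smul_eq_mul]
      rw [h7, hTφ, sub_self]
    exact sub_eq_zero.1 h2
  have h2 : ∀ u b : Fˣ, T (u * φ (u ^ (p - 1) * b ^ p)) = T (u * φ b) := by
    intro u b
    obtain ⟨c, hc⟩ := mult hf hcard hk (W.symm (u : F)) one_ne_zero 1
    simp only [pow_one, one_mul] at hc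
    have h3 := w_pow (F := F) γ hc hbij
    rw [← hWw, LinearEquiv.apply_symm_apply] at h3
    have h4 : (u : F) ^ p = (u : F) ^ (p - 1) * u := by
      rw [← pow_succ, Nat.sub_add_cancel hp.out.one_le]
    rw [h4] at h3
    have h5 : e.symm (u ^ (p - 1)) = c := by
      rw [MulEquiv.symm_apply_eq, heγ]
      apply Units.ext
      rw [Units.val_pow_eq_pow_val]
      exact mul_right_cancel₀ u.ne_zero h3
    rw [hTφ, hTφ, map_mul, h5, map_pow, hc]
  have hv : ∑ b : Fˣ, φ b * ((b⁻¹ : Fˣ) : F) ≠ 0 := by
    intro hzero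
    have h3 : ∀ x : F, -∑ b : Fˣ, algebraMap (ZMod p) F (T (x * φ b)) * ((b⁻¹ : Fˣ) : F) = x := by
      intro x
      have h4 : w f γ (W.symm x) = x := by rw [← hWw, LinearEquiv.apply_symm_apply]
      rw [← Equiv.sum_comp e.toEquiv]
      nth_rewrite 2 [← h4]
      rw [w_apply]
      congr 1
      refine sum_congr rfl fun b _ => ?_
      rw [hTφ]
      have h5 : e.toEquiv b = e b := rfl
      rw [h5, e.symm_apply_apply, heγ, map_inv]
    have hfr : Module.finrank (ZMod p) F = k := by
      have h4 := Module.card_eq_pow_finrank (K := ZMod p) (V := F)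
      rw [ZMod.card, hF] at h4
      exact (Nat.pow_right_injective hp2 h4).symm
    obtain ⟨cf, hcf⟩ : ∃ cf : ℕ → F, ∀ i, cf i = -∑ b : Fˣ, φ b ^ (p ^ i) * ((b⁻¹ : Fˣ) : F) :=
      ⟨_, fun _ => rfl⟩
    have hc0 : cf 0 = 0 := by
      rw [hcf]
      simp only [pow_zero, pow_one]
      rw [hzero, neg_zero]
    have h4 : ∀ x : F, ∑ i ∈ range k, cf i * x ^ (p ^ i) = x := by
      intro x
      conv_rhs => rw [← h3 x]
      have h5 : ∀ b : Fˣ, algebraMap (ZMod p) F (T (x * φ b)) * ((b⁻¹ : Fˣ) : F) =
          ∑ i ∈ range k, φ b ^ (p ^ i) * ((b⁻¹ : Fˣ) : F) * x ^ (p ^ i) := by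
        intro b
        rw [hTdef, FiniteField.algebraMap_trace_eq_sum_pow, hfr, Nat.card_zmod, sum_mul]
        refine sum_congr rfl fun i _ => ?_
        rw [mul_pow]; ring
      simp_rw [h5]
      rw [sum_comm, ← sum_neg_distrib]
      refine sum_congr rfl fun i _ => ?_
      rw [hcf, ← sum_mul, neg_mul]
    let Q : Polynomial F := ∑ i ∈ range k, Polynomial.C (cf i) * Polynomial.X ^ (p ^ i) -
      Polynomial.X
    have hQ : Q = 0 := by
      apply Polynomial.eq_zero_of_natDegree_lt_card_of_eval_eq_zero' Q univ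
      · intro x _
        simp only [Q, Polynomial.eval_sub, Polynomial.eval_finsetSum, Polynomial.eval_mul,
          Polynomial.eval_C, Polynomial.eval_pow, Polynomial.eval_X]
        rw [h4, sub_self]
      · rw [card_univ, hF]
        have h5 : p ^ (k - 1) < p ^ k := Nat.pow_lt_pow_right (by omega) (by omega)
        refine lt_of_le_of_lt ?_ h5
        apply (Polynomial.natDegree_sub_le _ _).trans
        apply max_le
        · apply Polynomial.natDegree_sum_le_of_forall_le
          intro i hi
          rw [mem_range] at hi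
          refine (Polynomial.natDegree_C_mul_X_pow_le _ _).trans ?_
          exact Nat.pow_le_pow_right (by omega) (by omega)
        · rw [Polynomial.natDegree_X]
          exact Nat.one_le_pow _ _ (by omega)
    have h5 := congrArg (fun P : Polynomial F => P.coeff 1) hQ
    simp only [Q, Polynomial.coeff_sub, Polynomial.finsetSum_coeff, Polynomial.coeff_C_mul,
      Polynomial.coeff_X_pow, Polynomial.coeff_X_one, Polynomial.coeff_zero] at h5
    rw [sum_eq_zero, zero_sub] at h5
    · exact neg_ne_zero.2 one_ne_zero h5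
    · intro i hi
      by_cases hi0 : i = 0
      · rw [hi0, hc0, zero_mul]
      · rw [if_neg, mul_zero]
        intro h6
        have h7 : 1 < p ^ i := Nat.one_lt_pow hi0 (by omega)
        omega
  obtain ⟨c, hc0, hc⟩ := linear_of_funcEq hk2 hF φ hφD T hT hTp h1 h2 hv
  have hc' : ∀ b : B, Θ (f b) = c * (γ b : F) := by
    intro b
    have h3 := hc (e b)
    rw [hφ, e.symm_apply_apply] at h3
    exact h3
  refine ⟨e, Θ.toAddEquiv.trans
    { toFun := fun x => c⁻¹ * x
      invFun := fun x => c * x
      left_inv := fun x => mul_inv_cancel_left₀ hc0 x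
      right_inv := fun x => inv_mul_cancel_left₀ hc0 x
      map_add' := fun x y => mul_add _ _ _ }, fun b => ?_⟩
  change c⁻¹ * Θ (f b) = _
  rw [hc', inv_mul_cancel_left₀ hc0]
  rfl

end

end Pool.Agent.Lib.Helper3.TypeF
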