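import Mathlib
import Pool.Agent.Lib.Helper3.TypeF.Basic

/-! # The group `A` is elementary abelian -/

set_option autoImplicit false

namespace Pool.Agent.Lib.Helper3.TypeF

open Finset

section Elem
variable {A B : Type*} [AddCommGroup A] [CommGroup B] [Fintype A] [Fintype B]
  {f : B → A} (p : ℕ) [hp : Fact p.Prime]


/-- basis element -/
noncomputable def δ (a : A) (b : B) : MonoidAlgebra (ZMod p) (Multiplicative A × B) :=
  MonoidAlgebra.single (Multiplicative.ofAdd a, b) 1

omit [Fintype A] [Fintype B] in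
theorem δ_mul (a a' : A) (b b' : B) : δ p a b * δ p a' b' = δ p (a + a') (b * b') := by
  simp [δ, MonoidAlgebra.single_mul_single]

omit [Fintype A] [Fintype B] in
theorem δ_zero_one : δ p (0 : A) (1 : B) = 1 := rfl

omit [Fintype A] [Fintype B] in
theorem δ_pow (a : A) (b : B) (n : ℕ) : δ p a b ^ n = δ p (n • a) (b ^ n) := by
  simp [δ, MonoidAlgebra.single_pow]

variable (f) in
/-- the difference set -/
noncomputable def Dd : MonoidAlgebra (ZMod p) (Multiplicative A × B) := ∑ b, δ p (f b) b

variable (f) in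
/-- the inverse of the difference set -/
noncomputable def Dm : MonoidAlgebra (ZMod p) (Multiplicative A × B) := ∑ b, δ p (-f b) b⁻¹

variable (A B) in
/-- sum of all elements -/
noncomputable def GG : MonoidAlgebra (ZMod p) (Multiplicative A × B) := ∑ a : A, ∑ b : B, δ p a b

variable (A B) in
/-- sum of `A` -/
noncomputable def AA : MonoidAlgebra (ZMod p) (Multiplicative A × B) := ∑ a : A, δ p a (1 : B)

variable (A B) in
/-- sum of `B` -/
noncomputable def BB : MonoidAlgebra (ZMod p) (Multiplicative A × B) := ∑ b : B, δ p (0 : A) b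

theorem δ_mul_GG (a : A) (b : B) : δ p a b * GG A B p = GG A B p := by
  unfold GG
  rw [mul_sum]
  conv_rhs => rw [← Equiv.sum_comp (Equiv.addLeft a)]
  refine sum_congr rfl fun a' _ => ?_
  rw [mul_sum]
  conv_rhs => rw [← Equiv.sum_comp (Equiv.mulLeft b)]
  refine sum_congr rfl fun b' _ => ?_
  rw [δ_mul]; rfl

theorem Dd_mul_GG (hN : (Fintype.card B : ZMod p) = -1) : Dd f p * GG A B p = -GG A B p := by
  unfold Dd
  rw [sum_mul]
  simp_rw [δ_mul_GG]
  rw [sum_const, card_univ, nsmul_eq_mul]
  have : ((Fintype.card B : ℕ) : MonoidAlgebra (ZMod p) (Multiplicative A × B)) = -1 := by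
    have h := congrArg (algebraMap (ZMod p) (MonoidAlgebra (ZMod p) (Multiplicative A × B))) hN
    rwa [map_natCast, map_neg, map_one] at h
  rw [this, neg_one_mul]

theorem Dd_mul_AA : Dd f p * AA A B p = GG A B p := by
  unfold Dd AA GG
  rw [sum_mul_sum, sum_comm (s := univ (α := A)) (t := univ (α := B))]
  refine sum_congr rfl fun b _ => ?_
  rw [← Equiv.sum_comp (Equiv.addLeft (f b)) (fun a => δ p a b)]
  refine sum_congr rfl fun a _ => ?_
  rw [δ_mul, mul_one]; rfl

variable (hf : DPD f) (hcard : Fintype.card A = Fintype.card B + 1)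
include hf hcard

theorem Dd_mul_BB : Dd f p * BB A B p = GG A B p - BB A B p := by
  have h1 : Dd f p * BB A B p = ∑ b, (∑ b' : B, δ p (f b) b') := by
    unfold Dd BB
    rw [sum_mul_sum]
    refine sum_congr rfl fun b _ => ?_
    rw [← Equiv.sum_comp (Equiv.mulLeft b) (fun b' => δ p (f b) b')]
    refine sum_congr rfl fun b' _ => ?_
    rw [δ_mul, add_zero]; rfl
  rw [h1, hf.sum_f hcard (fun a => ∑ b' : B, δ p a b')]
  rfl

theorem Dd_mul_Dm (hN : (Fintype.card B : ZMod p) = -1) :
    Dd f p * Dm f p = GG A B p - AA A B p - BB A B p := by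
  classical
  have h1 : Dd f p * Dm f p = ∑ b, ∑ c, δ p (f (b * c) - f c) b := by
    unfold Dd Dm
    rw [sum_mul_sum, sum_comm]
    conv_rhs => rw [sum_comm]
    refine sum_congr rfl fun c _ => ?_
    rw [← Equiv.sum_comp (Equiv.mulRight c) (fun b => δ p (f b) b * δ p (-f c) c⁻¹)]
    refine sum_congr rfl fun b _ => ?_
    rw [δ_mul]
    simp only [Equiv.coe_mulRight, mul_inv_cancel_right]
    rw [sub_eq_add_neg]
  have h2 : ∀ b : B, ∑ c, δ p (f (b * c) - f c) b =
      (∑ a, δ p a b - δ p 0 b) - if b = 1 then (∑ a : A, δ p a (1 : B)) else 0 := by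
    intro b
    split_ifs with hb
    · subst hb
      have h3 : ∀ c : B, δ p (f (1 * c) - f c) (1 : B) = 1 := by
        intro c; rw [one_mul, sub_self, δ_zero_one]
      simp_rw [h3]
      rw [sum_const, card_univ, nsmul_eq_mul, mul_one, δ_zero_one]
      have : ((Fintype.card B : ℕ) : MonoidAlgebra (ZMod p) (Multiplicative A × B)) = -1 := by
        have h := congrArg (algebraMap (ZMod p) (MonoidAlgebra (ZMod p) (Multiplicative A × B))) hN
        rwa [map_natCast, map_neg, map_one] at h
      rw [this]; ring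
    · have h3 := hf.sum_diff hcard hb (fun a => δ p a b)
      rw [sub_zero, ← h3]
      refine sum_congr rfl fun c _ => ?_
      rw [mul_comm b c, mul_one]
  rw [h1]
  simp_rw [h2]
  rw [sum_sub_distrib, sum_sub_distrib]
  unfold GG AA BB
  rw [sum_comm (s := univ (α := B))]
  simp only [sum_ite_eq', mem_univ, if_true]
  ring

theorem Dd_pow_mul_Dm (hN : (Fintype.card B : ZMod p) = -1) (j : ℕ) :
    Dd f p ^ (j + 2) * Dm f p = (-1) ^ (j + 1) * (((j + 3 : ℕ)) * GG A B p - BB A B p) := by
  induction j with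
  | zero =>
    rw [zero_add, pow_two, mul_assoc, Dd_mul_Dm p hf hcard hN, mul_sub, mul_sub, Dd_mul_GG p hN,
      Dd_mul_AA, Dd_mul_BB p hf hcard]
    push_cast
    ring
  | succ j ih =>
    have h1 : Dd f p ^ (j + 1 + 2) * Dm f p = Dd f p * (Dd f p ^ (j + 2) * Dm f p) := by ring
    rw [h1, ih]
    have h2 : Dd f p * ((-1) ^ (j + 1) * (((j + 3 : ℕ)) * GG A B p - BB A B p)) =
        (-1) ^ (j + 1) * ((j + 3 : ℕ) * (Dd f p * GG A B p) - Dd f p * BB A B p) := by ring
    rw [h2, Dd_mul_GG p hN, Dd_mul_BB p hf hcard]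
    push_cast
    ring

/-- the counting map -/
theorem Dd_pow_p_mul_Dm (hN : (Fintype.card B : ZMod p) = -1) :
    ∑ b, ∑ c, δ p (p • f b - f c) (b ^ p * c⁻¹) = GG A B p - BB A B p := by
  have h1 : Dd f p ^ p * Dm f p = ∑ b, ∑ c, δ p (p • f b - f c) (b ^ p * c⁻¹) := by
    have : CharP (MonoidAlgebra (ZMod p) (Multiplicative A × B)) p :=
      charP_of_injective_algebraMap (algebraMap (ZMod p) _).injective p
    unfold Dd Dm
    rw [sum_pow_char]
    simp_rw [δ_pow]
    rw [sum_mul_sum]
    refine sum_congr rfl fun b _ => sum_congr rfl fun c _ => ?_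
    rw [δ_mul, sub_eq_add_neg]
  rw [← h1]
  obtain ⟨j, hj⟩ : ∃ j, p = j + 2 := ⟨p - 2, by have := hp.out.two_le; omega⟩
  have h2 := Dd_pow_mul_Dm p hf hcard hN j
  have h3 : ((j + 3 : ℕ) : MonoidAlgebra (ZMod p) (Multiplicative A × B)) = 1 := by
    have h4 : ((j + 3 : ℕ) : ZMod p) = 1 := by
      have : j + 3 = p + 1 := by omega
      rw [this]; push_cast; simp
    have h := congrArg (algebraMap (ZMod p) (MonoidAlgebra (ZMod p) (Multiplicative A × B))) h4
    rwa [map_natCast, map_one] at h
  have h5 : (-1 : MonoidAlgebra (ZMod p) (Multiplicative A × B)) ^ (j + 1) = 1 := by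
    have h4 : (-1 : ZMod p) ^ (j + 1) = 1 := by
      have : j + 1 = p - 1 := by omega
      rw [this]
      exact ZMod.pow_card_sub_one_eq_one (neg_ne_zero.2 one_ne_zero)
    have h := congrArg (algebraMap (ZMod p) (MonoidAlgebra (ZMod p) (Multiplicative A × B))) h4
    rwa [map_pow, map_neg, map_one] at h
  rw [h3, h5, one_mul, one_mul] at h2
  have h6 : Dd f p ^ p = Dd f p ^ (j + 2) := by congr 1
  rw [h6, h2]

omit [Fintype A] [Fintype B] hf hcard in
theorem δ_coeff [DecidableEq A] [DecidableEq B] (a a' : A) (b b' : B) :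
    (δ p a b).coeff (Multiplicative.ofAdd a', b') = if a = a' ∧ b = b' then 1 else 0 := by
  classical
  unfold δ
  rw [MonoidAlgebra.coeff_single, Finsupp.single_apply]
  congr 1
  rw [Prod.mk.injEq, Multiplicative.ofAdd.injective.eq_iff]

theorem image_all (hN : (Fintype.card B : ZMod p) = -1) (a : A) (ha : a ≠ 0) (β : B) :
    ∃ b c : B, p • f b - f c = a ∧ b ^ p * c⁻¹ = β := by
  classical
  by_contra hcon
  push Not at hcon
  have h1 := congrArg (fun x : MonoidAlgebra (ZMod p) (Multiplicative A × B) =>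
    x.coeff (Multiplicative.ofAdd a, β)) (Dd_pow_p_mul_Dm p hf hcard hN)
  simp only [MonoidAlgebra.coeff_sum, Finsupp.finsetSum_apply, MonoidAlgebra.coeff_sub,
    Finsupp.sub_apply, GG, BB, δ_coeff] at h1
  rw [sum_eq_zero] at h1
  · rw [sum_eq_single a, sum_eq_single β] at h1
    · rw [if_pos ⟨rfl, rfl⟩, sum_eq_zero] at h1
      · rw [sub_zero] at h1
        exact zero_ne_one h1
      · intro b _
        rw [if_neg (fun h => ha h.1.symm)]
    · intro b _ hb
      rw [if_neg (fun h => hb h.2)]
    · intro h; exact absurd (mem_univ _) h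
    · intro a' _ ha'
      apply sum_eq_zero
      intro b _
      rw [if_neg (fun h => ha' h.1)]
    · intro h; exact absurd (mem_univ _) h
  · intro b _
    apply sum_eq_zero
    intro c _
    rw [if_neg (fun h => hcon b c h.1 h.2)]

theorem p_smul_f_ne (hN : (Fintype.card B : ZMod p) = -1) (b c : B) : p • f b - f c ≠ 0 := by
  classical
  intro h0
  -- the image of `(b, c) ↦ (p f b - f c, b ^ p c⁻¹)` contains all `(a, β)` with `a ≠ 0`
  let F : B × B → A × B := fun x => (p • f x.1 - f x.2, x.1 ^ p * x.2⁻¹)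
  have h1 : insert (F (b, c)) ((univ.erase (0 : A)) ×ˢ (univ : Finset B)) ⊆ univ.image F := by
    intro x hx
    rcases mem_insert.1 hx with rfl | hx
    · exact mem_image_of_mem _ (mem_univ _)
    · obtain ⟨hx1, _⟩ := mem_product.1 hx
      obtain ⟨b', c', h2, h3⟩ := image_all p hf hcard hN x.1 (mem_erase.1 hx1).1 x.2
      refine mem_image.2 ⟨(b', c'), mem_univ _, ?_⟩
      exact Prod.ext h2 h3
  have h2 := card_le_card h1
  rw [card_insert_of_notMem] at h2
  · rw [card_product, card_erase_of_mem (mem_univ _), card_univ, card_univ, hcard,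
      Nat.add_sub_cancel] at h2
    have h3 : (univ.image F).card ≤ Fintype.card B * Fintype.card B := by
      refine card_image_le.trans ?_
      rw [card_univ, Fintype.card_prod]
    omega
  · intro h3
    obtain ⟨h4, _⟩ := mem_product.1 h3
    exact (mem_erase.1 h4).1 h0

/-- `A` has exponent `p` for every prime `p` dividing its order. -/
theorem p_smul_eq_zero (hN : (Fintype.card B : ZMod p) = -1) (a : A) : p • a = 0 := by
  by_cases ha : a = 0
  · rw [ha, smul_zero]
  obtain ⟨b, rfl⟩ := hf.surj hcard ha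
  by_contra h
  obtain ⟨c, hc⟩ := hf.surj hcard h
  exact p_smul_f_ne p hf hcard hN b c (by rw [hc, sub_self])

end Elem

section Elem2
variable {A B : Type*} [AddCommGroup A] [CommGroup B] [Fintype A] [Fintype B] {f : B → A}

/-- Part 1: `A` is an elementary abelian `p`-group. -/
theorem elementary (hf : DPD f) (hcard : Fintype.card A = Fintype.card B + 1) :
    ∃ p k : ℕ, p.Prime ∧ k ≠ 0 ∧ Fintype.card A = p ^ k ∧ ∀ a : A, p • a = 0 := by
  have hB : 0 < Fintype.card B := Fintype.card_pos
  obtain ⟨p, hp, hpd⟩ := Nat.exists_prime_and_dvd (n := Fintype.card A) (by omega)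
  have : Fact p.Prime := ⟨hp⟩
  have hN : (Fintype.card B : ZMod p) = -1 := by
    have h1 : ((Fintype.card A : ℕ) : ZMod p) = 0 := (ZMod.natCast_eq_zero_iff _ _).2 hpd
    rw [hcard] at h1
    push_cast at h1
    exact eq_neg_of_add_eq_zero_left h1
  have h1 := p_smul_eq_zero p hf hcard hN
  have h2 : IsPGroup p (Multiplicative A) := by
    intro g
    refine ⟨1, ?_⟩
    rw [pow_one]
    exact h1 (Multiplicative.toAdd g)
  obtain ⟨k, hk⟩ := IsPGroup.iff_card.1 h2
  rw [Nat.card_eq_fintype_card, Fintype.card_multiplicative] at hk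
  refine ⟨p, k, hp, ?_, hk, h1⟩
  rintro rfl
  rw [pow_zero] at hk
  omega

end Elem2

end Pool.Agent.Lib.Helper3.TypeF
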