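import Mathlib
import Pool.Agent.Lib.Helper3.TypeF.CoreBig
import Pool.Agent.Lib.Helper3.TypeF.Elem

/-! # Core theorem (algebraic part) -/

set_option autoImplicit false

namespace Pool.Agent.Lib.Helper3.TypeF

open Finset

theorem core_prime {A B : Type*} [AddCommGroup A] [CommGroup B] [Fintype A] [Fintype B] {f : B → A}
    {p : ℕ} [hp : Fact p.Prime] [Module (ZMod p) A]
    (hf : DPD f) (hcard : Fintype.card A = Fintype.card B + 1) (hk : Fintype.card A = p ^ 1) :
    ∃ (γ : B ≃* (ZMod p)ˣ) (θ : A ≃+ ZMod p), ∀ b, θ (f b) = (γ b : ZMod p) := by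
  classical
  have hfr : Module.finrank (ZMod p) A = 1 := by
    have h4 := Module.card_eq_pow_finrank (K := ZMod p) (V := A)
    rw [ZMod.card, hk] at h4
    exact (Nat.pow_right_injective hp.out.two_le h4).symm
  let θ₀ : A ≃ₗ[ZMod p] ZMod p :=
    LinearEquiv.ofFinrankEq A (ZMod p) (by rw [hfr, Module.finrank_self])
  set s := θ₀ (f 1) with hs
  have hs0 : s ≠ 0 := by
    rw [hs]
    intro h
    exact hf.ne_zero 1 ((LinearEquiv.map_eq_zero_iff θ₀).1 h)
  let θ : A ≃+ ZMod p := θ₀.toAddEquiv.trans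
    { toFun := fun x => s⁻¹ * x
      invFun := fun x => s * x
      left_inv := fun x => mul_inv_cancel_left₀ hs0 x
      right_inv := fun x => inv_mul_cancel_left₀ hs0 x
      map_add' := fun x y => mul_add _ _ _ }
  have hθ : ∀ a, θ a = s⁻¹ * θ₀ a := fun _ => rfl
  have hθ0 : ∀ b, θ (f b) ≠ 0 := by
    intro b h
    exact hf.ne_zero b ((map_eq_zero_iff θ θ.injective).1 h)
  have hθ1 : θ (f 1) = 1 := by rw [hθ, ← hs, inv_mul_cancel₀ hs0]
  have hmul : ∀ b y, θ (f (b * y)) = θ (f b) * θ (f y) := by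
    intro b y
    obtain ⟨h, hh⟩ := mult hf hcard hk (θ₀ : A →ₗ[ZMod p] ZMod p) (hθ0 b) 0
    simp only [pow_zero, pow_one] at hh
    have hh' : ∀ y, θ (f (h * y)) = θ (f b) * θ (f y) := by
      intro y
      have h1 : θ₀ (f (h * y)) = θ (f b) * θ₀ (f y) := hh y
      rw [hθ (f (h * y)), h1, hθ (f y)]; ring
    have h2 := hh' 1
    rw [mul_one, hθ1, mul_one] at h2
    have h3 : h = b := hf.inj (θ.injective h2)
    rw [h3] at hh'
    exact hh' y
  let γ₀ : B →* (ZMod p)ˣ :=
    { toFun := fun b => Units.mk0 (θ (f b)) (hθ0 b)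
      map_one' := Units.ext hθ1
      map_mul' := fun b c => Units.ext (hmul b c) }
  have hinj : Function.Injective γ₀ := by
    intro b c h
    have h1 : θ (f b) = θ (f c) := congrArg Units.val h
    exact hf.inj (θ.injective h1)
  have hc : Fintype.card B = Fintype.card (ZMod p)ˣ := by
    rw [Fintype.card_units, ZMod.card]
    rw [pow_one] at hk
    omega
  exact ⟨MulEquiv.ofBijective γ₀ ((Fintype.bijective_iff_injective_and_card _).2 ⟨hinj, hc⟩), θ,
    fun b => rfl⟩

theorem core {A B : Type} [AddCommGroup A] [CommGroup B] [Fintype A] [Fintype B] {f : B → A}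
    (hf : DPD f) (hcard : Fintype.card A = Fintype.card B + 1) :
    ∃ (F : Type) (_ : Field F) (_ : Fintype F) (γ : B ≃* Fˣ) (θ : A ≃+ F),
      ∀ b, θ (f b) = (γ b : F) := by
  classical
  obtain ⟨p, k, hp, hk0, hk, hpA⟩ := elementary hf hcard
  have : Fact p.Prime := ⟨hp⟩
  let _ : Module (ZMod p) A := AddCommGroup.zmodModule hpA
  by_cases hk1 : k = 1
  · subst hk1
    obtain ⟨γ, θ, h⟩ := core_prime (p := p) hf hcard hk
    exact ⟨ZMod p, inferInstance, inferInstance, γ, θ, h⟩
  · have : Fintype (GaloisField p k) := Fintype.ofFinite _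
    have hF : Fintype.card (GaloisField p k) = p ^ k := by
      rw [← Nat.card_eq_fintype_card, GaloisField.card p k hk0]
    obtain ⟨γ, θ, h⟩ := core_big (p := p) (F := GaloisField p k) hf hcard hk (by omega) hF
    exact ⟨GaloisField p k, inferInstance, this, γ, θ, h⟩

end Pool.Agent.Lib.Helper3.TypeF
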