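import Pool.Agent.Lib.Helper72.TypeFIso
import Pool.Agent.Lib.Helper3.TypeF.Core

/-!
# Assembly: the frozen statement S10599 from `core`
-/

set_option autoImplicit false

namespace Pool.Agent.Lib.Helper3.TypeF

open Pool.H72.TypeF
open Configuration Configuration.ProjectivePlane

variable {P L G : Type} [Fintype P] [Fintype L] [Membership P L]
    [Configuration.ProjectivePlane P L] [CommGroup G] [Fintype G]

/-- There are base elements with `p₀` on the line `b d₀`. -/
theorem exists_base (S : Pool.H72.TypeF.TypeF P L G) : ∃ β : Base S, β.p₀ ∈ β.r₀ := by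
  obtain ⟨m, hma, hmb⟩ := S.exists_m₀
  obtain ⟨q, hq0, hq1⟩ := S.exists_p₀
  let β' : Base S := ⟨q, m, hq0, hq1, hma, hmb⟩
  obtain ⟨p, hp, hpb, hpd⟩ := exists_third β'.r₀ S.b β'.d₀
  have h0 : p ∉ S.l₀ := S.notMem_l₀' β'.b_mem_r₀ β'.r₀_ne_l₀ hp hpb
  have h1 : p ∉ S.l₁ := fun h => hpd (point_eq β'.r₀_ne_l₁ hp β'.d₀_mem_r₀ h β'.d₀_mem_l₁)
  exact ⟨⟨p, m, h0, h1, hma, hmb⟩, hp⟩

section

variable {S : Pool.H72.TypeF.TypeF P L G} (β : Base S)

theorem isCompl_AB : IsCompl β.A β.B := by
  have hc : Nat.Coprime (Nat.card β.A) (Nat.card β.B) := by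
    rw [β.card_A, β.card_B]; exact coprime_order
  have h1 : β.A ⊓ β.B = ⊥ := Subgroup.inf_eq_bot_of_coprime hc
  refine ⟨disjoint_iff.mpr h1, ?_⟩
  rw [codisjoint_iff, ← Subgroup.index_eq_one]
  have hAdvd : Nat.card β.A ∣ Nat.card (β.A ⊔ β.B : Subgroup G) :=
    Subgroup.card_dvd_of_le le_sup_left
  have hBdvd : Nat.card β.B ∣ Nat.card (β.A ⊔ β.B : Subgroup G) :=
    Subgroup.card_dvd_of_le le_sup_right
  have h2 : Nat.card β.A * Nat.card β.B ∣ Nat.card (β.A ⊔ β.B : Subgroup G) :=
    Nat.Coprime.mul_dvd_of_dvd_of_dvd hc hAdvd hBdvd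
  have h3 : Nat.card β.A * Nat.card β.B = Nat.card G := by
    rw [β.card_A, β.card_B, S.card_G]
  rw [h3] at h2
  have h4 := (β.A ⊔ β.B).card_mul_index
  have h5 : Nat.card (β.A ⊔ β.B : Subgroup G) = Nat.card G :=
    Nat.dvd_antisymm (Subgroup.card_subgroup_dvd_card _) h2
  rw [h5] at h4
  have h6 : 0 < Nat.card G := Nat.card_pos
  exact Nat.eq_of_mul_eq_mul_left h6 (by rw [h4, mul_one])

/-- Every element is uniquely a product. -/
theorem exists_prod (g : G) : ∃ (x : β.A) (y : β.B), (x : G) * y = g := by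
  have h : g ∈ β.A ⊔ β.B := by rw [(isCompl_AB β).sup_eq_top]; exact Subgroup.mem_top g
  obtain ⟨x, hx, y, hy, h⟩ := Subgroup.mem_sup.mp h
  exact ⟨⟨x, hx⟩, ⟨y, hy⟩, h⟩

/-- The isomorphism `A × B ≃ G`. -/
noncomputable def prodEquiv : β.A × β.B ≃* G :=
  MulEquiv.ofBijective (MonoidHom.coprod β.A.subtype β.B.subtype) (by
    constructor
    · rw [injective_iff_map_eq_one]
      rintro ⟨x, y⟩ h
      have h' : (x : G) * (y : G) = 1 := h
      have hx : (x : G) = (y : G)⁻¹ := eq_inv_of_mul_eq_one_left h'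
      have h1 : (x : G) ∈ β.A ⊓ β.B := ⟨x.2, by
        show (x : G) ∈ β.B
        rw [hx]; exact inv_mem y.2⟩
      rw [(isCompl_AB β).inf_eq_bot, Subgroup.mem_bot] at h1
      have h2 : (y : G) = 1 := by rw [h1] at h'; simpa using h'
      exact Prod.ext (Subtype.ext h1) (Subtype.ext h2)
    · intro g
      obtain ⟨x, y, h⟩ := exists_prod β g
      exact ⟨(x, y), h⟩)

theorem prodEquiv_apply (q : β.A × β.B) : prodEquiv β q = (q.1 : G) * q.2 := rfl

/-- For every `y ∈ B` exactly one element of `D` has `B`-component `y`. -/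
theorem exists_f (y : β.B) : ∃ x : β.A, (x : G) * y ∈ β.D := by
  classical
  -- the map `D → B`
  let π : β.D → β.B := fun d => ((prodEquiv β).symm (d : G)).2
  have hval : ∀ g : G, (((prodEquiv β).symm g).1 : G) * (((prodEquiv β).symm g).2 : G) = g := by
    intro g
    rw [← prodEquiv_apply, MulEquiv.apply_symm_apply]
  have hinj : Function.Injective π := by
    intro d e hde
    have h1 := hval (d : G)
    have h2 := hval (e : G)
    have h3 : ((prodEquiv β).symm (d : G)).2 = ((prodEquiv β).symm (e : G)).2 := hde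
    rw [h3] at h1
    apply Subtype.ext
    apply β.not_quot_A d.2 e.2
    have key : ∀ (d e u v w : G), u * w = d → v * w = e → d * e⁻¹ = u * v⁻¹ := by
      rintro d e u v w rfl rfl
      group
    rw [key _ _ _ _ _ h1 h2]
    exact mul_mem (SetLike.coe_mem _) (inv_mem (SetLike.coe_mem _))
  have hcard : Nat.card β.D = Nat.card β.B := by rw [β.card_D, β.card_B]
  have hsurj : Function.Surjective π :=
    ((Nat.bijective_iff_injective_and_card π).mpr ⟨hinj, hcard⟩).2
  obtain ⟨d, hd⟩ := hsurj y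
  refine ⟨((prodEquiv β).symm (d : G)).1, ?_⟩
  have h1 := hval (d : G)
  have h3 : ((prodEquiv β).symm (d : G)).2 = y := hd
  rw [h3] at h1
  rw [h1]
  exact d.2

end

theorem geom :
  ∀ (P L : Type) [Fintype P] [Fintype L] [Membership P L] [Configuration.ProjectivePlane P L]
    (G : Type) [CommGroup G] [Fintype G] (φ : G →* Equiv.Perm P) (ψ : G →* Equiv.Perm L)
    (a b : P) (l₀ l₁ : L),
    (∀ (g : G) (p : P) (l : L), p ∈ l ↔ (φ g) p ∈ (ψ g) l) →
    a ≠ b → a ∈ l₀ → b ∈ l₀ → a ∈ l₁ → l₁ ≠ l₀ →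
    (∀ g : G, (φ g) a = a ∧ (φ g) b = b ∧ (ψ g) l₀ = l₀ ∧ (ψ g) l₁ = l₁) →
    Fintype.card G = Configuration.ProjectivePlane.order P L *
      (Configuration.ProjectivePlane.order P L - 1) →
    (∀ p q : P, p ∉ l₀ → p ∉ l₁ → q ∉ l₀ → q ∉ l₁ → ∃! g : G, (φ g) p = q) →
    (∀ l m : L, a ∉ l → b ∉ l → a ∉ m → b ∉ m → ∃! g : G, (ψ g) l = m) →
    ∃ (K : Type) (_ : Field K) (_ : Fintype K)
      (e : P ≃ Projectivization K (Fin 3 → K)) (f : L ≃ Projectivization K (Fin 3 → K)),
      ∀ (p : P) (l : L), p ∈ l ↔ dotProduct (e p).rep (f l).rep = 0 := by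
  intro P L _ _ _ _ G _ _ φ ψ a b l₀ l₁ hinc hab ha0 hb0 ha1 hl hfix hcard hregP hregL
  classical
  let S : Pool.H72.TypeF.TypeF P L G :=
    ⟨φ, ψ, a, b, l₀, l₁, hinc, hab, ha0, hb0, ha1, hl, hfix, hcard, hregP, hregL⟩
  obtain ⟨β, hβ⟩ := exists_base S
  choose f hf using exists_f β
  have hβ1 : (S.φ 1) β.p₀ ∈ β.r₀ := by simpa using hβ
  have hDB : ∀ g ∈ β.D, g ∉ β.B := by
    intro g hg hgB
    apply β.D_r₀ hg
    rw [β.r₀_coset hβ1, one_mul]
    exact inv_mem hgB
  have huniq : ∀ (y : β.B) (x x' : β.A), (x : G) * y ∈ β.D → (x' : G) * y ∈ β.D → x = x' := by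
    intro y x x' h h'
    have h1 : (x : G) * y = x' * y := by
      apply β.not_quot_A h h'
      have : (x : G) * y * ((x' : G) * y)⁻¹ = x * (x' : G)⁻¹ := by group
      rw [this]
      exact mul_mem x.2 (inv_mem x'.2)
    exact Subtype.ext (mul_right_cancel h1)
  let F : β.B → Additive β.A := fun y => Additive.ofMul (f y)
  have hDPD : DPD F := by
    refine ⟨?_, ?_, ?_⟩
    · intro y hy
      have h1 : f y = 1 := hy
      apply hDB _ (hf y)
      rw [h1, Subgroup.coe_one, one_mul]
      exact y.2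
    · intro y y' hyy
      have h1 : f y = f y' := hyy
      have h2 : (f y : G) * y = f y' * y' := by
        apply β.not_quot_B (hf y) (hf y')
        rw [h1]
        have : (f y' : G) * y * ((f y' : G) * y')⁻¹ = y * (y' : G)⁻¹ := by
          rw [mul_inv_rev]
          have : (f y' : G) * y * ((y' : G)⁻¹ * (f y' : G)⁻¹) =
            (f y' : G) * (y * (y' : G)⁻¹) * (f y' : G)⁻¹ := by group
          rw [this, mul_inv_eq_iff_eq_mul, mul_comm]
        rw [this]
        exact mul_mem y.2 (inv_mem y'.2)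
      rw [h1] at h2
      exact Subtype.ext (mul_left_cancel h2)
    · intro y hy x x' hxx
      have h1 : (f (y * x)) * (f x)⁻¹ = (f (y * x')) * (f x')⁻¹ := by
        have : f (y * x) / f x = f (y * x') / f x' := hxx
        rwa [div_eq_mul_inv, div_eq_mul_inv] at this
      by_contra hne
      set z : β.A := (f (y * x)) * (f x)⁻¹ with hz
      -- the element `z * y` of `G`
      have e1 : ((f (y * x) : G) * ((y * x : β.B) : G)) * ((f x : G) * x)⁻¹ = z * y := by
        rw [hz]
        push_cast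
        rw [mul_inv_rev]
        have : (f (y * x) : G) * (y * x) * ((x : G)⁻¹ * (f x : G)⁻¹) =
          (f (y * x) : G) * (y * (f x : G)⁻¹) := by group
        rw [this, mul_comm (y : G)]
        group
      have e2 : ((f (y * x') : G) * ((y * x' : β.B) : G)) * ((f x' : G) * x')⁻¹ = z * y := by
        rw [h1]
        push_cast
        rw [mul_inv_rev]
        have : (f (y * x') : G) * (y * x') * ((x' : G)⁻¹ * (f x' : G)⁻¹) =
          (f (y * x') : G) * (y * (f x' : G)⁻¹) := by group
        rw [this, mul_comm (y : G)]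
        group
      have hyG : (y : G) ≠ 1 := fun h => hy (Subtype.ext h)
      have hA : (z : G) * y ∉ β.A := by
        intro h
        have h2 : (y : G) ∈ β.A := (Subgroup.mul_mem_cancel_left _ z.2).mp h
        have h3 : (y : G) ∈ β.A ⊓ β.B := ⟨h2, y.2⟩
        rw [(isCompl_AB β).inf_eq_bot, Subgroup.mem_bot] at h3
        exact hyG h3
      by_cases hz1 : z = 1
      · -- then `f (y * x) = f x`
        have h2 : f (y * x) = f x := by
          rw [hz] at hz1
          exact mul_inv_eq_one.mp hz1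
        have h3 : (f (y * x) : G) * ((y * x : β.B) : G) = (f x : G) * x := by
          apply β.not_quot_B (hf _) (hf _)
          rw [e1, hz1, Subgroup.coe_one, one_mul]
          exact y.2
        rw [h2] at h3
        have h4 := mul_left_cancel h3
        push_cast at h4
        exact hyG (mul_eq_right.mp h4)
      · have hB : (z : G) * y ∉ β.B := by
          intro h
          have h2 : (z : G) ∈ β.B := (Subgroup.mul_mem_cancel_right _ y.2).mp h
          have h3 : (z : G) ∈ β.A ⊓ β.B := ⟨z.2, h2⟩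
          rw [(isCompl_AB β).inf_eq_bot, Subgroup.mem_bot] at h3
          exact hz1 (Subtype.ext h3)
        have hu := (β.existsUnique_quot hA hB).unique
          (y₁ := ((f (y * x) : G) * ((y * x : β.B) : G), (f x : G) * x))
          (y₂ := ((f (y * x') : G) * ((y * x' : β.B) : G), (f x' : G) * x'))
          ⟨hf _, hf _, e1⟩ ⟨hf _, hf _, e2⟩
        have hu2 : (f x : G) * x = (f x' : G) * x' := congrArg Prod.snd hu
        -- compare components
        have hu3 := (prodEquiv β).injective (a₁ := (f x, x)) (a₂ := (f x', x')) hu2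
        exact hne (congrArg Prod.snd hu3)
  have hcardAB : Fintype.card (Additive β.A) = Fintype.card β.B + 1 := by
    have h1 := β.card_A
    have h2 := β.card_B
    have h3 := one_lt_order P L
    have h4 : Fintype.card (Additive β.A) = Nat.card β.A := by
      rw [← Nat.card_eq_fintype_card]
      exact Nat.card_congr Additive.toMul
    have h5 : Fintype.card β.B = Nat.card β.B := Nat.card_eq_fintype_card.symm
    omega
  obtain ⟨K, _, _, γ, θ, hθ⟩ := core hDPD hcardAB
  let Θ : G ≃* Multiplicative K × Kˣ :=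
    (prodEquiv β).symm.trans (MulEquiv.prodCongr (AddEquiv.toMultiplicativeRight θ) γ)
  refine ⟨K, inferInstance, inferInstance, ?_⟩
  refine β.exists_iso Θ ?_
  intro g
  obtain ⟨x, y, rfl⟩ := exists_prod β g
  have hΘ : Θ ((x : G) * y) = (Multiplicative.ofAdd (θ (Additive.ofMul x)), γ y) := by
    have : (prodEquiv β).symm ((x : G) * y) = (x, y) := by
      rw [MulEquiv.symm_apply_eq]; rfl
    show (MulEquiv.prodCongr (AddEquiv.toMultiplicativeRight θ) γ) ((prodEquiv β).symm ((x : G) * y)) = _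
    rw [this]
    rfl
  rw [hΘ]
  simp only [toAdd_ofAdd]
  rw [← hθ y]
  constructor
  · intro h
    have h1 : x = f y := huniq y x (f y) h (hf y)
    rw [h1]
  · intro h
    have h1 : Additive.ofMul x = F y := θ.injective h
    have h2 : x = f y := h1
    rw [h2]
    exact hf y

end Pool.Agent.Lib.Helper3.TypeF
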